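import Pool.Agent.H35.K2S.Avg

/-!
# Fans near lines, without a bound on the slopes

If one frame with bounded slopes exists and the fans are spread, then all the finer frames are
unique, so their slopes are bounded as well.
-/

set_option autoImplicit false

namespace Pool.K2S

open Finset Real
open Pool.Agent.H49.Ent Pool.Agent.H32.Dense Pool.STK Pool.KA

variable {Ω U V V' S T T' S' : Type} [Fintype Ω] {m : ℕ}

/-- At each point the directions lie within `r` of the line with slopes `e` and offsets `n`. -/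
def OnL (i₀ : Fin m) (r : ℝ) (pt : Ω → U) (d : Ω → Fin m → ℝ) (A : Ω → Prop)
    (e n : U → Fin m → ℝ) : Prop :=
  ∀ ω, A ω → ∀ j, |d ω j - e (pt ω) j * d ω i₀ - n (pt ω) j| ≤ r

/-- The directions at each point lie near a line (no bound on the slopes). -/
def LineU (i₀ : Fin m) (r : ℝ) (pt : Ω → U) (d : Ω → Fin m → ℝ) (A : Ω → Prop) : Prop :=
  ∃ e n : U → Fin m → ℝ, OnL i₀ r pt d A e n

omit [Fintype Ω] in
theorem OnL.sub {i₀ : Fin m} {r : ℝ} {pt : Ω → U} {d : Ω → Fin m → ℝ} {A B : Ω → Prop}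
    {e n : U → Fin m → ℝ} (h : OnL i₀ r pt d A e n) (hB : Sub B A) : OnL i₀ r pt d B e n :=
  fun ω hω => h ω (hB ω hω)

omit [Fintype Ω] in
theorem OnL.mono {i₀ : Fin m} {r r' : ℝ} {pt : Ω → U} {d : Ω → Fin m → ℝ} {A : Ω → Prop}
    {e n : U → Fin m → ℝ} (h : OnL i₀ r pt d A e n) (hr : r ≤ r') : OnL i₀ r' pt d A e n :=
  fun ω hω j => (h ω hω j).trans hr

omit [Fintype Ω] in
theorem IsFrame.onL {i₀ : Fin m} {r : ℝ} {pt : Ω → U} {d : Ω → Fin m → ℝ} {A : Ω → Prop}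
    {e n : U → Fin m → ℝ} (h : IsFrame i₀ r pt d A e n) : OnL i₀ r pt d A e n := h.line

omit [Fintype Ω] in
theorem LineU.hered (i₀ : Fin m) (r : ℝ) (pt : Ω → U) (d : Ω → Fin m → ℝ) :
    Hered (LineU i₀ r pt d) := fun _ _ h ⟨e, n, hen⟩ => ⟨e, n, hen.sub h⟩

omit [Fintype Ω] in
theorem LineU.mono {i₀ : Fin m} {r r' : ℝ} {pt : Ω → U} {d : Ω → Fin m → ℝ} {A : Ω → Prop}
    (h : LineU i₀ r pt d A) (hr : r ≤ r') : LineU i₀ r' pt d A := by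
  obtain ⟨e, n, hen⟩ := h
  exact ⟨e, n, hen.mono hr⟩

omit [Fintype Ω] in
theorem LineAt.lineU {i₀ : Fin m} {r : ℝ} {pt : Ω → U} {d : Ω → Fin m → ℝ} {A : Ω → Prop}
    (h : LineAt i₀ r pt d A) : LineU i₀ r pt d A := by
  obtain ⟨e, n, hen⟩ := h
  exact ⟨e, n, hen.line⟩

omit [Fintype Ω] in
/-- `LineU` is a property of the form `Fn`. -/
theorem lineU_iff (i₀ : Fin m) (r : ℝ) (pt : Ω → U) (d : Ω → Fin m → ℝ) (A : Ω → Prop) :
    LineU i₀ r pt d A ↔ Fn d pt (fun D (s : (Fin m → ℝ) × (Fin m → ℝ)) =>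
      ∀ j, |D j - s.1 j * D i₀ - s.2 j| ≤ r) A := by
  constructor
  · rintro ⟨e, n, h⟩
    exact ⟨fun u => (e u, n u), fun ω hω => h ω hω⟩
  · rintro ⟨ζ, hζ⟩
    exact ⟨fun u => (ζ u).1, fun u => (ζ u).2, fun ω hω => hζ ω hω⟩

/-! ### Spread in the chart coordinate -/

/-- All fans have diameter more than `s` in the coordinate `i₀`. -/
def SpreadI (i₀ : Fin m) (s : ℝ) (pt : Ω → U) (d : Ω → Fin m → ℝ) (A : Ω → Prop) : Prop :=
  ∀ ω, A ω → ∃ ω' ω'', A ω' ∧ A ω'' ∧ pt ω' = pt ω ∧ pt ω'' = pt ω ∧ s < |d ω' i₀ - d ω'' i₀|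

omit [Fintype Ω] in
theorem IsFrame.spreadI {i₀ : Fin m} {r r₁ : ℝ} {pt : Ω → U} {d : Ω → Fin m → ℝ}
    {A : Ω → Prop} {e n : U → Fin m → ℝ} (h : IsFrame i₀ r pt d A e n)
    (hs : Spread r₁ pt d A) : SpreadI i₀ (r₁ - 2 * r) pt d A := by
  intro ω hω
  obtain ⟨ω₁, ω₂, h1, h2, h3, h4, j₀, h5⟩ := hs ω hω
  refine ⟨ω₁, ω₂, h1, h2, h3, h4, ?_⟩
  have l1 := abs_le.1 (h.line ω₁ h1 j₀)
  have l2 := abs_le.1 (h.line ω₂ h2 j₀)
  have hb := h.bound ω hω j₀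
  rw [h3] at l1
  rw [h4] at l2
  have k1 : |(d ω₁ j₀ - d ω₂ j₀) - e (pt ω) j₀ * (d ω₁ i₀ - d ω₂ i₀)| ≤ 2 * r := by
    rw [abs_le]
    constructor <;> nlinarith [l1.1, l1.2, l2.1, l2.2]
  have k2 : |d ω₁ j₀ - d ω₂ j₀| ≤ |e (pt ω) j₀ * (d ω₁ i₀ - d ω₂ i₀)| + 2 * r := by
    have := abs_sub_abs_le_abs_sub (d ω₁ j₀ - d ω₂ j₀) (e (pt ω) j₀ * (d ω₁ i₀ - d ω₂ i₀))
    linarith
  rw [abs_mul] at k2
  have k3 : |e (pt ω) j₀| * |d ω₁ i₀ - d ω₂ i₀| ≤ |d ω₁ i₀ - d ω₂ i₀| := by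
    nlinarith [abs_nonneg (d ω₁ i₀ - d ω₂ i₀), abs_nonneg (e (pt ω) j₀)]
  linarith

omit [Fintype Ω] in
/-- The slopes are unique. -/
theorem OnL.unique {i₀ : Fin m} {r r' s : ℝ} {pt : Ω → U} {d : Ω → Fin m → ℝ}
    {A : Ω → Prop} {e n e' n' : U → Fin m → ℝ} (h : OnL i₀ r pt d A e n)
    (h' : OnL i₀ r' pt d A e' n') (hs : SpreadI i₀ s pt d A) (hpos : 0 < s) (ω : Ω)
    (hω : A ω) (j : Fin m) : |e (pt ω) j - e' (pt ω) j| ≤ (2 * r + 2 * r') / s := by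
  obtain ⟨ω₁, ω₂, h1, h2, h3, h4, h5⟩ := hs ω hω
  set Δ := d ω₁ i₀ - d ω₂ i₀ with hΔ
  have l1 := fun j => h ω₁ h1 j
  have l2 := fun j => h ω₂ h2 j
  have l1' := fun j => h' ω₁ h1 j
  have l2' := fun j => h' ω₂ h2 j
  rw [h3] at l1 l1'
  rw [h4] at l2 l2'
  have k1 : |(d ω₁ j - d ω₂ j) - e (pt ω) j * Δ| ≤ 2 * r := by
    have a1 := abs_le.1 (l1 j)
    have a2 := abs_le.1 (l2 j)
    rw [abs_le, hΔ]
    constructor <;> nlinarith [a1.1, a1.2, a2.1, a2.2]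
  have k2 : |(d ω₁ j - d ω₂ j) - e' (pt ω) j * Δ| ≤ 2 * r' := by
    have a1 := abs_le.1 (l1' j)
    have a2 := abs_le.1 (l2' j)
    rw [abs_le, hΔ]
    constructor <;> nlinarith [a1.1, a1.2, a2.1, a2.2]
  rw [le_div_iff₀ hpos]
  calc |e (pt ω) j - e' (pt ω) j| * s ≤ |e (pt ω) j - e' (pt ω) j| * |Δ| :=
        mul_le_mul_of_nonneg_left h5.le (abs_nonneg _)
    _ = |((d ω₁ j - d ω₂ j) - e' (pt ω) j * Δ) - ((d ω₁ j - d ω₂ j) - e (pt ω) j * Δ)| := by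
        rw [← abs_mul]
        congr 1
        ring
    _ ≤ _ := by
        have := abs_sub ((d ω₁ j - d ω₂ j) - e' (pt ω) j * Δ)
          ((d ω₁ j - d ω₂ j) - e (pt ω) j * Δ)
        linarith [k1, k2]

omit [Fintype Ω] in
/-- The slopes of a finer frame are bounded. -/
theorem OnL.bound {i₀ : Fin m} {r r' s : ℝ} {pt : Ω → U} {d : Ω → Fin m → ℝ}
    {A : Ω → Prop} {e n e' n' : U → Fin m → ℝ} (h : IsFrame i₀ r pt d A e n)
    (h' : OnL i₀ r' pt d A e' n') (hs : SpreadI i₀ s pt d A) (hpos : 0 < s)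
    (hr : 2 * r + 2 * r' ≤ s) (ω : Ω) (hω : A ω) (j : Fin m) : |e' (pt ω) j| ≤ 2 := by
  have h1 := h.onL.unique h' hs hpos ω hω j
  have h2 : (2 * r + 2 * r') / s ≤ 1 := by
    rw [div_le_one hpos]
    exact hr
  have h3 := h.bound ω hω j
  have h4 := abs_sub_abs_le_abs_sub (e' (pt ω) j) (e (pt ω) j)
  rw [abs_sub_comm] at h4
  linarith

/-! ### Turning thresholds -/

/-- The slopes are known from the window up to `ρ` (no bound on the slopes). -/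
def RotU (i₀ : Fin m) (r ρ : ℝ) (pt : Ω → U) (wn : Ω → V) (d : Ω → Fin m → ℝ) (A : Ω → Prop) :
    Prop :=
  ∃ (e n : U → Fin m → ℝ) (ζ : V → Fin m → ℝ), OnL i₀ r pt d A e n ∧
    ∀ ω, A ω → ∀ j, |e (pt ω) j - ζ (wn ω) j| ≤ ρ

omit [Fintype Ω] in
theorem RotU.hered (i₀ : Fin m) (r ρ : ℝ) (pt : Ω → U) (wn : Ω → V) (d : Ω → Fin m → ℝ) :
    Hered (RotU i₀ r ρ pt wn d) :=
  fun _ _ h ⟨e, n, ζ, h1, h2⟩ => ⟨e, n, ζ, h1.sub h, fun ω hω => h2 ω (h ω hω)⟩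

omit [Fintype Ω] in
theorem Rot.rotU {i₀ : Fin m} {r ρ : ℝ} {pt : Ω → U} {wn : Ω → V} {d : Ω → Fin m → ℝ}
    {A : Ω → Prop} (h : Rot i₀ r ρ pt wn d A) : RotU i₀ r ρ pt wn d A := by
  obtain ⟨e, n, ζ, h1, h2⟩ := h
  exact ⟨e, n, ζ, h1.line, h2⟩

omit [Fintype Ω] in
theorem RotU.lineU {i₀ : Fin m} {r ρ : ℝ} {pt : Ω → U} {wn : Ω → V} {d : Ω → Fin m → ℝ}
    {A : Ω → Prop} (h : RotU i₀ r ρ pt wn d A) : LineU i₀ r pt d A := by
  obtain ⟨e, n, ζ, h1, h2⟩ := h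
  exact ⟨e, n, h1⟩

omit [Fintype Ω] in
theorem RotU.mono {i₀ : Fin m} {r ρ r' ρ' : ℝ} {pt : Ω → U} {wn : Ω → V} {d : Ω → Fin m → ℝ}
    {A : Ω → Prop} (hr : r ≤ r') (h : ρ ≤ ρ') (hR : RotU i₀ r ρ pt wn d A) :
    RotU i₀ r' ρ' pt wn d A := by
  obtain ⟨e, n, ζ, h1, h2⟩ := hR
  exact ⟨e, n, ζ, h1.mono hr, fun ω hω j => (h2 ω hω j).trans h⟩

omit [Fintype Ω] in
/-- Smaller windows. -/
theorem RotU.window {i₀ : Fin m} {r ρ : ℝ} {pt : Ω → U} {wn : Ω → V} {wn' : Ω → V'} {φ : V' → V}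
    (hφ : ∀ ω, wn ω = φ (wn' ω)) {d : Ω → Fin m → ℝ} {A : Ω → Prop}
    (hR : RotU i₀ r ρ pt wn d A) : RotU i₀ r ρ pt wn' d A := by
  obtain ⟨e, n, ζ, h1, h2⟩ := hR
  exact ⟨e, n, fun v => ζ (φ v), h1, fun ω hω j => by
    have := h2 ω hω j
    rwa [hφ] at this⟩

omit [Fintype Ω] in
/-- Every frame at the level of the threshold is known from the window. -/
theorem RotU.frame {i₀ : Fin m} {r r' ρ s : ℝ} {pt : Ω → U} {wn : Ω → V}
    {d : Ω → Fin m → ℝ} {A : Ω → Prop} {e n : U → Fin m → ℝ} (hR : RotU i₀ r ρ pt wn d A)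
    (h : OnL i₀ r' pt d A e n) (hs : SpreadI i₀ s pt d A) (hpos : 0 < s) :
    ∃ ζ : V → Fin m → ℝ, ∀ ω, A ω → ∀ j, |e (pt ω) j - ζ (wn ω) j| ≤ ρ + (2 * r + 2 * r') / s := by
  obtain ⟨e', n', ζ, h1, h2⟩ := hR
  refine ⟨ζ, fun ω hω j => ?_⟩
  have a1 := h1.unique h hs hpos ω hω j
  have a2 := h2 ω hω j
  rw [abs_sub_comm] at a1
  calc |e (pt ω) j - ζ (wn ω) j| = |(e (pt ω) j - e' (pt ω) j) + (e' (pt ω) j - ζ (wn ω) j)| := by
        congr 1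
        ring
    _ ≤ _ := (abs_add_le _ _).trans (by linarith)

omit [Fintype Ω] in
/-- Below the threshold the frames of all times of a window agree. -/
theorem RotU.pairs {i₀ : Fin m} {r r' ρ s : ℝ} {pt : Ω → U} {wn : Ω → V} {d : Ω → Fin m → ℝ}
    {A : Ω → Prop} {e n : U → Fin m → ℝ} (hR : RotU i₀ r ρ pt wn d A)
    (h : OnL i₀ r' pt d A e n) (hs : SpreadI i₀ s pt d A) (hpos : 0 < s) {ω ω' : Ω}
    (hω : A ω) (hω' : A ω') (hw : wn ω = wn ω') (j : Fin m) :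
    |e (pt ω) j - e (pt ω') j| ≤ 2 * (ρ + (2 * r + 2 * r') / s) := by
  obtain ⟨ζ, hζ⟩ := hR.frame h hs hpos
  have a3 := hζ ω hω j
  have a4 := hζ ω' hω' j
  rw [← hw] at a4
  rw [abs_le] at *
  constructor <;> linarith [a3.1, a3.2, a4.1, a4.2]

/-- Above the threshold the frames of two times of a window (or of a longer window) agree with
exponentially small probability only. -/
theorem Stb.rotU_cpy_lt {p : Ω → ℝ} (hp : IsLaw p) {κ : ℝ} {A : Ω → Prop} (hA : 0 < Pe p A)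
    {i₀ : Fin m} {r ρ : ℝ} {pt : Ω → U} {wn : Ω → V} {d : Ω → Fin m → ℝ} {e n : U → Fin m → ℝ}
    (hs : Stb p κ A (RotU i₀ r ρ pt wn d)) (hn : ¬ RotU i₀ r ρ pt wn d A)
    (h : OnL i₀ r pt d A e n) {wn' : Ω → V'} {φ : V → V'} (hφ : ∀ ω, wn' ω = φ (wn ω)) :
    Pe (cpy (Pool.Agent.H49.Ent.cond p A True) wn')
      (fun w => ∀ j, |e (pt w.1) j - e (pt w.2) j| ≤ ρ) < Real.exp (-κ) := by
  by_contra hcon
  push Not at hcon
  obtain ⟨ζ, hζ⟩ := exists_fn_of_cpy (isLaw_cond hp hA) (fun ω => e (pt ω)) wn'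
    (fun a b : Fin m → ℝ => ∀ j, |a j - b j| ≤ ρ) hcon
  rw [Pe_cond, le_div_iff₀ hA] at hζ
  rcases hs with hs | hs
  · exact hn hs
  · refine hs _ (fun ω hω => hω.1) hζ ⟨e, n, fun v => ζ (φ v), h.sub fun ω hω => hω.1, ?_⟩
    intro ω hω j
    have := hω.2 j
    rwa [hφ] at this

/-! ### Nonconcentration of the chart coordinate -/

theorem mas_mono {q : Ω → ℝ} (hq : IsLaw q) {S₁ S₂ S₁' S₂' : Type} {c : Ω → S₁'} {c' : Ω → S₂'}
    {g : Ω → T} {r : S₁' → S₁ → Prop} {r' : S₂' → S₂ → Prop} {t : T} {s : S₁} {s' : S₂}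
    (h : ∀ ω, 0 < q ω → g ω = t → r (c ω) s → r' (c' ω) s') :
    mas q c g r t s ≤ mas q c' g r' t s' := by
  classical
  unfold mas
  rw [Pe_eq, Pe_eq]
  refine Finset.sum_le_sum fun ω _ => ?_
  by_cases h0 : q ω = 0
  · simp [h0]
  have hω : 0 < q ω := lt_of_le_of_ne (hq.nonneg ω) (Ne.symm h0)
  by_cases h1 : g ω = t ∧ r (c ω) s
  · rw [if_pos h1, if_pos ⟨h1.1, h ω hω h1.1 h1.2⟩]
  · rw [if_neg h1]
    split_ifs
    · exact hω.le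
    · exact le_rfl

/-- If the directions are nonconcentrated on balls and lie near lines with bounded slopes, the
chart coordinate is nonconcentrated on intervals. -/
theorem NonConc.chart {q : Ω → ℝ} (hq : IsLaw q) {i₀ : Fin m} {r r₀ ρ : ℝ} {pt : Ω → U}
    {d : Ω → Fin m → ℝ} {A : Ω → Prop} (hA : ∀ ω, 0 < q ω → A ω) {e n : U → Fin m → ℝ}
    (h : IsFrame i₀ r₀ pt d A e n)
    (hn : NonConc q d pt (fun D (v : Fin m → ℝ) => ∀ j, |D j - v j| ≤ r) ρ) :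
    NonConc q (fun ω => d ω i₀) pt (fun D (v : ℝ) => |D - v| ≤ r - r₀) ρ := by
  intro ω hω v
  refine le_trans ?_ (hn ω hω fun j => e (pt ω) j * v + n (pt ω) j)
  refine mas_mono hq fun ω' hω' hpt hr j => ?_
  have h1 := h.line ω' (hA ω' hω') j
  have h2 := h.bound ω' (hA ω' hω') j
  rw [hpt] at h1 h2
  have h3 : |e (pt ω) j * (d ω' i₀ - v)| ≤ r - r₀ := by
    rw [abs_mul]
    have : 0 ≤ |d ω' i₀ - v| := abs_nonneg _
    nlinarith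
  calc |d ω' j - (e (pt ω) j * v + n (pt ω) j)|
      = |(d ω' j - e (pt ω) j * d ω' i₀ - n (pt ω) j) + e (pt ω) j * (d ω' i₀ - v)| := by
        congr 1
        ring
    _ ≤ _ := (abs_add_le _ _).trans (by linarith)

end Pool.K2S
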