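import Pool.Agent.H35.K2S.Dich

/-!
# Small conditional entropies give exact functions on large events
-/

set_option autoImplicit false

namespace Pool.K2S

open Finset Real
open Pool.Agent.H49.Ent Pool.Agent.H32.Dense Pool.STK Pool.KA

variable {Ω S S' T : Type} [Fintype Ω]

/-- The mass of the most popular values, for a weight `W` and a law `q`. -/
theorem sum_mas_le {q W : Ω → ℝ} (hW : ∀ ω, 0 ≤ W ω) (c : Ω → S) (g : Ω → T)
    (r : S → S → Prop) (ζ : T → S) :
    ∑ w, q w / law q g (g w) * mas W c g r (g w) (ζ (g w)) ≤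
      Pe W (fun ω => r (c ω) (ζ (g ω))) := by
  classical
  unfold mas
  simp_rw [Pe_eq, Finset.mul_sum]
  rw [Finset.sum_comm]
  refine Finset.sum_le_sum fun ω _ => ?_
  by_cases h : r (c ω) (ζ (g ω))
  · rw [if_pos h]
    calc _ = ∑ w, (W ω / law q g (g ω)) * (if g w = g ω then q w else 0) := by
          refine Finset.sum_congr rfl fun w _ => ?_
          by_cases hw : g w = g ω
          · rw [if_pos hw, if_pos ⟨hw.symm, by rw [hw]; exact h⟩, hw]; ring
          · rw [if_neg hw, if_neg (fun h => hw h.1.symm)]; ring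
      _ = (W ω / law q g (g ω)) * law q g (g ω) := by
          rw [← Finset.mul_sum, law_eq_sum]
      _ ≤ W ω := by
          by_cases h0 : law q g (g ω) = 0
          · rw [h0, mul_zero]; exact hW ω
          · rw [div_mul_cancel₀ _ h0]
  · rw [if_neg h]
    refine le_of_eq (Finset.sum_eq_zero fun w _ => ?_)
    by_cases hw : g ω = g w
    · rw [if_neg, mul_zero]
      rintro ⟨_, h'⟩
      rw [← hw] at h'
      exact h h'
    · rw [if_neg (fun h => hw h.1), mul_zero]

theorem sum_dens {q W : Ω → ℝ} (c : Ω → S) (g : Ω → T) :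
    ∑ ω, W ω * (law q (fun ω => (c ω, g ω)) (c ω, g ω) / law q g (g ω)) =
      ∑ w, q w / law q g (g w) * mas W c g Eq (g w) (c w) := by
  classical
  unfold mas
  simp_rw [Pe_eq, Finset.mul_sum]
  rw [Finset.sum_comm]
  refine Finset.sum_congr rfl fun ω _ => ?_
  unfold law
  rw [Finset.sum_div, Finset.mul_sum]
  refine Finset.sum_congr rfl fun w _ => ?_
  by_cases hg : g w = g ω
  · by_cases hc : c w = c ω
    · rw [if_pos (show (c w, g w) = (c ω, g ω) by rw [hg, hc]), if_pos ⟨hg.symm, hc.symm⟩, hg]; ring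
    · rw [if_neg (fun h => hc (congrArg Prod.fst h)), if_neg (fun h => hc h.2.symm)]; ring
  · rw [if_neg (fun h => hg (congrArg Prod.snd h)), if_neg (fun h => hg h.1.symm)]; ring

/-- If the conditional probability of the value of `c` given `g` is at least `exp (-L)` where `W`
does not vanish, then `c` is a function of `g` on a part `exp (-L)` of `W`. -/
theorem exists_fn_of_dens [Nonempty S] {q W : Ω → ℝ} (hq : IsLaw q) (hW : ∀ ω, 0 ≤ W ω)
    (c : Ω → S) (g : Ω → T) {L : ℝ}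
    (h : ∀ ω, 0 < W ω → Real.exp (-L) * law q g (g ω) ≤ law q (fun ω => (c ω, g ω)) (c ω, g ω))
    (h' : ∀ ω, 0 < W ω → 0 < q ω) :
    ∃ ζ : T → S, Real.exp (-L) * ∑ ω, W ω ≤ Pe W (fun ω => c ω = ζ (g ω)) := by
  classical
  obtain ⟨ζ, hζ⟩ := exists_best W c g (Eq : S → S → Prop)
  refine ⟨ζ, ?_⟩
  refine le_trans ?_ (sum_mas_le (q := q) hW c g Eq ζ)
  calc Real.exp (-L) * ∑ ω, W ω ≤
      ∑ ω, W ω * (law q (fun ω => (c ω, g ω)) (c ω, g ω) / law q g (g ω)) := by
        rw [Finset.mul_sum]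
        refine Finset.sum_le_sum fun ω _ => ?_
        by_cases h0 : W ω = 0
        · simp [h0]
        have hω : 0 < W ω := lt_of_le_of_ne (hW ω) (Ne.symm h0)
        have hl := law_pos hq.nonneg g (h' ω hω)
        rw [mul_comm]
        refine mul_le_mul_of_nonneg_left ?_ hω.le
        rw [le_div_iff₀ hl]
        exact h ω hω
    _ = _ := sum_dens c g
    _ ≤ _ := by
        refine Finset.sum_le_sum fun w _ => mul_le_mul_of_nonneg_left (hζ _ _)
          (div_nonneg (hq.nonneg w) (law_nonneg hq.nonneg _ _))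

/-- The same for a finite list of functions. -/
theorem exists_fns_of_dens {n : ℕ} : ∀ {S T : Fin n → Type} [∀ i, Nonempty (S i)] {q : Ω → ℝ}
    (_ : IsLaw q) {W : Ω → ℝ} (_ : ∀ ω, 0 ≤ W ω) (c : ∀ i, Ω → S i) (g : ∀ i, Ω → T i) {L : ℝ}
    (_ : ∀ ω, 0 < W ω → ∀ i, Real.exp (-L) * law q (g i) (g i ω) ≤
      law q (fun ω => (c i ω, g i ω)) (c i ω, g i ω))
    (_ : ∀ ω, 0 < W ω → 0 < q ω),
    ∃ ζ : ∀ i, T i → S i, Real.exp (-(n * L)) * ∑ ω, W ω ≤
      Pe W (fun ω => ∀ i, c i ω = ζ i (g i ω)) := by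
  classical
  induction n with
  | zero =>
    intro S T _ q hq W hW c g L h h'
    refine ⟨fun i => Fin.elim0 i, ?_⟩
    rw [Pe_eq]
    simp
  | succ n ih =>
    intro S T _ q hq W hW c g L h h'
    obtain ⟨ζ₀, h0⟩ := exists_fn_of_dens hq hW (c 0) (g 0) (fun ω hω => h ω hω 0) h'
    set W' : Ω → ℝ := fun ω => if c 0 ω = ζ₀ (g 0 ω) then W ω else 0 with hW'
    have hW'0 : ∀ ω, 0 ≤ W' ω := fun ω => by
      simp only [hW']
      split_ifs
      exacts [hW ω, le_rfl]
    have hW'1 : ∀ ω, 0 < W' ω → 0 < W ω := fun ω hω => by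
      simp only [hW'] at hω
      split_ifs at hω with h1
      · exact hω
      · exact absurd hω (lt_irrefl _)
    obtain ⟨ζ, hζ⟩ := ih hq hW'0 (fun i => c i.succ) (fun i => g i.succ)
      (fun ω hω i => h ω (hW'1 ω hω) i.succ) (fun ω hω => h' ω (hW'1 ω hω))
    have hs : ∑ ω, W' ω = Pe W (fun ω => c 0 ω = ζ₀ (g 0 ω)) := by
      rw [Pe_eq]
    refine ⟨Fin.cons ζ₀ ζ, ?_⟩
    calc Real.exp (-(((n + 1 : ℕ) : ℝ) * L)) * ∑ ω, W ω
        = Real.exp (-(n * L)) * (Real.exp (-L) * ∑ ω, W ω) := by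
          rw [← mul_assoc, ← Real.exp_add]
          congr 2
          push_cast
          ring
      _ ≤ Real.exp (-(n * L)) * ∑ ω, W' ω := by
          rw [hs]
          exact mul_le_mul_of_nonneg_left h0 (Real.exp_pos _).le
      _ ≤ _ := hζ
      _ ≤ _ := by
          rw [Pe_eq, Pe_eq]
          refine Finset.sum_le_sum fun ω _ => ?_
          by_cases h1 : c 0 ω = ζ₀ (g 0 ω)
          · by_cases h2 : ∀ i : Fin n, c i.succ ω = ζ i (g i.succ ω)
            · rw [if_pos h2, if_pos]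
              · simp [hW', h1]
              · intro i
                refine Fin.cases ?_ (fun i => ?_) i
                · exact h1
                · exact h2 i
            · rw [if_neg h2]
              split_ifs
              exacts [hW ω, le_rfl]
          · have : W' ω = 0 := by simp [hW', h1]
            rw [this]
            split_ifs <;> first | exact hW ω | exact le_rfl

/-- Markov's inequality for the information density. -/
theorem Pe_dens_le {q : Ω → ℝ} (hq : IsLaw q) (c : Ω → S) (g : Ω → T) {δ L : ℝ}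
    (hL : 0 < L) (h : CH q c g ≤ δ) :
    Pe q (fun ω => law q (fun ω => (c ω, g ω)) (c ω, g ω) < Real.exp (-L) * law q g (g ω)) ≤
      δ / L := by
  classical
  rw [le_div_iff₀ hL, Pe_eq, Finset.sum_mul]
  refine le_trans ?_ h
  have h1 : CH q c g = ∑ ω, q ω * (Real.log (law q g (g ω)) -
      Real.log (law q (fun ω => (c ω, g ω)) (c ω, g ω))) := by
    unfold CH H
    rw [sub_neg_eq_add, neg_add_eq_sub, ← Finset.sum_sub_distrib]
    refine Finset.sum_congr rfl fun ω _ => ?_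
    ring
  rw [h1]
  refine Finset.sum_le_sum fun ω _ => ?_
  by_cases h0 : q ω = 0
  · simp [h0]
  have hω : 0 < q ω := lt_of_le_of_ne (hq.nonneg ω) (Ne.symm h0)
  have hl := law_pos hq.nonneg g hω
  have hl2 := law_pos hq.nonneg (fun ω => (c ω, g ω)) hω
  split_ifs with h2
  · refine mul_le_mul_of_nonneg_left ?_ hω.le
    have h3 := Real.log_lt_log hl2 h2
    rw [Real.log_mul (Real.exp_pos _).ne' hl.ne', Real.log_exp] at h3
    linarith
  · rw [zero_mul]
    refine mul_nonneg hω.le (sub_nonneg.2 (Real.log_le_log hl2 ?_))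
    exact law_mono_of_det hq.nonneg (X := fun ω => (c ω, g ω)) (Y := g)
      (fun ω ω' _ _ h => (congrArg Prod.snd h)) hω

/-- (2.3.3): if `c i` has small entropy given `g i` for finitely many `i`, then on a large event
all the `c i` are functions of the `g i`. -/
theorem exists_fns_of_CH {n : ℕ} {S T : Fin n → Type} [∀ i, Nonempty (S i)] {q : Ω → ℝ}
    (hq : IsLaw q) (c : ∀ i, Ω → S i) (g : ∀ i, Ω → T i) {δ : ℝ} (hδ : 0 < δ)
    (h : ∀ i, CH q (c i) (g i) ≤ δ) :
    ∃ ζ : ∀ i, T i → S i, Real.exp (-(2 * n ^ 2 * δ)) / 2 ≤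
      Pe q (fun ω => ∀ i, c i ω = ζ i (g i ω)) := by
  classical
  rcases Nat.eq_zero_or_pos n with rfl | hn
  · refine ⟨fun i => Fin.elim0 i, ?_⟩
    have : Pe q (fun ω => ∀ i : Fin 0, c i ω = (Fin.elim0 i : T i → S i) (g i ω)) = 1 := by
      rw [Pe_eq]
      simpa using hq.sum_one
    rw [this]
    norm_num
  have hn' : (0 : ℝ) < n := by exact_mod_cast hn
  set L : ℝ := 2 * n * δ with hL
  have hL0 : 0 < L := by positivity
  set W : Ω → ℝ := fun ω => if ∃ i, law q (fun ω => (c i ω, g i ω)) (c i ω, g i ω) <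
    Real.exp (-L) * law q (g i) (g i ω) then 0 else q ω with hW
  have hW0 : ∀ ω, 0 ≤ W ω := fun ω => by
    simp only [hW]
    split_ifs
    exacts [le_rfl, hq.nonneg ω]
  have hWq : ∀ ω, W ω ≤ q ω := fun ω => by
    simp only [hW]
    split_ifs
    exacts [hq.nonneg ω, le_rfl]
  have hW1 : ∀ ω, 0 < W ω → ∀ i, Real.exp (-L) * law q (g i) (g i ω) ≤
      law q (fun ω => (c i ω, g i ω)) (c i ω, g i ω) := by
    intro ω hω i
    simp only [hW] at hω
    split_ifs at hω with h1
    · exact absurd hω (lt_irrefl _)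
    · push Not at h1
      exact h1 i
  obtain ⟨ζ, hζ⟩ := exists_fns_of_dens hq hW0 c g hW1 (fun ω hω => hω.trans_le (hWq ω))
  refine ⟨ζ, ?_⟩
  have hs : 1 / 2 ≤ ∑ ω, W ω := by
    have h1 : ∑ ω, (q ω - W ω) ≤ ∑ i : Fin n, Pe q (fun ω =>
        law q (fun ω => (c i ω, g i ω)) (c i ω, g i ω) < Real.exp (-L) * law q (g i) (g i ω)) := by
      simp_rw [Pe_eq]
      rw [Finset.sum_comm]
      refine Finset.sum_le_sum fun ω _ => ?_
      by_cases h2 : ∃ i, law q (fun ω => (c i ω, g i ω)) (c i ω, g i ω) <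
        Real.exp (-L) * law q (g i) (g i ω)
      · obtain ⟨i, hi⟩ := h2
        have h3 : W ω = 0 := by simp only [hW]; rw [if_pos ⟨i, hi⟩]
        rw [h3, sub_zero]
        refine le_trans ?_ (Finset.single_le_sum (f := fun i =>
          if law q (fun ω => (c i ω, g i ω)) (c i ω, g i ω) < Real.exp (-L) * law q (g i) (g i ω)
            then q ω else 0) (fun j _ => ?_) (Finset.mem_univ i))
        · simp only [hi, if_true, le_refl]
        · split_ifs
          exacts [hq.nonneg ω, le_rfl]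
      · have h3 : W ω = q ω := by simp only [hW]; rw [if_neg h2]
        rw [h3, sub_self]
        refine Finset.sum_nonneg fun i _ => ?_
        split_ifs
        exacts [hq.nonneg ω, le_rfl]
    have h2 : ∑ i : Fin n, Pe q (fun ω => law q (fun ω => (c i ω, g i ω)) (c i ω, g i ω) <
        Real.exp (-L) * law q (g i) (g i ω)) ≤ ∑ _i : Fin n, δ / L :=
      Finset.sum_le_sum fun i _ => Pe_dens_le hq (c i) (g i) hL0 (h i)
    rw [Finset.sum_sub_distrib, hq.sum_one] at h1
    rw [Finset.sum_const, Finset.card_univ, Fintype.card_fin, nsmul_eq_mul] at h2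
    have h3 : (n : ℝ) * (δ / L) = 1 / 2 := by
      rw [hL]; field_simp
    linarith
  have hm : Pe W (fun ω => ∀ i, c i ω = ζ i (g i ω)) ≤ Pe q (fun ω => ∀ i, c i ω = ζ i (g i ω)) := by
    rw [Pe_eq, Pe_eq]
    refine Finset.sum_le_sum fun ω _ => ?_
    split_ifs
    exacts [hWq ω, le_rfl]
  refine le_trans ?_ (hζ.trans hm)
  have h4 : (n : ℝ) * L = 2 * n ^ 2 * δ := by rw [hL]; ring
  rw [h4, div_eq_mul_one_div]
  exact mul_le_mul_of_nonneg_left hs (Real.exp_pos _).le

/-- (2.3.2): if `c` has small entropy given `g` on a large event, then it is exactly a function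
of `g` on the stable event. -/
theorem Stb.fn_of_CH {p : Ω → ℝ} (hp : IsLaw p) {κ a δ : ℝ} {A B : Ω → Prop}
    (hA : 0 < Pe p A) (hBA : Sub B A) (hB : Real.exp (-a) * Pe p A ≤ Pe p B) {c : Ω → S}
    {g : Ω → T} [Nonempty S] (hs : Stb p κ A (Fn c g Eq)) (hδ : 0 < δ)
    (h : CH (Pool.Agent.H49.Ent.cond p B True) c g ≤ δ) (hκ : a + 2 * δ + Real.log 2 ≤ κ) :
    Fn c g Eq A := by
  have hB0 : 0 < Pe p B := lt_of_lt_of_le (mul_pos (Real.exp_pos _) hA) hB
  obtain ⟨ζ, hζ⟩ := exists_fns_of_CH (n := 1) (S := fun _ => S) (T := fun _ => T)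
    (isLaw_cond hp hB0) (fun _ => c) (fun _ => g) hδ (fun _ => h)
  rw [Pe_cond, le_div_iff₀ hB0] at hζ
  refine hs.of_sub (B := fun ω => B ω ∧ ∀ i : Fin 1, c ω = ζ i (g ω)) (fun ω hω => hBA ω hω.1) ?_
    ⟨ζ 0, fun ω hω => hω.2 0⟩
  refine le_trans ?_ hζ
  calc Real.exp (-κ) * Pe p A ≤ Real.exp (-(a + 2 * δ + Real.log 2)) * Pe p A :=
        mul_le_mul_of_nonneg_right (Real.exp_le_exp.2 (by linarith)) hA.le
    _ = Real.exp (-(2 * ((1 : ℕ) : ℝ) ^ 2 * δ)) / 2 * (Real.exp (-a) * Pe p A) := by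
        rw [show -(a + 2 * δ + Real.log 2) = -(2 * ((1 : ℕ) : ℝ) ^ 2 * δ) + (-Real.log 2) + -a by
          push_cast; ring, Real.exp_add, Real.exp_add, Real.exp_neg (Real.log 2),
          Real.exp_log (by norm_num : (0 : ℝ) < 2)]
        ring
    _ ≤ _ := mul_le_mul_of_nonneg_left hB (by positivity)

/-! ### Labels -/

/-- There is a label on `A`: incident with the samples, a function of `g` and a function of
`x`. -/
def Lab {Y U : Type} (inc : Y → Ω → Prop) (g : Ω → T) (x : Ω → U) (A : Ω → Prop) : Prop :=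
  ∃ y : Ω → Y, (∀ ω, A ω → inc (y ω) ω) ∧ Fn y g Eq A ∧ Fn y x Eq A

omit [Fintype Ω] in
theorem Lab.hered {Y U : Type} (inc : Y → Ω → Prop) (g : Ω → T) (x : Ω → U) :
    Hered (Lab inc g x) :=
  fun A B h ⟨y, h1, h2, h3⟩ => ⟨y, fun ω hω => h1 ω (h ω hω), Fn.hered y g Eq A B h h2,
    Fn.hered y x Eq A B h h3⟩

/-- (2.7.1) **Production rule.** A label which on a large event has small entropy given `g` and
given `x` gives an exact label on the stable event. -/
theorem Stb.lab_of_CH {Y U : Type} [Nonempty Y] {p : Ω → ℝ} (hp : IsLaw p) {κ a δ : ℝ}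
    {A B : Ω → Prop} (hA : 0 < Pe p A) (hBA : Sub B A)
    (hB : Real.exp (-a) * Pe p A ≤ Pe p B) {inc : Y → Ω → Prop} {g : Ω → T} {x : Ω → U}
    (hs : Stb p κ A (Lab inc g x)) (y : Ω → Y) (hy : ∀ ω, B ω → inc (y ω) ω) (hδ : 0 < δ)
    (h1 : CH (Pool.Agent.H49.Ent.cond p B True) y g ≤ δ)
    (h2 : CH (Pool.Agent.H49.Ent.cond p B True) y x ≤ δ)
    (hκ : a + 8 * δ + Real.log 2 ≤ κ) : Lab inc g x A := by
  have hB0 : 0 < Pe p B := lt_of_lt_of_le (mul_pos (Real.exp_pos _) hA) hB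
  obtain ⟨ζ, hζ⟩ := exists_fns_of_CH (n := 2) (S := fun _ => Y)
    (T := fun i => if i = 0 then T else U) (isLaw_cond hp hB0) (fun _ => y)
    (fun i => if h : i = 0 then fun ω => cast (by rw [if_pos h]) (g ω) else
      fun ω => cast (by rw [if_neg h]) (x ω)) hδ (by
        intro i
        fin_cases i
        · exact h1
        · exact h2)
  rw [Pe_cond, le_div_iff₀ hB0] at hζ
  refine hs.of_sub (B := fun ω => B ω ∧ ∀ i : Fin 2, y ω = ζ i ((if h : i = 0 then
      fun ω => cast (by rw [if_pos h]) (g ω) else fun ω => cast (by rw [if_neg h]) (x ω)) ω))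
    (fun ω hω => hBA ω hω.1) ?_ ⟨y, fun ω hω => hy ω hω.1, ⟨ζ 0, fun ω hω => hω.2 0⟩,
      ⟨ζ 1, fun ω hω => hω.2 1⟩⟩
  refine le_trans ?_ hζ
  calc Real.exp (-κ) * Pe p A ≤ Real.exp (-(a + 8 * δ + Real.log 2)) * Pe p A :=
        mul_le_mul_of_nonneg_right (Real.exp_le_exp.2 (by linarith)) hA.le
    _ = Real.exp (-(2 * ((2 : ℕ) : ℝ) ^ 2 * δ)) / 2 * (Real.exp (-a) * Pe p A) := by
        rw [show -(a + 8 * δ + Real.log 2) = -(2 * ((2 : ℕ) : ℝ) ^ 2 * δ) + (-Real.log 2) + -a by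
          push_cast; ring, Real.exp_add, Real.exp_add, Real.exp_neg (Real.log 2),
          Real.exp_log (by norm_num : (0 : ℝ) < 2)]
        ring
    _ ≤ _ := mul_le_mul_of_nonneg_left hB (by positivity)

end Pool.K2S
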