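import Pool.Agent.H35.K2S.Avg
import Pool.Agent.H52.K2.RG
import Pool.Agent.H52.K2.AP6
import Pool.Agent.H20.KA.TRC

/-!
# Stable events inside events, levels, stable maximal families
-/

set_option autoImplicit false

namespace Pool.K2S

open Finset Real
open Pool.Agent.H49.Ent Pool.Agent.H32.Dense Pool.STK Pool.KA

variable {Ω : Type} [Fintype Ω]

/-- **Stabilisation theorem**, inside a given event. -/
theorem stab_inside {p : Ω → ℝ} {M : ℕ} (Q : Fin M → (Ω → Prop) → Prop)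
    (hQ : ∀ i, Hered (Q i)) (κ : ℕ → ℝ) (A₀ : Ω → Prop) :
    ∃ n ≤ M, ∃ A : Ω → Prop, Sub A A₀ ∧
      Real.exp (-(∑ i ∈ range n, κ i)) * Pe p A₀ ≤ Pe p A ∧ ∀ i, Stb p (κ n) A (Q i) := by
  classical
  by_contra hcon
  push Not at hcon
  have key : ∀ n ≤ M + 1, ∃ A : Ω → Prop, Sub A A₀ ∧
      Real.exp (-(∑ i ∈ range n, κ i)) * Pe p A₀ ≤ Pe p A ∧
      (univ.filter fun i => ¬ Q i A).card + n ≤ M := by
    intro n
    induction n with
    | zero =>
      intro _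
      refine ⟨A₀, fun _ h => h, ?_, ?_⟩
      · simp
      · have := Finset.card_filter_le (univ : Finset (Fin M)) (fun i => ¬ Q i A₀)
        simpa using this
    | succ n ih =>
      intro hn
      obtain ⟨A, hA0, hA, hc⟩ := ih (by omega)
      obtain ⟨i, hi⟩ := hcon n (by omega) A hA0 hA
      unfold Stb at hi
      push Not at hi
      obtain ⟨h1, B, hB, hPB, hQB⟩ := hi
      refine ⟨B, hB.trans hA0, ?_, ?_⟩
      · rw [Finset.sum_range_succ, neg_add, Real.exp_add]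
        calc Real.exp (-(∑ i ∈ range n, κ i)) * Real.exp (-κ n) * Pe p A₀
            = Real.exp (-κ n) * (Real.exp (-(∑ i ∈ range n, κ i)) * Pe p A₀) := by ring
          _ ≤ Real.exp (-κ n) * Pe p A := mul_le_mul_of_nonneg_left hA (Real.exp_pos _).le
          _ ≤ _ := hPB
      · have hlt : (univ.filter fun i => ¬ Q i B).card < (univ.filter fun i => ¬ Q i A).card := by
          refine Finset.card_lt_card ?_
          rw [Finset.ssubset_iff_of_subset]
          · exact ⟨i, by simpa using h1, by simpa using hQB⟩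
          · intro j hj
            rw [Finset.mem_filter] at hj ⊢
            exact ⟨hj.1, fun h => hj.2 (hQ j A B hB h)⟩
        omega
  obtain ⟨A, -, -, h⟩ := key (M + 1) le_rfl
  omega

/-- (2.2.5) **Two levels**: the second list and its thresholds depend on the freedom of the
first. -/
theorem stab_levels {p : Ω → ℝ} (hp : IsLaw p) {M : ℕ} (Q : Fin M → (Ω → Prop) → Prop)
    (hQ : ∀ i, Hered (Q i)) (κ : ℕ → ℝ) (M' : ℕ → ℕ)
    (Q' : ∀ n, Fin (M' n) → (Ω → Prop) → Prop) (hQ' : ∀ n i, Hered (Q' n i)) (κ' : ℕ → ℕ → ℝ)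
    (h : ∀ n ≤ M, ∀ n' ≤ M' n, ∑ i ∈ range n', κ' n i ≤ κ n / 2) :
    ∃ n ≤ M, ∃ n' ≤ M' n, ∃ A : Ω → Prop,
      Real.exp (-(∑ i ∈ range n, κ i + ∑ i ∈ range n', κ' n i)) ≤ Pe p A ∧
      (∀ i, Stb p (κ n / 2) A (Q i)) ∧ ∀ i, Stb p (κ' n n') A (Q' n i) := by
  obtain ⟨n, hn, A₁, h1, h2⟩ := stab_props hp Q hQ κ
  obtain ⟨n', hn', A, hA, h3, h4⟩ := stab_inside (p := p) (Q' n) (hQ' n) (κ' n) A₁
  refine ⟨n, hn, n', hn', A, ?_, fun i => ?_, h4⟩
  · rw [neg_add, Real.exp_add, mul_comm]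
    exact (mul_le_mul_of_nonneg_left h1 (Real.exp_pos _).le).trans h3
  · have h5 := (h2 i).sub (hQ i) hA h3
    refine h5.mono hp ?_
    have := h n hn n' hn'
    linarith

/-- A large event in a regular maximal family is again a regular maximal family. -/
theorem max_res {m J : ℕ} (F : Fam m J) {a R τ c : ℝ} (ha : 1 ≤ a) (hτ : 0 ≤ τ) (hc : 0 ≤ c)
    (hT : F.Tr) (hM : F.Mx a R τ) (hR : F.Rb (τ * J)) (A : F.Ω → Prop)
    (hA : Real.exp (-(c * J)) ≤ Pe F.p A) :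
    ∃ h : IsLaw (Pool.Agent.H49.Ent.cond F.p A True), (F.res A True h).Tr ∧
      (F.res A True h).Mx a R ((1 + a) * (5 * τ + c)) ∧ (F.res A True h).Rb ((τ + c) * J) := by
  have hJ : (0 : ℝ) ≤ J := Nat.cast_nonneg J
  obtain ⟨h, h1, h2, h3, h4⟩ := res_thm m J F a (τ * J) (c * J) (τ * J) (by linarith)
    (by positivity) (by positivity) hT hR hM.1 A hA
  refine ⟨h, h1, ⟨?_, ?_⟩, ?_⟩
  · unfold Fam.Tm at h3 ⊢
    refine le_trans ?_ h3
    have : τ * J + 4 * (τ * J) + c * J ≤ (1 + a) * (5 * τ + c) * J := by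
      have h5 : 0 ≤ (5 * τ + c) * J := by positivity
      nlinarith
    linarith
  · refine le_trans ?_ h4
    have h5 := hM.2
    have h6 : 0 ≤ τ * J := by positivity
    have h7 : 0 ≤ a * (τ * J) := by positivity
    nlinarith
  · rw [add_mul]
    exact h2

/-- **Stable maximal families.** -/
theorem exists_stable (hREX : REXStmt) {m : ℕ} {a R : ℝ} (ha : 1 ≤ a) (hR : 0 < R)
    (hU : UBa m a R) (hL : LBa m a R) (M : ℕ) (κ : ℕ → ℝ) (hκ : ∀ i, 0 ≤ κ i) {τ : ℝ}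
    (hτ : 0 < τ) (J₀ : ℕ) :
    ∃ J ≥ J₀, ∃ F : Fam m J, F.Tr ∧ F.Mx a R τ ∧ F.Rb (τ * J) ∧
      ∀ Q : Fin M → (F.Ω → Prop) → Prop, (∀ i, Hered (Q i)) →
      ∃ n ≤ M, ∃ A : F.Ω → Prop, Real.exp (-((∑ i ∈ range n, κ i) * J)) ≤ Pe F.p A ∧
        (∀ i, Stb F.p (κ n * J) A (Q i)) ∧
        ∃ h : IsLaw (Pool.Agent.H49.Ent.cond F.p A True), (F.res A True h).Tr ∧
          (F.res A True h).Mx a R ((1 + a) * (5 * τ + ∑ i ∈ range n, κ i)) ∧
          (F.res A True h).Rb ((τ + ∑ i ∈ range n, κ i) * J) := by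
  obtain ⟨J, hJ, F, h1, h2, h3⟩ := hREX m a R ha hR hU hL τ hτ τ hτ J₀
  refine ⟨J, hJ, F, h2, h1, h3, fun Q hQ => ?_⟩
  obtain ⟨n, hn, A, hA, hs⟩ := stab_props F.isLaw Q hQ (fun i => κ i * J)
  rw [← Finset.sum_mul] at hA
  exact ⟨n, hn, A, hA, hs, max_res F ha hτ.le (Finset.sum_nonneg fun i _ => hκ i) h2 h1 h3 A hA⟩

/-- (2.4.2) In maximal families the fans are spread at every scale. -/
theorem not_ball (h6 : AP6RStmt) {m : ℕ} {a R : ℝ} (ha : 1 ≤ a) (hR : 0 < R) (hU : UBa m a R)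
    {x : ℝ} (hx : 0 < x) :
    ∃ τ > 0, ∃ J₁ : ℕ, ∀ J ≥ J₁, ∀ F : Fam m J, F.Mx a R τ → ∀ q : ℕ, q ≤ J → x * J ≤ q →
      ¬ ∃ v : (Fin m → ℤ) × (ℕ × F.ζ) → Fin m → ℝ, ∀ ω, 0 < F.p ω →
        ∀ j, |F.d ω j - v (F.X J ω, F.W ω) j| ≤ 1 / 2 ^ q := by
  classical
  have ha0 : 0 < a := by linarith
  obtain ⟨η₁, hη₁, θ₁, hθ₁, J₁, h⟩ := h6 m a R ha hR hU x hx (R / (2 * a)) (by positivity)
    (1 / 4) (by norm_num)
  set c : ℝ := R / (2 * a) * x with hc
  have hc0 : 0 < c := by positivity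
  obtain ⟨J₂, hJ₂⟩ := exists_nat_gt (4 * cc m / c)
  refine ⟨min η₁ θ₁, by positivity, max J₁ (max J₂ 1), ?_⟩
  intro J hJ F hF q hq hxq ⟨v, hv⟩
  have hJ1 : J₁ ≤ J := (le_max_left _ _).trans hJ
  have hJ2 : J₂ ≤ J := (le_max_left _ _).trans ((le_max_right _ _).trans hJ)
  have hJ3 : 1 ≤ J := (le_max_right _ _).trans ((le_max_right _ _).trans hJ)
  have hJr : (0 : ℝ) < J := by exact_mod_cast hJ3
  have hN : F.NMa a R η₁ θ₁ := by
    refine ⟨?_, ?_⟩
    · have := hF.1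
      unfold Fam.Tm at this ⊢
      have h1 : min η₁ θ₁ * J ≤ θ₁ * J := mul_le_mul_of_nonneg_right (min_le_right _ _) hJr.le
      linarith
    · have := hF.2
      have h1 : min η₁ θ₁ * J ≤ η₁ * J := mul_le_mul_of_nonneg_right (min_le_left _ _) hJr.le
      nlinarith
  have h1 := h J hJ1 F hN q hq hxq
  have hp := F.isLaw
  -- the entropy of the direction digits given the point is bounded
  have h2 : CH F.p (F.D q) (fun ω => (F.X J ω, F.W ω)) ≤ cc m := by
    have e1 := Pool.KA.TRC.CH_le_round hp (F.D q) (fun _ => (0 : Fin m → ℤ))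
      (fun ω => (F.X J ω, F.W ω)) (fun ω ω' hω hω' hw _ k => by
        have b1 := hv ω hω k
        have b2 := hv ω' hω' k
        have hw' : (F.X J ω, F.W ω) = (F.X J ω', F.W ω') := hw
        rw [hw'] at b1
        have hpq : (0 : ℝ) < 2 ^ q := by positivity
        have b3 : |(2 : ℝ) ^ q * F.d ω k - 2 ^ q * F.d ω' k| ≤ 2 := by
          rw [← mul_sub, abs_mul, abs_of_pos hpq]
          have b4 : |F.d ω k - F.d ω' k| ≤ 1 / 2 ^ q + 1 / 2 ^ q := by
            rw [abs_le] at b1 b2 ⊢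
            constructor <;> linarith [b1.1, b1.2, b2.1, b2.2]
          calc (2 : ℝ) ^ q * |F.d ω k - F.d ω' k| ≤ 2 ^ q * (1 / 2 ^ q + 1 / 2 ^ q) :=
                mul_le_mul_of_nonneg_left b4 hpq.le
            _ = 2 := by field_simp; norm_num
        have f1 := Int.floor_le ((2 : ℝ) ^ q * F.d ω k)
        have f2 := Int.lt_floor_add_one ((2 : ℝ) ^ q * F.d ω k)
        have f3 := Int.floor_le ((2 : ℝ) ^ q * F.d ω' k)
        have f4 := Int.lt_floor_add_one ((2 : ℝ) ^ q * F.d ω' k)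
        rw [abs_le] at b3
        change |((⌊(2 : ℝ) ^ q * F.d ω k⌋ - ⌊(2 : ℝ) ^ q * F.d ω' k⌋ : ℤ) : ℝ)| ≤ 49
        rw [abs_le]
        push_cast
        constructor <;> linarith [b3.1, b3.2])
    have e2 : CH F.p (fun _ => (0 : Fin m → ℤ)) (fun ω => (F.X J ω, F.W ω)) = 0 :=
      CH_eq_zero hp.nonneg fun _ _ _ _ _ => rfl
    linarith
  -- Markov's inequality
  set L : ℝ := (R / a - R / (2 * a)) * q with hL
  have hLc : c * J ≤ L := by
    have e : R / a - R / (2 * a) = R / (2 * a) := by field_simp; ring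
    rw [hL, e, hc]
    calc R / (2 * a) * x * J = R / (2 * a) * (x * J) := by ring
      _ ≤ _ := mul_le_mul_of_nonneg_left hxq (by positivity)
  have hL0 : 0 < L := lt_of_lt_of_le (by positivity) hLc
  have h3 := Pe_dens_le hp (F.D q) (fun ω => (F.X J ω, F.W ω)) (half_pos hL0) h2
  have h4 : cc m / (L / 2) < 1 / 2 := by
    rw [div_lt_iff₀ (half_pos hL0)]
    have e1 : (J₂ : ℝ) ≤ J := by exact_mod_cast hJ2
    have e2 : 4 * cc m / c < J := lt_of_lt_of_le hJ₂ e1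
    rw [div_lt_iff₀ hc0] at e2
    nlinarith
  -- total mass
  have h5 : (1 : ℝ) ≤ (∑ ω, if Real.exp (-((R / a - R / (2 * a)) * q)) <
      cpr F.p (F.D q) (fun ω => (F.X J ω, F.W ω)) ω then F.p ω else 0) +
      Pe F.p (fun ω => law F.p (fun ω => (F.D q ω, (F.X J ω, F.W ω)))
        (F.D q ω, (F.X J ω, F.W ω)) < Real.exp (-(L / 2)) *
          law F.p (fun ω => (F.X J ω, F.W ω)) (F.X J ω, F.W ω)) := by
    rw [Pe_eq, ← Finset.sum_add_distrib, ← hp.sum_one]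
    refine Finset.sum_le_sum fun ω _ => ?_
    by_cases h0 : F.p ω = 0
    · rw [h0]; simp
    have hω : 0 < F.p ω := lt_of_le_of_ne (hp.nonneg ω) (Ne.symm h0)
    have hl := law_pos hp.nonneg (fun ω => (F.X J ω, F.W ω)) hω
    rcases lt_or_ge (law F.p (fun ω => (F.D q ω, (F.X J ω, F.W ω)))
        (F.D q ω, (F.X J ω, F.W ω))) (Real.exp (-(L / 2)) *
          law F.p (fun ω => (F.X J ω, F.W ω)) (F.X J ω, F.W ω)) with h7 | h7
    · rw [if_pos h7]
      have : 0 ≤ (if Real.exp (-((R / a - R / (2 * a)) * q)) <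
        cpr F.p (F.D q) (fun ω => (F.X J ω, F.W ω)) ω then F.p ω else 0) := by
        split_ifs
        exacts [hω.le, le_rfl]
      linarith
    · rw [if_neg (not_lt.2 h7), if_pos]
      · linarith
      · unfold cpr
        rw [lt_div_iff₀ hl]
        refine lt_of_lt_of_le ?_ h7
        refine mul_lt_mul_of_pos_right (Real.exp_lt_exp.2 ?_) hl
        rw [← hL]
        linarith
  linarith

end Pool.K2S
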