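import Pool.Agent.H35.K2S.FF
import Pool.Agent.H20.K2.AOP
import Pool.Agent.H97.K2.AP5
import Pool.Agent.H68.K2.AP2
import Pool.Agent.H64.KA.TUB

/-!
# FF without hypotheses
-/

set_option autoImplicit false

namespace Pool.K2S

open Pool.KA

theorem ap6r_all : AP6RStmt := ap6r_thm ap5_thm (ap2_thm aop_thm) tub_thm

/-- **(FF)**, without hypotheses. -/
theorem ff_all : FFStmt := ff_thm aop_thm ap6r_all

end Pool.K2S
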