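import Pool.Agent.H35.K2S.Stab

/-!
# Exact functions or exponentially nonatomic: two samples with a common label
-/

set_option autoImplicit false

namespace Pool.K2S

open Finset Real
open Pool.Agent.H49.Ent Pool.Agent.H32.Dense Pool.STK Pool.KA

variable {Ω S S' T : Type} [Fintype Ω]

/-- The mass of the samples with label `t` whose value is related to `s`. -/
noncomputable def mas (q : Ω → ℝ) (c : Ω → S') (g : Ω → T) (r : S' → S → Prop) (t : T) (s : S) : ℝ :=
  Pe q (fun ω => g ω = t ∧ r (c ω) s)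

/-- There is a most popular value for each label. -/
theorem exists_best (q : Ω → ℝ) (c : Ω → S') (g : Ω → T) (r : S' → S → Prop) [Nonempty S] :
    ∃ ζ : T → S, ∀ t s, mas q c g r t s ≤ mas q c g r t (ζ t) := by
  classical
  have h : ∀ t, ∃ s₀, ∀ s, mas q c g r t s ≤ mas q c g r t s₀ := by
    intro t
    have hfin : (Set.range fun s => mas q c g r t s).Finite := by
      have : (Set.range fun s => mas q c g r t s) ⊆
          ((univ : Finset (Finset Ω)).image fun F => ∑ ω ∈ F, q ω : Finset ℝ) := by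
        rintro _ ⟨s, rfl⟩
        simp only [coe_image, coe_univ, Set.image_univ, Set.mem_range]
        refine ⟨univ.filter fun ω => g ω = t ∧ r (c ω) s, ?_⟩
        unfold mas
        rw [Pe_eq, Finset.sum_filter]
        refine Finset.sum_congr rfl fun a _ => ?_
        by_cases h : g a = t ∧ r (c a) s
        · rw [if_pos h, if_pos h]
        · rw [if_neg h, if_neg h]
      exact (Finset.finite_toSet _).subset this
    obtain ⟨_, ⟨s₀, rfl⟩, h2⟩ := Set.exists_max_image _ id hfin ⟨_, ⟨Classical.arbitrary S, rfl⟩⟩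
    exact ⟨s₀, fun s => h2 _ ⟨s, rfl⟩⟩
  choose ζ hζ using h
  exact ⟨ζ, hζ⟩

open Classical in
theorem law_eq_sum (q : Ω → ℝ) (g : Ω → T) (t : T) :
    law q g t = ∑ ω, if g ω = t then q ω else 0 := by
  unfold law
  rfl

/-- The probability that `c` is related to a function of `g`, as an average of the masses. -/
theorem sum_mas {q : Ω → ℝ} (hq : IsLaw q) (c : Ω → S') (g : Ω → T) (r : S' → S → Prop)
    (ζ : T → S) :
    ∑ w, q w / law q g (g w) * mas q c g r (g w) (ζ (g w)) = Pe q (fun ω => r (c ω) (ζ (g ω))) := by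
  classical
  unfold mas
  simp_rw [Pe_eq, Finset.mul_sum]
  rw [Finset.sum_comm]
  refine Finset.sum_congr rfl fun ω _ => ?_
  by_cases h0 : q ω = 0
  · simp [h0]
  have hω : 0 < q ω := lt_of_le_of_ne (hq.nonneg ω) (Ne.symm h0)
  have hl := law_pos hq.nonneg g hω
  by_cases h : r (c ω) (ζ (g ω))
  · rw [if_pos h]
    calc _ = ∑ w, (q ω / law q g (g ω)) * (if g w = g ω then q w else 0) := by
          refine Finset.sum_congr rfl fun w _ => ?_
          by_cases hw : g w = g ω
          · rw [if_pos hw, if_pos ⟨hw.symm, by rw [hw]; exact h⟩, hw]; ring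
          · rw [if_neg hw, if_neg (fun h => hw h.1.symm)]; ring
      _ = (q ω / law q g (g ω)) * law q g (g ω) := by
          rw [← Finset.mul_sum, law_eq_sum]
      _ = _ := div_mul_cancel₀ _ hl.ne'
  · rw [if_neg h]
    refine Finset.sum_eq_zero fun w _ => ?_
    by_cases hw : g ω = g w
    · rw [if_neg, mul_zero]
      rintro ⟨_, h'⟩
      rw [← hw] at h'
      exact h h'
    · rw [if_neg (fun h => hw h.1), mul_zero]

/-- The probability that two samples with the same label are related. -/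
theorem Pe_cpy_le {q : Ω → ℝ} (hq : IsLaw q) (c : Ω → S) (g : Ω → T) (r : S → S → Prop)
    {ζ : T → S} (hζ : ∀ t s, mas q c g r t s ≤ mas q c g r t (ζ t)) :
    Pe (cpy q g) (fun w => r (c w.1) (c w.2)) ≤ Pe q (fun ω => r (c ω) (ζ (g ω))) := by
  classical
  rw [← sum_mas hq c g r ζ, Pe_eq, Fintype.sum_prod_type_right]
  refine Finset.sum_le_sum fun w _ => ?_
  have h1 : ∑ ω, (if r (c (ω, w).1) (c (ω, w).2) then cpy q g (ω, w) else 0) =
      q w / law q g (g w) * mas q c g r (g w) (c w) := by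
    unfold mas
    rw [Pe_eq, Finset.mul_sum]
    refine Finset.sum_congr rfl fun ω _ => ?_
    unfold cpy
    by_cases h : g ω = g w
    · by_cases h' : r (c ω) (c w)
      · simp only [h, h', if_true, and_self]
        ring
      · simp [h, h']
    · simp [h]
  rw [h1]
  exact mul_le_mul_of_nonneg_left (hζ _ _) (div_nonneg (hq.nonneg w) (law_nonneg hq.nonneg _ _))

theorem isLaw_cond {p : Ω → ℝ} (hp : IsLaw p) {A : Ω → Prop} (hA : 0 < Pe p A) :
    IsLaw (cond p A True) :=
  ⟨cond_nonneg hp.nonneg A True, sum_cond p A hA.ne'⟩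

theorem Pe_cond {p : Ω → ℝ} {A : Ω → Prop} (B : Ω → Prop) :
    Pe (cond p A True) B = Pe p (fun ω => A ω ∧ B ω) / Pe p A := by
  classical
  rw [Pe_eq, Pe_eq p fun ω => A ω ∧ B ω, Finset.sum_div]
  refine Finset.sum_congr rfl fun ω _ => ?_
  unfold Pool.Agent.H49.Ent.cond
  by_cases hA : A ω <;> by_cases hB : B ω <;> simp [hA, hB]

/-- (2.3.1) (i), relative form. -/
theorem Stb.cond_lt {p : Ω → ℝ} {κ : ℝ} {A : Ω → Prop} (hA : 0 < Pe p A) {c : Ω → S'} {g : Ω → T}
    {r : S' → S → Prop} (hs : Stb p κ A (Fn c g r)) (hn : ¬ Fn c g r A) (ζ : T → S) :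
    Pe (cond p A True) (fun ω => r (c ω) (ζ (g ω))) < Real.exp (-κ) := by
  rw [Pe_cond, div_lt_iff₀ hA]
  exact hs.lt_of_not hn ζ

/-- (2.3.1) (ii): two samples with the same label are related with exponentially small
probability, unless `c` is exactly a function of the label. -/
theorem Stb.cpy_lt {p : Ω → ℝ} (hp : IsLaw p) {κ : ℝ} {A : Ω → Prop} (hA : 0 < Pe p A)
    {c : Ω → S} {g : Ω → T} {r : S → S → Prop} [Nonempty S] (hs : Stb p κ A (Fn c g r))
    (hn : ¬ Fn c g r A) :
    Pe (cpy (cond p A True) g) (fun w => r (c w.1) (c w.2)) < Real.exp (-κ) := by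
  obtain ⟨ζ, hζ⟩ := exists_best (cond p A True) c g r
  exact (Pe_cpy_le (isLaw_cond hp hA) c g r hζ).trans_lt (hs.cond_lt hA hn ζ)

/-- (2.3.4): if two samples with the same label are related with probability at least `β`, then
`c` is related to a function of the label with probability at least `β`. -/
theorem exists_fn_of_cpy {q : Ω → ℝ} (hq : IsLaw q) (c : Ω → S) (g : Ω → T) (r : S → S → Prop)
    [Nonempty S] {β : ℝ} (hβ : β ≤ Pe (cpy q g) (fun w => r (c w.1) (c w.2))) :
    ∃ ζ : T → S, β ≤ Pe q (fun ω => r (c ω) (ζ (g ω))) := by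
  obtain ⟨ζ, hζ⟩ := exists_best q c g r
  exact ⟨ζ, hβ.trans (Pe_cpy_le hq c g r hζ)⟩

/-- (2.3.1) (iii): outside a small event which depends on the label only, all the masses are
small. -/
theorem Stb.point {p : Ω → ℝ} (hp : IsLaw p) {κ : ℝ} {A : Ω → Prop} (hA : 0 < Pe p A)
    {c : Ω → S'} {g : Ω → T} {r : S' → S → Prop} [Nonempty S] (hs : Stb p κ A (Fn c g r))
    (hn : ¬ Fn c g r A) :
    Pe (cond p A True) (fun ω => ∃ s, Real.exp (-(κ / 2)) * law (cond p A True) g (g ω) <
      mas (cond p A True) c g r (g ω) s) ≤ Real.exp (-(κ / 2)) := by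
  classical
  set q := cond p A True with hq'
  have hq : IsLaw q := isLaw_cond hp hA
  obtain ⟨ζ, hζ⟩ := exists_best q c g r
  have h1 := hs.cond_lt hA hn ζ
  rw [← hq', ← sum_mas hq] at h1
  rw [Pe_eq]
  have h2 : Real.exp (-(κ / 2)) * ∑ ω, (if ∃ s, Real.exp (-(κ / 2)) * law q g (g ω) <
      mas q c g r (g ω) s then q ω else 0) ≤
      ∑ w, q w / law q g (g w) * mas q c g r (g w) (ζ (g w)) := by
    rw [Finset.mul_sum]
    refine Finset.sum_le_sum fun ω _ => ?_
    by_cases h0 : q ω = 0
    · simp [h0]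
    have hω : 0 < q ω := lt_of_le_of_ne (hq.nonneg ω) (Ne.symm h0)
    have hl := law_pos hq.nonneg g hω
    have hm : 0 ≤ mas q c g r (g ω) (ζ (g ω)) := Pe_nonneg hq _
    split_ifs with h
    · obtain ⟨s, hs'⟩ := h
      have h3 := hs'.le.trans (hζ (g ω) s)
      rw [div_mul_eq_mul_div, le_div_iff₀ hl]
      nlinarith
    · rw [mul_zero]
      exact mul_nonneg (div_nonneg hω.le hl.le) hm
  have h3 : Real.exp (-κ) = Real.exp (-(κ / 2)) * Real.exp (-(κ / 2)) := by
    rw [← Real.exp_add]; congr 1; ring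
  have h4 := (h2.trans h1.le).trans_eq h3
  exact le_of_mul_le_mul_left h4 (Real.exp_pos _)

end Pool.K2S
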