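import Pool.Agent.H9.K2.Defs2

/-!
# Stabilisation of hereditary properties

Events are predicates, `law p A True` is the probability of `A`. A property of events is
hereditary if it passes to smaller events. After one restriction (to an event of probability at
least `exp (-(κ 0 + ... + κ (n - 1)))`) every property of a finite list holds on the event or
fails on every smaller event of relative probability at least `exp (-κ n)`.
-/

set_option autoImplicit false

namespace Pool.K2S

open Finset Real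
open Pool.Agent.H49.Ent Pool.Agent.H32.Dense Pool.STK Pool.KA

variable {Ω S S' T : Type} [Fintype Ω]

/-- The probability of an event. -/
noncomputable abbrev Pe (p : Ω → ℝ) (A : Ω → Prop) : ℝ := law p A True

/-- The event `B` is contained in `A`. -/
def Sub (B A : Ω → Prop) : Prop := ∀ ω, B ω → A ω

omit [Fintype Ω] in
theorem Sub.trans {A B C : Ω → Prop} (h : Sub A B) (h' : Sub B C) : Sub A C :=
  fun ω hω => h' ω (h ω hω)

open Classical in
theorem Pe_eq (p : Ω → ℝ) (A : Ω → Prop) : Pe p A = ∑ ω, if A ω then p ω else 0 := by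
  unfold Pe law
  refine Finset.sum_congr rfl fun ω _ => ?_
  by_cases h : A ω <;> simp [h]

theorem Pe_nonneg {p : Ω → ℝ} (hp : IsLaw p) (A : Ω → Prop) : 0 ≤ Pe p A :=
  law_nonneg hp.nonneg A True

theorem Pe_mono {p : Ω → ℝ} (hp : IsLaw p) {A B : Ω → Prop} (h : Sub B A) : Pe p B ≤ Pe p A := by
  classical
  rw [Pe_eq, Pe_eq]
  refine Finset.sum_le_sum fun ω _ => ?_
  by_cases hB : B ω
  · simp [hB, h ω hB]
  · by_cases hA : A ω
    · simp [hB, hA, hp.nonneg ω]
    · simp [hB, hA]

theorem Pe_univ {p : Ω → ℝ} (hp : IsLaw p) : Pe p (fun _ => True) = 1 := by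
  classical
  rw [Pe_eq]
  simpa using hp.sum_one

/-- A property of events which is inherited by smaller events. -/
def Hered (Q : (Ω → Prop) → Prop) : Prop := ∀ A B : Ω → Prop, Sub B A → Q A → Q B

/-- The property holds on `A`, or it fails on every smaller event of relative probability at least
`exp (-κ)`. -/
def Stb (p : Ω → ℝ) (κ : ℝ) (A : Ω → Prop) (Q : (Ω → Prop) → Prop) : Prop :=
  Q A ∨ ∀ B : Ω → Prop, Sub B A → Real.exp (-κ) * Pe p A ≤ Pe p B → ¬ Q B

/-- **Stabilisation theorem.** -/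
theorem stab_props {p : Ω → ℝ} (hp : IsLaw p) {M : ℕ} (Q : Fin M → (Ω → Prop) → Prop)
    (hQ : ∀ i, Hered (Q i)) (κ : ℕ → ℝ) :
    ∃ n ≤ M, ∃ A : Ω → Prop, Real.exp (-(∑ i ∈ range n, κ i)) ≤ Pe p A ∧
      ∀ i, Stb p (κ n) A (Q i) := by
  classical
  by_contra hcon
  push Not at hcon
  have key : ∀ n ≤ M + 1, ∃ A : Ω → Prop, Real.exp (-(∑ i ∈ range n, κ i)) ≤ Pe p A ∧
      (univ.filter fun i => ¬ Q i A).card + n ≤ M := by
    intro n
    induction n with
    | zero =>
      intro _
      refine ⟨fun _ => True, ?_, ?_⟩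
      · rw [Pe_univ hp]; simp
      · have := Finset.card_filter_le (univ : Finset (Fin M)) (fun i => ¬ Q i fun _ => True)
        simpa using this
    | succ n ih =>
      intro hn
      obtain ⟨A, hA, hc⟩ := ih (by omega)
      obtain ⟨i, hi⟩ := hcon n (by omega) A hA
      unfold Stb at hi
      push Not at hi
      obtain ⟨h1, B, hB, hPB, hQB⟩ := hi
      refine ⟨B, ?_, ?_⟩
      · rw [Finset.sum_range_succ, neg_add, Real.exp_add]
        calc Real.exp (-(∑ i ∈ range n, κ i)) * Real.exp (-κ n)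
            = Real.exp (-κ n) * Real.exp (-(∑ i ∈ range n, κ i)) := mul_comm _ _
          _ ≤ Real.exp (-κ n) * Pe p A := mul_le_mul_of_nonneg_left hA (Real.exp_pos _).le
          _ ≤ _ := hPB
      · have hlt : (univ.filter fun i => ¬ Q i B).card < (univ.filter fun i => ¬ Q i A).card := by
          refine Finset.card_lt_card ?_
          rw [Finset.ssubset_iff_of_subset]
          · exact ⟨i, by simpa using h1, by simpa using hQB⟩
          · intro j hj
            rw [Finset.mem_filter] at hj ⊢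
            exact ⟨hj.1, fun h => hj.2 (hQ j A B hB h)⟩
        omega
  obtain ⟨A, -, h⟩ := key (M + 1) le_rfl
  omega

/-- Smaller freedom. -/
theorem Stb.mono {p : Ω → ℝ} (hp : IsLaw p) {κ κ' : ℝ} (h : κ' ≤ κ) {A : Ω → Prop}
    {Q : (Ω → Prop) → Prop} (hs : Stb p κ A Q) : Stb p κ' A Q := by
  refine hs.imp id fun hs B hB hP => hs B hB (le_trans ?_ hP)
  exact mul_le_mul_of_nonneg_right (Real.exp_le_exp.2 (by linarith)) (Pe_nonneg hp A)

/-- Passing to a smaller event costs freedom only. -/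
theorem Stb.sub {p : Ω → ℝ} {κ a : ℝ} {A A' : Ω → Prop} {Q : (Ω → Prop) → Prop}
    (hQ : Hered Q) (hs : Stb p κ A Q) (hA : Sub A' A) (hP : Real.exp (-a) * Pe p A ≤ Pe p A') :
    Stb p (κ - a) A' Q := by
  rcases hs with hs | hs
  · exact Or.inl (hQ A A' hA hs)
  · refine Or.inr fun B hB hPB => hs B (hB.trans hA) (le_trans ?_ hPB)
    calc Real.exp (-κ) * Pe p A = Real.exp (-(κ - a)) * (Real.exp (-a) * Pe p A) := by
          rw [← mul_assoc, ← Real.exp_add]; congr 2; ring
      _ ≤ _ := mul_le_mul_of_nonneg_left hP (Real.exp_pos _).le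

/-- A property which holds on a large event holds on the stable event. -/
theorem Stb.of_sub {p : Ω → ℝ} {κ : ℝ} {A B : Ω → Prop} {Q : (Ω → Prop) → Prop}
    (hs : Stb p κ A Q) (hB : Sub B A) (hP : Real.exp (-κ) * Pe p A ≤ Pe p B) (h : Q B) : Q A := by
  rcases hs with hs | hs
  · exact hs
  · exact absurd h (hs B hB hP)

/-! ### Functions up to a relation -/

/-- On `A`, `c` is related to a function of `g`. -/
def Fn (c : Ω → S') (g : Ω → T) (r : S' → S → Prop) (A : Ω → Prop) : Prop :=
  ∃ ζ : T → S, ∀ ω, A ω → r (c ω) (ζ (g ω))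

omit [Fintype Ω] in
theorem Fn.hered (c : Ω → S') (g : Ω → T) (r : S' → S → Prop) : Hered (Fn c g r) :=
  fun _ _ h ⟨ζ, hζ⟩ => ⟨ζ, fun ω hω => hζ ω (h ω hω)⟩

/-- (2.3.1) (i) -/
theorem Stb.lt_of_not {p : Ω → ℝ} {κ : ℝ} {A : Ω → Prop} {c : Ω → S'} {g : Ω → T}
    {r : S' → S → Prop} (hs : Stb p κ A (Fn c g r)) (hn : ¬ Fn c g r A) (ζ : T → S) :
    Pe p (fun ω => A ω ∧ r (c ω) (ζ (g ω))) < Real.exp (-κ) * Pe p A := by
  by_contra h
  push Not at h
  rcases hs with hs | hs
  · exact hn hs
  · exact hs _ (fun ω hω => hω.1) h ⟨ζ, fun ω hω => hω.2⟩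

end Pool.K2S
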