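import Pool.Agent.H35.K2S.WS
import Pool.Agent.H13.K2S.OcFam
import Pool.Agent.H45.K2.PLS
import Pool.Agent.H13.K2S.Cht

/-!
# The rows of the base position in a context: the statement of the Fam layer
-/

set_option autoImplicit false

namespace Pool.K2S

open Finset Real
open Pool.Agent.H49.Ent Pool.Agent.H32.Dense Pool.STK Pool.KA Pool.KA.Win Pool.KA.TRC Rows FF
  Pool.KSAT

theorem floor_abs {A B : ℝ} (h : |A - B| ≤ 48) : |((⌊A⌋ - ⌊B⌋ : ℤ) : ℝ)| ≤ 49 := by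
  have h1 := Int.floor_le A
  have h2 := Int.lt_floor_add_one A
  have h3 := Int.floor_le B
  have h4 := Int.lt_floor_add_one B
  rw [abs_le] at h ⊢
  push_cast
  constructor <;> linarith [h.1, h.2]

theorem floor_eq_abs {A B : ℝ} (h : ⌊A⌋ = ⌊B⌋) : |A - B| ≤ 1 := by
  have h1 := Int.floor_le A
  have h2 := Int.lt_floor_add_one A
  have h3 := Int.floor_le B
  have h4 := Int.lt_floor_add_one B
  rw [h] at h1 h2
  rw [abs_le]
  constructor <;> linarith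

/-- The position at the start of the window. -/
theorem x1_eq {m J : ℕ} (F : Fam m J) {w : ℕ} (hw : w ≤ J) (ω : F.Ω) (k : Fin m) :
    F.x1 w ω k = F.x ω k -
      ((F.T ω % 2 ^ (J - w) : ℕ) : ℝ) / 2 ^ (J - w) * (2 ^ w)⁻¹ * F.d ω k := by
  have h0 : F.x ω k = F.x1 w ω k +
      ((F.T ω % 2 ^ (J - w) : ℕ) : ℝ) / 2 ^ (J - w) * (2 ^ w)⁻¹ * F.d ω k := by
    change F.u ω k + F.t ω * F.d ω k = _
    have h1 := time_split J w (F.T ω) hw
    have h2 : F.t ω = (F.T ω : ℝ) / 2 ^ J := rfl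
    rw [h2, h1]
    unfold Fam.x1 Fam.T1
    ring
  rw [h0]
  ring

/-- **Visibility of the context** from the exact point and the first digits of the velocity. -/
theorem qlb_vis {m J : ℕ} (F : Fam m J) {i₀ : Fin m} {w q l H : ℕ} (hH : q + l ≤ H)
    (hJ : q + w + l ≤ J) {f n : (Fin m → ℤ) × (ℕ × F.ζ) → Fin m → ℝ} {z : F.Ω → Fin m → ℝ}
    (hf : ∀ ω, 0 < F.p ω → ∀ j, |F.d ω j - f (Fam.pt F ω) j * F.d ω i₀ - n (Fam.pt F ω) j| ≤
      1 / 2 ^ H) (hfb : ∀ ω, 0 < F.p ω → ∀ j, |f (Fam.pt F ω) j| ≤ 2)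
    (hg : ∀ ω j, ∃ k : ℤ, z ω j = k / 2 ^ l) (hz0 : ∀ ω, z ω i₀ = 0)
    (hcl : ∀ ω, 0 < F.p ω → ∀ j, j ≠ i₀ → |f (Fam.pt F ω) j - z ω j| ≤ 2 / 2 ^ l) :
    CH F.p (F.qlb w q l i₀ z) (ptq F i₀ q) ≤ 3 * cc m := by
  have hp := F.isLaw.nonneg
  have hw : w ≤ J := by omega
  have pl : (0 : ℝ) < 2 ^ l := by positivity
  have pq' : (0 : ℝ) < 2 ^ q := by positivity
  have pH : (0 : ℝ) < 2 ^ H := by positivity
  have pw : (0 : ℝ) < 2 ^ w := by positivity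
  -- the frame
  have c1 : CH F.p z (ptq F i₀ q) ≤ cc m := by
    have a1 : CH F.p z (ptq F i₀ q) ≤
        CH F.p (fun ω (j : Fin m) => ⌊(2 : ℝ) ^ l * z ω j⌋) (ptq F i₀ q) := by
      refine CH_mono_left hp fun ω ω' _ _ e => ?_
      have e1 := (Prod.ext_iff.mp e).1
      funext j
      have e2 : ⌊(2 : ℝ) ^ l * z ω j⌋ = ⌊(2 : ℝ) ^ l * z ω' j⌋ := congrFun e1 j
      obtain ⟨k, hk⟩ := hg ω j
      obtain ⟨k', hk'⟩ := hg ω' j
      have g1 : (2 : ℝ) ^ l * z ω j = k := by rw [hk]; field_simp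
      have g2 : (2 : ℝ) ^ l * z ω' j = k' := by rw [hk']; field_simp
      rw [g1, g2, Int.floor_intCast, Int.floor_intCast] at e2
      rw [hk, hk', e2]
    have a2 := CH_le_round F.isLaw (fun ω (j : Fin m) => ⌊(2 : ℝ) ^ l * z ω j⌋)
      (fun _ _ => (0 : ℤ)) (ptq F i₀ q) (by
        intro ω ω' h h' e1 _ k
        refine floor_abs ?_
        by_cases hk : k = i₀
        · rw [hk, hz0, hz0]
          norm_num
        · have e3 : Fam.pt F ω = Fam.pt F ω' := (Prod.ext_iff.mp e1).1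
          have g1 := hcl ω h k hk
          have g2 := hcl ω' h' k hk
          rw [e3] at g1
          have g3 : |z ω k - z ω' k| ≤ 4 / 2 ^ l := by
            have : z ω k - z ω' k = (f (Fam.pt F ω') k - z ω' k) -
              (f (Fam.pt F ω') k - z ω k) := by ring
            rw [this]
            refine (abs_sub _ _).trans ?_
            have e4 : (4 : ℝ) / 2 ^ l = 2 / 2 ^ l + 2 / 2 ^ l := by ring
            rw [e4]
            exact add_le_add g2 g1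
          have e5 : (2 : ℝ) ^ l * z ω k - 2 ^ l * z ω' k = 2 ^ l * (z ω k - z ω' k) := by ring
          rw [e5, abs_mul, abs_of_pos pl]
          rw [le_div_iff₀ pl] at g3
          linarith)
    have a3 : CH F.p (fun (_ : F.Ω) (_ : Fin m) => (0 : ℤ)) (ptq F i₀ q) = 0 :=
      CH_eq_zero hp fun _ _ _ _ _ => rfl
    linarith
  -- common estimates for two samples
  have two : ∀ ω ω', 0 < F.p ω → 0 < F.p ω' → (z ω, ptq F i₀ q ω) = (z ω', ptq F i₀ q ω') →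
      z ω = z ω' ∧ F.T ω = F.T ω' ∧ F.Z ω = F.Z ω' ∧
      (∀ k, (2 : ℝ) ^ J * |F.x ω k - F.x ω' k| ≤ 1) ∧
      2 ^ q * |F.d ω i₀ - F.d ω' i₀| ≤ 1 ∧
      (∀ k, k ≠ i₀ → 2 ^ (q + l) * |(F.d ω k - z ω' k * F.d ω i₀) -
        (F.d ω' k - z ω' k * F.d ω' i₀)| ≤ 4) ∧ (∀ k, |z ω' k| ≤ 4) := by
    intro ω ω' h h' e
    have e1 := Prod.ext_iff.mp e
    have hzz : z ω = z ω' := e1.1
    have e2 := Prod.ext_iff.mp e1.2
    have hpt : Fam.pt F ω = Fam.pt F ω' := e2.1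
    have hb : ⌊(2 : ℝ) ^ q * F.d ω i₀⌋ = ⌊(2 : ℝ) ^ q * F.d ω' i₀⌋ := e2.2
    have e4 : F.X J ω = F.X J ω' ∧ F.W ω = F.W ω' := Prod.ext_iff.mp hpt
    have e5 := Prod.ext_iff.mp e4.2
    have hd : 2 ^ q * |F.d ω i₀ - F.d ω' i₀| ≤ 1 := by
      have := floor_eq_abs hb
      rw [← mul_sub, abs_mul, abs_of_pos pq'] at this
      exact this
    refine ⟨hzz, e5.1, e5.2, fun k => ?_, hd, fun k hk => ?_, fun k => ?_⟩
    · have : ⌊(2 : ℝ) ^ J * F.x ω k⌋ = ⌊(2 : ℝ) ^ J * F.x ω' k⌋ := congrFun e4.1 k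
      have := floor_eq_abs this
      rw [← mul_sub, abs_mul, abs_of_pos (by positivity)] at this
      exact this
    · have g1 := hf ω h k
      have g2 := hf ω' h' k
      have g3 := hcl ω' h' k hk
      rw [hpt] at g1
      obtain ⟨φ, hφ⟩ : ∃ φ, φ = f (Fam.pt F ω') k := ⟨_, rfl⟩
      obtain ⟨ν, hν⟩ : ∃ ν, ν = n (Fam.pt F ω') k := ⟨_, rfl⟩
      rw [← hφ, ← hν] at g1 g2
      rw [← hφ] at g3
      have e6 : (F.d ω k - z ω' k * F.d ω i₀) - (F.d ω' k - z ω' k * F.d ω' i₀) =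
          (F.d ω k - φ * F.d ω i₀ - ν) - (F.d ω' k - φ * F.d ω' i₀ - ν) +
            (φ - z ω' k) * (F.d ω i₀ - F.d ω' i₀) := by ring
      have e7 : |(F.d ω k - z ω' k * F.d ω i₀) - (F.d ω' k - z ω' k * F.d ω' i₀)| ≤
          1 / 2 ^ H + 1 / 2 ^ H + 2 / 2 ^ l * |F.d ω i₀ - F.d ω' i₀| := by
        rw [e6]
        refine (abs_add_le _ _).trans (add_le_add ((abs_sub _ _).trans (add_le_add g1 g2)) ?_)
        rw [abs_mul]
        exact mul_le_mul_of_nonneg_right g3 (abs_nonneg _)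
      have e8 : (2 : ℝ) ^ (q + l) * (1 / 2 ^ H) ≤ 1 := by
        rw [mul_one_div, div_le_one pH]
        exact pow_le_pow_right₀ (by norm_num) hH
      have e9 : (2 : ℝ) ^ (q + l) * (2 / 2 ^ l * |F.d ω i₀ - F.d ω' i₀|) =
          2 * (2 ^ q * |F.d ω i₀ - F.d ω' i₀|) := by
        rw [pow_add]
        field_simp
      calc (2 : ℝ) ^ (q + l) * |(F.d ω k - z ω' k * F.d ω i₀) -
            (F.d ω' k - z ω' k * F.d ω' i₀)| ≤ (2 : ℝ) ^ (q + l) *
            (1 / 2 ^ H + 1 / 2 ^ H + 2 / 2 ^ l * |F.d ω i₀ - F.d ω' i₀|) :=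
            mul_le_mul_of_nonneg_left e7 (by positivity)
        _ = (2 : ℝ) ^ (q + l) * (1 / 2 ^ H) + (2 : ℝ) ^ (q + l) * (1 / 2 ^ H) +
            (2 : ℝ) ^ (q + l) * (2 / 2 ^ l * |F.d ω i₀ - F.d ω' i₀|) := by ring
        _ ≤ 4 := by rw [e9]; linarith
    · by_cases hk : k = i₀
      · rw [hk, hz0]
        norm_num
      · have g3 := hcl ω' h' k hk
        have g4 := hfb ω' h' k
        have g5 : (2 : ℝ) / 2 ^ l ≤ 2 := by
          rw [div_le_iff₀ pl]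
          have : (1 : ℝ) ≤ 2 ^ l := one_le_pow₀ (by norm_num)
          linarith
        have e6 : z ω' k = f (Fam.pt F ω') k - (f (Fam.pt F ω') k - z ω' k) := by ring
        rw [e6]
        refine (abs_sub _ _).trans ?_
        linarith
  -- the velocity
  have c2 : CH F.p (fun ω => fl q (pco l i₀ (z ω) (F.d ω))) (fun ω => (z ω, ptq F i₀ q ω)) ≤
      cc m := by
    have a2 := CH_le_round F.isLaw (fun ω => fl q (pco l i₀ (z ω) (F.d ω)))
      (fun _ _ => (0 : ℤ)) (fun ω => (z ω, ptq F i₀ q ω)) (by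
        intro ω ω' h h' e1 _ k
        obtain ⟨hzz, -, -, -, hd, hn, -⟩ := two ω ω' h h' e1
        refine floor_abs ?_
        rw [hzz]
        by_cases hk : k = i₀
        · subst hk
          unfold pco
          beta_reduce
          rw [if_pos rfl, if_pos rfl, ← mul_sub, abs_mul, abs_of_pos pq']
          linarith
        · have g1 := hn k hk
          unfold pco
          beta_reduce
          rw [if_neg hk, if_neg hk]
          have e6 : (2 : ℝ) ^ q * (2 ^ l * (F.d ω k - z ω' k * F.d ω i₀)) -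
              2 ^ q * (2 ^ l * (F.d ω' k - z ω' k * F.d ω' i₀)) =
              2 ^ (q + l) * ((F.d ω k - z ω' k * F.d ω i₀) -
                (F.d ω' k - z ω' k * F.d ω' i₀)) := by
            rw [pow_add]
            ring
          rw [e6, abs_mul, abs_of_pos (by positivity)]
          linarith)
    have a3 : CH F.p (fun (_ : F.Ω) (_ : Fin m) => (0 : ℤ)) (fun ω => (z ω, ptq F i₀ q ω)) = 0 :=
      CH_eq_zero hp fun _ _ _ _ _ => rfl
    linarith
  -- the position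
  have c3 : CH F.p (fun ω => fl (q + w) (pco l i₀ (z ω) (F.x1 w ω)))
      (fun ω => (z ω, ptq F i₀ q ω)) ≤ cc m := by
    have a2 := CH_le_round F.isLaw (fun ω => fl (q + w) (pco l i₀ (z ω) (F.x1 w ω)))
      (fun _ _ => (0 : ℤ)) (fun ω => (z ω, ptq F i₀ q ω)) (by
        intro ω ω' h h' e1 _ k
        obtain ⟨hzz, hT, -, hx, hd, hn, hz4⟩ := two ω ω' h h' e1
        refine floor_abs ?_
        rw [hzz]
        obtain ⟨τ, hτ⟩ : ∃ τ : ℝ, τ = ((F.T ω' % 2 ^ (J - w) : ℕ) : ℝ) / 2 ^ (J - w) := ⟨_, rfl⟩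
        have hτ0 : 0 ≤ τ := by rw [hτ]; positivity
        have hτ1 : τ ≤ 1 := by
          rw [hτ, div_le_one (by positivity)]
          exact_mod_cast (Nat.mod_lt _ (by positivity)).le
        have k1 : ∀ k, F.x1 w ω k = F.x ω k - τ * (2 ^ w)⁻¹ * F.d ω k := by
          intro k
          rw [x1_eq F hw, hT, ← hτ]
        have k2 : ∀ k, F.x1 w ω' k = F.x ω' k - τ * (2 ^ w)⁻¹ * F.d ω' k := by
          intro k
          rw [x1_eq F hw, ← hτ]
        have pJ : (2 : ℝ) ^ (q + w + l) ≤ 2 ^ J := pow_le_pow_right₀ (by norm_num) hJ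
        have pJ' : (2 : ℝ) ^ (q + w) ≤ 2 ^ J := pow_le_pow_right₀ (by norm_num) (by omega)
        by_cases hk : k = i₀
        · subst hk
          unfold pco
          beta_reduce
          rw [if_pos rfl, if_pos rfl, k1, k2]
          have e6 : (2 : ℝ) ^ (q + w) * (F.x ω k - τ * (2 ^ w)⁻¹ * F.d ω k) -
              2 ^ (q + w) * (F.x ω' k - τ * (2 ^ w)⁻¹ * F.d ω' k) =
              2 ^ (q + w) * (F.x ω k - F.x ω' k) - τ * (2 ^ q * (F.d ω k - F.d ω' k)) := by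
            rw [pow_add]
            field_simp
            ring
          rw [e6]
          refine (abs_sub _ _).trans ?_
          have g1 : |(2 : ℝ) ^ (q + w) * (F.x ω k - F.x ω' k)| ≤ 1 := by
            rw [abs_mul, abs_of_pos (by positivity)]
            exact (mul_le_mul_of_nonneg_right pJ' (abs_nonneg _)).trans (hx k)
          have g2 : |τ * (2 ^ q * (F.d ω k - F.d ω' k))| ≤ 1 := by
            rw [abs_mul, abs_mul, abs_of_pos pq', abs_of_nonneg hτ0]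
            calc τ * (2 ^ q * |F.d ω k - F.d ω' k|) ≤ 1 * 1 :=
                  mul_le_mul hτ1 hd (by positivity) (by norm_num)
              _ = 1 := by norm_num
          linarith
        · have g1 := hn k hk
          unfold pco
          beta_reduce
          rw [if_neg hk, if_neg hk, k1, k2, k1, k2]
          have e6 : (2 : ℝ) ^ (q + w) * (2 ^ l * (F.x ω k - τ * (2 ^ w)⁻¹ * F.d ω k -
                z ω' k * (F.x ω i₀ - τ * (2 ^ w)⁻¹ * F.d ω i₀))) -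
              2 ^ (q + w) * (2 ^ l * (F.x ω' k - τ * (2 ^ w)⁻¹ * F.d ω' k -
                z ω' k * (F.x ω' i₀ - τ * (2 ^ w)⁻¹ * F.d ω' i₀))) =
              (2 ^ (q + w + l) * (F.x ω k - F.x ω' k) -
                z ω' k * (2 ^ (q + w + l) * (F.x ω i₀ - F.x ω' i₀))) -
              τ * (2 ^ (q + l) * ((F.d ω k - z ω' k * F.d ω i₀) -
                (F.d ω' k - z ω' k * F.d ω' i₀))) := by
            rw [pow_add, pow_add, pow_add]
            field_simp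
            ring
          rw [e6]
          refine (abs_sub _ _).trans ?_
          have g2 : |τ * (2 ^ (q + l) * ((F.d ω k - z ω' k * F.d ω i₀) -
                (F.d ω' k - z ω' k * F.d ω' i₀)))| ≤ 4 := by
            rw [abs_mul, abs_mul, abs_of_pos (show (0 : ℝ) < 2 ^ (q + l) by positivity),
              abs_of_nonneg hτ0]
            calc τ * (2 ^ (q + l) * |(F.d ω k - z ω' k * F.d ω i₀) -
                (F.d ω' k - z ω' k * F.d ω' i₀)|) ≤ 1 * 4 :=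
                  mul_le_mul hτ1 g1 (by positivity) (by norm_num)
              _ = 4 := by norm_num
          have g3 : ∀ k, |(2 : ℝ) ^ (q + w + l) * (F.x ω k - F.x ω' k)| ≤ 1 := by
            intro k
            rw [abs_mul, abs_of_pos (by positivity)]
            exact (mul_le_mul_of_nonneg_right pJ (abs_nonneg _)).trans (hx k)
          have g4 : |2 ^ (q + w + l) * (F.x ω k - F.x ω' k) -
                z ω' k * (2 ^ (q + w + l) * (F.x ω i₀ - F.x ω' i₀))| ≤ 1 + 4 * 1 := by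
            refine (abs_sub _ _).trans (add_le_add (g3 k) ?_)
            rw [abs_mul]
            exact mul_le_mul (hz4 k) (g3 i₀) (abs_nonneg _) (by norm_num)
          linarith)
    have a3 : CH F.p (fun (_ : F.Ω) (_ : Fin m) => (0 : ℤ)) (fun ω => (z ω, ptq F i₀ q ω)) = 0 :=
      CH_eq_zero hp fun _ _ _ _ _ => rfl
    linarith
  have d1 := CH_le_add hp (F.qlb w q l i₀ z) z (ptq F i₀ q)
  have d2 : CH F.p (F.qlb w q l i₀ z) (fun ω => (z ω, ptq F i₀ q ω)) ≤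
      CH F.p (fun ω => (fl (q + w) (pco l i₀ (z ω) (F.x1 w ω)),
        fl q (pco l i₀ (z ω) (F.d ω)))) (fun ω => (z ω, ptq F i₀ q ω)) := by
    refine CH_mono_left hp fun ω ω' h h' e => ?_
    have e1 := Prod.ext_iff.mp e
    obtain ⟨hzz, hT, hZ, -⟩ := two ω ω' h h' e1.2
    have e2 := Prod.ext_iff.mp e1.1
    exact Prod.ext (Prod.ext (Prod.ext (det_T F w hT).1 hzz) (Prod.ext e2.1 e2.2)) hZ
  have d3 := CH_subadd hp (fun ω => fl (q + w) (pco l i₀ (z ω) (F.x1 w ω)))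
    (fun ω => fl q (pco l i₀ (z ω) (F.d ω))) (fun ω => (z ω, ptq F i₀ q ω))
  linarith

/-- **(WS), general form.** The rows of the base position are full in the contexts `(w, q)`;
`x J` is the number of bits after `q` which are not frozen. -/
theorem ws_bits {a η : ℝ} (ha : 1 ≤ a) (hη : 0 < η) : ∃ γ : ℝ, 0 < γ ∧ ∀ (R : ℝ) (N : ℕ),
    0 < N → ∀ x : ℕ → ℕ, (∀ J : ℕ, (x J : ℝ) ≤ γ * J) → ∀ (i₀ : Fin 2) (w q l : ℕ),
    q + w + l ≤ N →
    Cl (m := 2) a R 1 (fun J F A => ¬ Frz F i₀ (q * (J / N)) (q * (J / N) + x J) A →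
      ∀ (f n : (Fin 2 → ℤ) × (ℕ × F.ζ) → Fin 2 → ℝ) (z : F.Ω → Fin 2 → ℝ) (H : ℕ),
      (q + l) * (J / N) ≤ H → Frm F i₀ A H f n → Win F i₀ A f (w * (J / N)) (l * (J / N)) z →
      ∀ P : ℕ, (q + w) * (J / N) ≤ P → P ≤ J →
        ((P : ℝ) - ((q + w) * (J / N) : ℕ)) * Real.log 2 - η * J ≤
          CH (Pool.Agent.H49.Ent.cond F.p A True) (fun ω => ⌊(2 : ℝ) ^ P * F.x ω i₀⌋)
            (fun ω => (F.qlb (w * (J / N)) (q * (J / N)) (l * (J / N)) i₀ z ω, F.T ω))) := by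
  obtain ⟨γ, hγ, hfull⟩ := ws_full (m := 2) ha hη
  refine ⟨γ, hγ, fun R N hN x hx i₀ w q l hqwl => ?_⟩
  refine ⟨⟨1, fun J F _ => FrzG F i₀ (q * (J / N)) (q * (J / N) + x J),
    fun J F _ => FrzG.hered F i₀ _ _⟩, fun κ hκ => ?_⟩
  obtain ⟨τ, hτ, J₁, h1⟩ := hfull R (3 * cc 2) κ hκ
  refine ⟨τ, hτ, J₁, fun J hJ F A hS hSb hnF f n z H hH hFrm hWin P hP hPJ => ?_⟩
  have hp := F.isLaw
  obtain ⟨u, hu⟩ : ∃ u, u = J / N := ⟨_, rfl⟩
  rw [← hu] at hnF hH hWin hP ⊢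
  have hu1 : N * u ≤ J := by rw [hu]; exact Nat.mul_div_le J N
  have hqwlu : (q + w + l) * u ≤ J := (Nat.mul_le_mul_right u hqwl).trans hu1
  have e1 : (q + w) * u = q * u + w * u := by ring
  have e3 : (q + l) * u = q * u + l * u := by ring
  have e4 : (q + w + l) * u = q * u + w * u + l * u := by ring
  rw [e4] at hqwlu
  rw [e3] at hH
  rw [e1] at hP ⊢
  obtain ⟨s, hs⟩ := Nat.exists_eq_add_of_le hP
  have hnF' : ¬ FrzG F i₀ (q * u) (q * u + x J) A := hnF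
  have hFs : Stb F.p (κ * J) A (FrzG F i₀ (q * u) (q * u + x J)) := by
    rw [hu]
    exact hSb 0
  have hdet : Det F.p (wnd F (w * u)) (F.qlb (w * u) (q * u) (l * u) i₀ z) := by
    intro ω ω' _ _ h
    have a1 := Prod.ext_iff.mp h
    have a2 := Prod.ext_iff.mp a1.2
    have hl : F.l ω = F.l ω' := a1.1
    have hT1 : F.T1 (w * u) ω = F.T1 (w * u) ω' := a2.1
    have hZ : F.Z ω = F.Z ω' := a2.2
    have hlu : F.u ω = F.u ω' := (Prod.ext_iff.mp hl).1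
    have hld : F.d ω = F.d ω' := (Prod.ext_iff.mp hl).2
    obtain ⟨gz, hgz⟩ := hWin.fn
    have hz : z ω = z ω' := by
      rw [hgz, hgz]
      have : slam F (w * u) ω = slam F (w * u) ω' := by
        unfold slam
        rw [hl, hT1, hZ]
      rw [this]
    have hx := x1_det F (w * u) hlu hld hT1
    change (((F.T1 (w * u) ω, z ω), (fl (q * u + w * u) (pco (l * u) i₀ (z ω) (F.x1 (w * u) ω)),
      fl (q * u) (pco (l * u) i₀ (z ω) (F.d ω)))), F.Z ω) = (((F.T1 (w * u) ω', z ω'),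
      (fl (q * u + w * u) (pco (l * u) i₀ (z ω') (F.x1 (w * u) ω')),
      fl (q * u) (pco (l * u) i₀ (z ω') (F.d ω')))), F.Z ω')
    rw [hT1, hz, hx, hld, hZ]
  have key := h1 J hJ F A hS i₀ (w * u) (q * u) s (x J) _
    (F.qlb (w * u) (q * u) (l * u) i₀ z) (by omega) (hx J) hFs hnF' hdet (by
      intro B hBA hB0
      have hlB := isLaw_cond hp hB0
      have hpos : ∀ ω, 0 < (F.res B True hlB).p ω → A ω := by
        intro ω hω
        have hω' : 0 < cond F.p B True ω := hω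
        have := ((cond_pos_iff hp.nonneg B True ω).1 hω').2
        exact hBA ω (by simpa using this)
      exact qlb_vis (F.res B True hlB) (i₀ := i₀) (w := w * u) (q := q * u) (l := l * u)
        (H := H) (by omega) (by omega) (f := f) (n := n) (z := z)
        (fun ω hω => hFrm.on ω (hpos ω hω)) (fun ω hω => hFrm.bd ω (hpos ω hω)) hWin.gr hWin.z0
        (fun ω hω => hWin.cl ω (hpos ω hω)))
  have hPs : (P : ℝ) - ((q * u + w * u : ℕ) : ℝ) = s := by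
    rw [hs]
    push_cast
    ring
  rw [hPs, hs]
  refine key.trans (CH_mono_cond (cond_nonneg hp.nonneg A True) ?_)
  intro ω ω' _ _ h
  have a1 := Prod.ext_iff.mp h
  have a2 := Prod.ext_iff.mp a1.2
  have a3 := Prod.ext_iff.mp a2.2
  exact Prod.ext a3.1 a1.1

/-- **(WS)** with the number of bits `⌊γ J⌋`. -/
theorem ws_floor {a η : ℝ} (ha : 1 ≤ a) (hη : 0 < η) : ∃ γ : ℝ, 0 < γ ∧ ∀ (R : ℝ) (N : ℕ),
    0 < N → ∀ (i₀ : Fin 2) (w q l : ℕ), q + w + l ≤ N →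
    Cl (m := 2) a R 1 (fun J F A => ¬ Frz F i₀ (q * (J / N)) (q * (J / N) + ⌊γ * J⌋₊) A →
      ∀ (f n : (Fin 2 → ℤ) × (ℕ × F.ζ) → Fin 2 → ℝ) (z : F.Ω → Fin 2 → ℝ) (H : ℕ),
      (q + l) * (J / N) ≤ H → Frm F i₀ A H f n → Win F i₀ A f (w * (J / N)) (l * (J / N)) z →
      ∀ P : ℕ, (q + w) * (J / N) ≤ P → P ≤ J →
        ((P : ℝ) - ((q + w) * (J / N) : ℕ)) * Real.log 2 - η * J ≤
          CH (Pool.Agent.H49.Ent.cond F.p A True) (fun ω => ⌊(2 : ℝ) ^ P * F.x ω i₀⌋)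
            (fun ω => (F.qlb (w * (J / N)) (q * (J / N)) (l * (J / N)) i₀ z ω, F.T ω))) := by
  obtain ⟨γ, hγ, h⟩ := ws_bits ha hη
  exact ⟨γ, hγ, fun R N hN => h R N hN (fun J => ⌊γ * J⌋₊) fun J => Nat.floor_le (by positivity)⟩

/-- The velocities are not frozen at `q = 0`. -/
theorem not_frz0 (h6 : AP6RStmt) {a R : ℝ} (ha : 1 ≤ a) (hR : 0 < R) (hU : UBa 2 a R)
    {x h₁ : ℝ} (hx : 0 < x) (hh₁ : 0 < h₁) :
    ∃ τ > 0, ∃ J₁ : ℕ, ∀ J ≥ J₁, ∀ (F : Fam 2 J) (A : F.Ω → Prop), Fam.Stt F a R τ A →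
      ∀ (i₀ : Fin 2), Lb F i₀ ⌊h₁ * J⌋₊ A → ∀ q' : ℕ, x * J ≤ q' → ¬ Frz F i₀ 0 q' A := by
  classical
  have hl2 : 0 < Real.log 2 := Real.log_pos one_lt_two
  obtain ⟨y, hy⟩ : ∃ y, y = min (min x h₁) 1 / 4 := ⟨_, rfl⟩
  have hy0 : 0 < y := by rw [hy]; have := lt_min (lt_min hx hh₁) one_pos; linarith
  have hy1 : y ≤ 1 / 4 := by rw [hy]; have := min_le_right (min x h₁) 1; linarith
  have hyx : 4 * y ≤ x := by
    rw [hy]
    have := (min_le_left (min x h₁) 1).trans (min_le_left _ _)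
    linarith
  have hyh : 4 * y ≤ h₁ := by
    rw [hy]
    have := (min_le_left (min x h₁) 1).trans (min_le_right _ _)
    linarith
  obtain ⟨τb, hτb, Jb, hball⟩ := Fam.Stt.not_ball' h6 ha hR hU hy0 hy1
  obtain ⟨J₂, hJ₂⟩ := exists_nat_gt (2 * (2 * Real.log 2) / τb + 8 / y)
  refine ⟨τb / 2, half_pos hτb, max Jb J₂, fun J hJ F A hS i₀ hLb q' hq' hFz => ?_⟩
  have hp := F.isLaw
  have hJr : 2 * (2 * Real.log 2) / τb + 8 / y < J :=
    hJ₂.trans_le (by exact_mod_cast (le_max_right _ _).trans hJ)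
  have q1 : 0 < 2 * (2 * Real.log 2) / τb := by positivity
  have q2 : 0 < 8 / y := by positivity
  have hJ0 : (0 : ℝ) < J := by linarith
  have r1 : 2 * (2 * Real.log 2) ≤ τb * J := by
    have h : 2 * (2 * Real.log 2) / τb < J := by linarith
    rw [div_lt_iff₀ hτb] at h
    linarith
  have r2 : 8 ≤ y * J := by
    have h : 8 / y < J := by linarith
    rw [div_lt_iff₀ hy0] at h
    linarith
  have hA0 : 0 < Pe F.p A := lt_of_lt_of_le (Real.exp_pos _) hS.2.2.2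
  obtain ⟨φ, hφ⟩ := hFz
  obtain ⟨e₀, n₀, hb, hl⟩ := hLb
  -- a value of the first digit
  obtain ⟨b, hbB⟩ : ∃ b : ℤ, Pe F.p A / 4 ≤ Pe F.p (fun ω => A ω ∧ ⌊(2 : ℝ) ^ 0 * F.d ω i₀⌋ = b) := by
    by_contra hcon
    push Not at hcon
    have hcov : Pe F.p A ≤ Pe F.p (fun ω => A ω ∧ ⌊(2 : ℝ) ^ 0 * F.d ω i₀⌋ = -1) +
        (Pe F.p (fun ω => A ω ∧ ⌊(2 : ℝ) ^ 0 * F.d ω i₀⌋ = 0) +
          Pe F.p (fun ω => A ω ∧ ⌊(2 : ℝ) ^ 0 * F.d ω i₀⌋ = 1)) := by
      refine (Pe_or hp (B₀ := fun ω => A ω ∧ ⌊(2 : ℝ) ^ 0 * F.d ω i₀⌋ = -1)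
        (B₁ := fun ω => (A ω ∧ ⌊(2 : ℝ) ^ 0 * F.d ω i₀⌋ = 0) ∨
          (A ω ∧ ⌊(2 : ℝ) ^ 0 * F.d ω i₀⌋ = 1)) ?_).trans (add_le_add le_rfl (Pe_or hp ?_))
      · intro ω hω
        have hd := F.dir ω i₀
        rw [abs_le] at hd
        have h1 : -1 ≤ ⌊(2 : ℝ) ^ 0 * F.d ω i₀⌋ := by
          rw [Int.le_floor]
          push_cast
          linarith [hd.1]
        have h2 : ⌊(2 : ℝ) ^ 0 * F.d ω i₀⌋ < 2 := by
          rw [Int.floor_lt]
          push_cast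
          linarith [hd.2]
        have h3 : ⌊(2 : ℝ) ^ 0 * F.d ω i₀⌋ = -1 ∨ ⌊(2 : ℝ) ^ 0 * F.d ω i₀⌋ = 0 ∨
            ⌊(2 : ℝ) ^ 0 * F.d ω i₀⌋ = 1 := by omega
        tauto
      · intro ω hω
        exact hω
    have h1 := hcon (-1)
    have h2 := hcon 0
    have h3 := hcon 1
    have h4 : Pe F.p A < Pe F.p A / 4 + (Pe F.p A / 4 + Pe F.p A / 4) :=
      hcov.trans_lt (add_lt_add h1 (add_lt_add h2 h3))
    linarith
  obtain ⟨B, hB⟩ : ∃ B : F.Ω → Prop, B = fun ω => A ω ∧ ⌊(2 : ℝ) ^ 0 * F.d ω i₀⌋ = b := ⟨_, rfl⟩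
  rw [← hB] at hbB
  have hBA : Sub B A := by rw [hB]; exact fun ω h => h.1
  have hSB : Fam.Stt F a R τb B := by
    have h0 := hS.mono (τ' := τb) (by linarith)
    refine ⟨h0.1, h0.2.1, h0.2.2.1, le_trans ?_ hbB⟩
    have h1 := hS.2.2.2
    have h2 : Real.exp (-(τb * J)) ≤ Real.exp (-(τb / 2 * J)) / 4 := by
      rw [le_div_iff₀ (by norm_num)]
      have h2 : (4 : ℝ) = Real.exp (2 * Real.log 2) := by
        rw [mul_comm, Real.exp_mul, Real.exp_log (by norm_num)]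
        norm_num
      rw [h2, ← Real.exp_add]
      exact Real.exp_le_exp.2 (by linarith)
    linarith
  refine hball J ((le_max_left _ _).trans hJ) F B hSB
    ⟨fun y j => e₀ y j * φ (y, b) + n₀ y j, fun ω hω j => ?_⟩
  have hωA := hBA ω hω
  have hb' : ⌊(2 : ℝ) ^ 0 * F.d ω i₀⌋ = b := by
    rw [hB] at hω
    exact hω.2
  have g1 := hφ ω hωA
  rw [hb'] at g1
  have g2 := hb ω hωA j
  have g3 := hl ω hωA j
  have e1 : F.d ω j - (e₀ (Fam.pt F ω) j * φ (Fam.pt F ω, b) + n₀ (Fam.pt F ω) j) =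
      (F.d ω j - e₀ (Fam.pt F ω) j * F.d ω i₀ - n₀ (Fam.pt F ω) j) +
        e₀ (Fam.pt F ω) j * (F.d ω i₀ - φ (Fam.pt F ω, b)) := by ring
  have hfl : (⌊y * J⌋₊ : ℝ) ≤ y * J := Nat.floor_le (by positivity)
  have p1 : (1 : ℝ) / 2 ^ q' ≤ 1 / 2 ^ (⌊y * J⌋₊ + 2) := by
    refine one_div_le_one_div_of_le (by positivity) (pow_le_pow_right₀ (by norm_num) ?_)
    have h4 : 4 * y * J ≤ x * J := mul_le_mul_of_nonneg_right hyx hJ0.le
    have : ((⌊y * J⌋₊ + 2 : ℕ) : ℝ) ≤ q' := by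
      push_cast
      linarith
    exact_mod_cast this
  have p2 : (1 : ℝ) / 2 ^ ⌊h₁ * J⌋₊ ≤ 1 / 2 ^ (⌊y * J⌋₊ + 2) := by
    refine one_div_le_one_div_of_le (by positivity) (pow_le_pow_right₀ (by norm_num) ?_)
    refine Nat.le_floor ?_
    have h4 : 4 * y * J ≤ h₁ * J := mul_le_mul_of_nonneg_right hyh hJ0.le
    push_cast
    linarith
  have p3 : (1 : ℝ) / 2 ^ (⌊y * J⌋₊ + 1) = 1 / 2 ^ (⌊y * J⌋₊ + 2) + 1 / 2 ^ (⌊y * J⌋₊ + 2) := by
    rw [pow_succ, pow_succ, pow_succ]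
    field_simp
    norm_num
  rw [e1, p3]
  refine (abs_add_le _ _).trans (add_le_add (g3.trans p2) ?_)
  rw [abs_mul]
  calc |e₀ (Fam.pt F ω) j| * |F.d ω i₀ - φ (Fam.pt F ω, b)| ≤ 1 * (1 / 2 ^ q') :=
        mul_le_mul g2 g1 (abs_nonneg _) (by norm_num)
    _ = 1 / 2 ^ q' := one_mul _
    _ ≤ _ := p1

/-- The velocities are not frozen at `q = 0`, as a claim with `0` levels. -/
theorem not_frz0_cl (h6 : AP6RStmt) {a R : ℝ} (ha : 1 ≤ a) (hR : 0 < R) (hU : UBa 2 a R)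
    {γ h₁ : ℝ} (hγ : 0 < γ) (hh₁ : 0 < h₁) (i₀ : Fin 2) :
    Cl (m := 2) a R 0 (fun J F A => Lb F i₀ ⌊h₁ * J⌋₊ A → ¬ Frz F i₀ 0 ⌊γ * J⌋₊ A) := by
  obtain ⟨τ, hτ, J₁, h⟩ := not_frz0 h6 ha hR hU (half_pos hγ) hh₁
  obtain ⟨J₂, hJ₂⟩ := exists_nat_gt (2 / γ)
  refine ⟨τ, hτ, max J₁ J₂, fun J hJ F A hS hLb => ?_⟩
  refine h J ((le_max_left _ _).trans hJ) F A hS i₀ hLb ⌊γ * J⌋₊ ?_
  have h1 : 2 / γ < J := hJ₂.trans_le (by exact_mod_cast (le_max_right _ _).trans hJ)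
  rw [div_lt_iff₀ hγ] at h1
  have h2 := Nat.lt_floor_add_one (γ * (J : ℝ))
  linarith

end Pool.K2S
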