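import Pool.Agent.H35.K2S.Pq
import Pool.Agent.H45.K2.PLF
import Pool.Agent.H5.K2.CellV

/-!
# The rows of the chart coordinate inside a context

`S` is side information which is a function of the window `w` of the line and which is visible,
up to bounded entropy, from the exact point and the first `q` digits of the velocity. If the
velocity is not frozen at `q`, then, given `S`, the rows `(q + w, q + w + s]` of the chart
coordinate are full.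
-/

set_option autoImplicit false

namespace Pool.K2S

open Finset Real
open Pool.Agent.H49.Ent Pool.Agent.H32.Dense Pool.STK Pool.KA Pool.KA.Win Pool.KA.TRC Rows FF

/-- The exact point and the first `q` digits of the chart coordinate of the velocity. -/
noncomputable def ptq {m J : ℕ} (F : Fam m J) (i₀ : Fin m) (q : ℕ) (ω : F.Ω) :
    ((Fin m → ℤ) × (ℕ × F.ζ)) × ℤ := (Fam.pt F ω, ⌊(2 : ℝ) ^ q * F.d ω i₀⌋)

/-- The velocity is frozen at `q`: given the exact point and the first `q` digits of the chart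
coordinate of the velocity, this coordinate is known up to `2 ^ (-q')`. -/
def FrzG {m J : ℕ} (F : Fam m J) (i₀ : Fin m) (q q' : ℕ) : (F.Ω → Prop) → Prop :=
  Fn (fun ω => F.d ω i₀) (ptq F i₀ q) (fun (D v : ℝ) => |D - v| ≤ 1 / 2 ^ q')

theorem FrzG.hered {m J : ℕ} (F : Fam m J) (i₀ : Fin m) (q q' : ℕ) : Hered (FrzG F i₀ q q') :=
  Fn.hered _ _ _

/-- The base of the cell and the velocity are visible. -/
theorem CH_base {m J : ℕ} (F : Fam m J) (i₀ : Fin m) {w q : ℕ} (hJ : q + w ≤ J) :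
    CH F.p (fun ω => ⌊(2 : ℝ) ^ (q + w) * F.x1 w ω i₀⌋) (ptq F i₀ q) ≤ cc 1 := by
  have hp := F.isLaw.nonneg
  have hw : w ≤ J := by omega
  have h2 := CH_le_round F.isLaw (fun ω (_ : Fin 1) => ⌊(2 : ℝ) ^ (q + w) * F.x1 w ω i₀⌋)
    (fun ω (_ : Fin 1) => ⌊(2 : ℝ) ^ (q + w) * F.x ω i₀⌋) (ptq F i₀ q) (by
      intro ω ω' _ _ e1 e2 k
      have e3 := Prod.ext_iff.mp e1
      have e4 : F.X J ω = F.X J ω' ∧ F.W ω = F.W ω' := Prod.ext_iff.mp e3.1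
      have hT : F.T ω = F.T ω' := (Prod.ext_iff.mp e4.2).1
      have hb : ⌊(2 : ℝ) ^ q * F.d ω i₀⌋ = ⌊(2 : ℝ) ^ q * F.d ω' i₀⌋ := e3.2
      have hx : ⌊(2 : ℝ) ^ (q + w) * F.x ω i₀⌋ = ⌊(2 : ℝ) ^ (q + w) * F.x ω' i₀⌋ :=
        congrFun e2 0
      have key : ∀ ω, (2 : ℝ) ^ (q + w) * F.x1 w ω i₀ = 2 ^ (q + w) * F.x ω i₀ -
          ((F.T ω % 2 ^ (J - w) : ℕ) : ℝ) / 2 ^ (J - w) * (2 ^ q * F.d ω i₀) := by
        intro ω
        have h0 : F.x ω i₀ = F.x1 w ω i₀ +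
            ((F.T ω % 2 ^ (J - w) : ℕ) : ℝ) / 2 ^ (J - w) * (2 ^ w)⁻¹ * F.d ω i₀ := by
          change F.u ω i₀ + F.t ω * F.d ω i₀ = _
          have h1 := time_split J w (F.T ω) hw
          have h2 : F.t ω = (F.T ω : ℝ) / 2 ^ J := rfl
          rw [h2, h1]
          unfold Fam.x1 Fam.T1
          ring
        rw [h0, pow_add]
        have b : (2 : ℝ) ^ w ≠ 0 := by positivity
        field_simp
        ring
      obtain ⟨τ, hτ⟩ : ∃ τ : ℝ, τ = ((F.T ω' % 2 ^ (J - w) : ℕ) : ℝ) / 2 ^ (J - w) := ⟨_, rfl⟩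
      have hτ0 : 0 ≤ τ := by rw [hτ]; positivity
      have hτ1 : τ ≤ 1 := by
        rw [hτ, div_le_one (by positivity)]
        exact_mod_cast (Nat.mod_lt _ (by positivity)).le
      have k1 := key ω
      have k2 := key ω'
      rw [hT] at k1
      rw [← hτ] at k1 k2
      rw [k1, k2]
      obtain ⟨A, hA⟩ : ∃ A, A = (2 : ℝ) ^ (q + w) * F.x ω i₀ := ⟨_, rfl⟩
      obtain ⟨B, hB⟩ : ∃ B, B = (2 : ℝ) ^ (q + w) * F.x ω' i₀ := ⟨_, rfl⟩
      obtain ⟨D, hD⟩ : ∃ D, D = (2 : ℝ) ^ q * F.d ω i₀ := ⟨_, rfl⟩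
      obtain ⟨E, hE⟩ : ∃ E, E = (2 : ℝ) ^ q * F.d ω' i₀ := ⟨_, rfl⟩
      rw [← hA, ← hB] at hx ⊢
      rw [← hD, ← hE] at hb ⊢
      have h1 := Int.floor_le A
      have h2 := Int.lt_floor_add_one A
      have h3 := Int.floor_le B
      have h4 := Int.lt_floor_add_one B
      rw [hx] at h1 h2
      have h5 := Int.floor_le D
      have h6 := Int.lt_floor_add_one D
      have h7 := Int.floor_le E
      have h8 := Int.lt_floor_add_one E
      rw [hb] at h5 h6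
      have g1 : |D - E| ≤ 1 := by rw [abs_le]; constructor <;> linarith
      have g2 : |τ * (D - E)| ≤ 1 := by
        rw [abs_mul, abs_of_nonneg hτ0]
        have := abs_nonneg (D - E)
        nlinarith only [hτ1, hτ0, g1]
      rw [abs_le] at g2
      have h9 := Int.floor_le (A - τ * D)
      have h10 := Int.lt_floor_add_one (A - τ * D)
      have h11 := Int.floor_le (B - τ * E)
      have h12 := Int.lt_floor_add_one (B - τ * E)
      push_cast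
      rw [abs_le]
      constructor <;> nlinarith)
  have h3 : CH F.p (fun ω (_ : Fin 1) => ⌊(2 : ℝ) ^ (q + w) * F.x ω i₀⌋) (ptq F i₀ q) = 0 := by
    refine CH_eq_zero hp fun ω ω' _ _ e => ?_
    have e3 := Prod.ext_iff.mp e
    have e4 : F.X J ω = F.X J ω' ∧ F.W ω = F.W ω' := Prod.ext_iff.mp e3.1
    have e5 : fl (q + w) (F.x ω) = fl (q + w) (F.x ω') := Pool.STK.B58.fl_fine hJ e4.1
    exact funext fun _ => congrFun e5 i₀
  have h1 : CH F.p (fun ω => ⌊(2 : ℝ) ^ (q + w) * F.x1 w ω i₀⌋) (ptq F i₀ q) ≤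
      CH F.p (fun ω (_ : Fin 1) => ⌊(2 : ℝ) ^ (q + w) * F.x1 w ω i₀⌋) (ptq F i₀ q) :=
    CH_mono_left hp fun ω ω' _ _ e => congrFun (Prod.ext_iff.mp e).1 0
  linarith

/-- The label of the zoomed family has bounded entropy given the exact point and the first
digits of the velocity. -/
theorem plC_pq {m J : ℕ} (F : Fam m J) {w q K N : ℕ} (hJ : q + w + N * K ≤ J) {i₀ : Fin m}
    {σ : Type} (S : F.Ω → σ) {δ : ℝ} (hv : CH F.p S (ptq F i₀ q) ≤ δ) :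
    CH F.p (plC (F.pq i₀ w q S) K N) (ptq F i₀ q) ≤ δ + (2 * N + 4) * cc 1 := by
  have hp := F.isLaw.nonneg
  have hw : w ≤ J := by omega
  set G := F.pq i₀ w q S with hG
  obtain ⟨V, hV⟩ : ∃ V : F.Ω → _, V = fun ω => ((⌊(2 : ℝ) ^ (q + w) * F.x1 w ω i₀⌋, S ω),
    ptq F i₀ q ω) := ⟨_, rfl⟩
  have hVe : ∀ ω ω', V ω = V ω' →
      (F.X J ω = F.X J ω' ∧ F.T ω = F.T ω' ∧ F.Z ω = F.Z ω') ∧
      (⌊(2 : ℝ) ^ (q + w) * F.x1 w ω i₀⌋ = ⌊(2 : ℝ) ^ (q + w) * F.x1 w ω' i₀⌋ ∧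
      ⌊(2 : ℝ) ^ q * F.d ω i₀⌋ = ⌊(2 : ℝ) ^ q * F.d ω' i₀⌋ ∧ S ω = S ω') := by
    intro ω ω' e
    rw [hV] at e
    have e1 := Prod.ext_iff.mp e
    have e2 := Prod.ext_iff.mp e1.1
    have e3 := Prod.ext_iff.mp e1.2
    have e4 : F.X J ω = F.X J ω' ∧ F.W ω = F.W ω' := Prod.ext_iff.mp e3.1
    have e5 := Prod.ext_iff.mp e4.2
    exact ⟨⟨e4.1, e5.1, e5.2⟩, e2.1, e3.2, e2.2⟩
  have hGW : ∀ ω ω', V ω = V ω' → G.W ω = G.W ω' := by
    intro ω ω' e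
    obtain ⟨⟨-, hT, hZ⟩, ha, hb, hS⟩ := hVe ω ω' e
    refine Prod.ext ?_ ?_
    · change F.T ω % 2 ^ (J - w) = F.T ω' % 2 ^ (J - w)
      rw [hT]
    · change ((((F.T1 w ω, ⌊(2 : ℝ) ^ (q + w) * F.x1 w ω i₀⌋), ⌊(2 : ℝ) ^ q * F.d ω i₀⌋),
          S ω), F.Z ω) = ((((F.T1 w ω', ⌊(2 : ℝ) ^ (q + w) * F.x1 w ω' i₀⌋),
          ⌊(2 : ℝ) ^ q * F.d ω' i₀⌋), S ω'), F.Z ω')
      rw [(det_T F w hT).1, ha, hb, hS, hZ]
  have hX : ∀ j, j + (q + w) ≤ J → CH F.p (G.X j) V ≤ cc 1 := by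
    intro j hj
    have h1 := CH_le_round F.isLaw (G.X j)
      (fun ω (_ : Fin 1) => ⌊(2 : ℝ) ^ (j + (q + w)) * F.x ω i₀⌋) V (by
        intro ω ω' _ _ e1 e2 k
        obtain ⟨⟨-, hT, -⟩, ha, hb, -⟩ := hVe ω ω' e1
        exact Pq.pq_close F i₀ hw q S j hT ha hb (congrFun e2 0) k)
    have h2 : CH F.p (fun ω (_ : Fin 1) => ⌊(2 : ℝ) ^ (j + (q + w)) * F.x ω i₀⌋) V = 0 := by
      refine CH_eq_zero hp fun ω ω' _ _ e => ?_
      obtain ⟨⟨hXJ, -, -⟩, -⟩ := hVe ω ω' e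
      have e5 : fl (j + (q + w)) (F.x ω) = fl (j + (q + w)) (F.x ω') :=
        Pool.STK.B58.fl_fine hj hXJ
      exact funext fun _ => congrFun e5 i₀
    linarith only [h1, h2]
  have hc : ∀ i : Fin (N + 1), CH F.p (G.c ((i : ℕ) * K)) V ≤ 2 * cc 1 := by
    intro i
    have hik : (i : ℕ) * K ≤ N * K := Nat.mul_le_mul_right K (by omega)
    have h1 := Cell.CH_c_row G (w := (i : ℕ) * K) (by omega)
    have h2 := CH_le_add hp (G.c ((i : ℕ) * K)) (G.X ((i : ℕ) * K)) V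
    have h3 : CH F.p (G.c ((i : ℕ) * K)) (fun ω => (G.X ((i : ℕ) * K) ω, V ω)) ≤
        CH F.p (G.c ((i : ℕ) * K)) (cel G ((i : ℕ) * K)) := by
      refine CH_mono_cond (p := F.p) hp fun ω ω' _ _ e => ?_
      have e1 := Prod.ext_iff.mp e
      exact Prod.ext e1.1 (hGW ω ω' e1.2)
    have h4 := hX ((i : ℕ) * K) (by omega)
    have h5 : CH F.p (G.c ((i : ℕ) * K)) (cel G ((i : ℕ) * K)) ≤ cc 1 := h1
    linarith only [h2, h3, h4, h5]
  have h1 := CH_le_add hp (plC G K N) (fun ω => (⌊(2 : ℝ) ^ (q + w) * F.x1 w ω i₀⌋, S ω))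
    (ptq F i₀ q)
  have h2 := CH_subadd hp (fun ω => ⌊(2 : ℝ) ^ (q + w) * F.x1 w ω i₀⌋) S (ptq F i₀ q)
  have h2' := CH_base F i₀ (w := w) (q := q) (by omega)
  have h3 : CH F.p (plC G K N) V ≤
      CH F.p (fun ω (i : Fin (N + 1)) => G.c ((i : ℕ) * K) ω) V + CH F.p (G.X (N * K)) V :=
    CH_subadd hp _ _ _
  have h4 := CH_pi_le hp V (N + 1) (fun i => G.c ((i : ℕ) * K)) hc
  have h5 := hX (N * K) (by omega)
  rw [hV] at h3 h4 h5
  push_cast at h4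
  linarith only [hv, h1, h2, h2', h3, h5, h4]

open Classical in
/-- **Intervals**, for the zoomed family. -/
theorem interval_pq {ε σ κ : Type} {m J : ℕ} (F : Fam m J) {w q x1 : ℕ} {i₀ : Fin m}
    {Sd : F.Ω → κ} {E : F.Ω → ε} {L : F.Ω → σ} {ρ : ℝ}
    (h2 : NonConc F.p (fun ω => F.d ω i₀) E (fun (D v : ℝ) => |D - v| ≤ 1 / 2 ^ (q + x1)) ρ)
    (hE : Det F.p E L) (hL : Det F.p L (fun ω => ⌊(2 : ℝ) ^ q * F.d ω i₀⌋))
    (ω : F.Ω) (hω : 0 < F.p ω) (v : Fin 1 → ℝ) (B : Fin 0 → Fin 1 → ℝ) :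
    (∑ ω', if ∃ c : Fin 0 → ℝ, ∀ j, |(F.pq i₀ w q Sd).d ω' j - v j - ∑ i, c i * B i j| ≤
      4 / 2 ^ (x1 + 2) then Pool.Agent.H49.Ent.cond F.p L (L ω) ω' else 0) ≤ ρ := by
  have hlaw := F.isLaw
  have g2 := h2.coarse hlaw hE
  have hcond0 : ∀ ω', 0 ≤ Pool.Agent.H49.Ent.cond F.p L (L ω) ω' :=
    fun ω' => cond_nonneg hlaw.nonneg L (L ω) ω'
  obtain ⟨b, hb⟩ : ∃ b : ℤ, b = ⌊(2 : ℝ) ^ q * F.d ω i₀⌋ := ⟨_, rfl⟩
  refine le_trans (Finset.sum_le_sum fun ω' _ => ?_)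
    (g2.cond_le hlaw hω (((b : ℝ) + v 0) / 2 ^ q))
  by_cases hst : ∃ c : Fin 0 → ℝ, ∀ j, |(F.pq i₀ w q Sd).d ω' j - v j -
      ∑ i, c i * B i j| ≤ 4 / 2 ^ (x1 + 2)
  · rw [if_pos hst]
    by_cases h0 : Pool.Agent.H49.Ent.cond F.p L (L ω) ω' = 0
    · rw [h0]
      split_ifs <;> exact le_rfl
    · have h3 : 0 < Pool.Agent.H49.Ent.cond F.p L (L ω) ω' :=
        lt_of_le_of_ne (hcond0 ω') (Ne.symm h0)
      obtain ⟨p1, p2⟩ := (cond_pos_iff hlaw.nonneg L (L ω) ω').1 h3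
      have hb' : ⌊(2 : ℝ) ^ q * F.d ω' i₀⌋ = b := by
        rw [hb]
        exact hL ω' ω p1 hω p2
      obtain ⟨c, hcc⟩ := hst
      have h4 := hcc 0
      rw [Finset.univ_eq_empty, Finset.sum_empty, sub_zero] at h4
      have h5 : |Int.fract ((2 : ℝ) ^ q * F.d ω' i₀) - v 0| ≤ 4 / 2 ^ (x1 + 2) := h4
      rw [Int.fract, hb'] at h5
      have h6 : |F.d ω' i₀ - ((b : ℝ) + v 0) / 2 ^ q| ≤ 1 / 2 ^ (q + x1) := by
        have p2 : (0 : ℝ) < 2 ^ q := by positivity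
        have e1 : F.d ω' i₀ - ((b : ℝ) + v 0) / 2 ^ q =
            (2 ^ q * F.d ω' i₀ - b - v 0) / 2 ^ q := by
          field_simp
          ring
        rw [e1, abs_div, abs_of_pos p2, div_le_iff₀ p2]
        refine h5.trans (le_of_eq ?_)
        rw [pow_add, pow_add]
        field_simp
        norm_num
      rw [if_pos h6]
  · rw [if_neg hst]
    split_ifs
    · exact hcond0 ω'
    · exact le_rfl

/-- The arithmetic of the rows. -/
theorem ws_arith {s N K a x1 J L e ρ C H : ℝ} (hN : 0 ≤ N) (hK : 0 ≤ K) (hL0 : 0 ≤ L)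
    (hL1 : L ≤ 1) (ha : a = K - 2 * (x1 + 2) - 3) (hx1 : 0 ≤ x1) (hs : s ≤ N * K + N)
    (hs' : N * K ≤ s) (hsJ : s ≤ J) (he : 0 ≤ e) (hρ : 0 ≤ ρ) (hC : 0 ≤ C)
    (hmain : N * (a * L - 4 * (a * L) * ρ - 3 * e - C) - 2 * (K * L + C) ≤ H + C) :
    s * L - ((11 + 3 * C) * ((N + 1) * (x1 + 4 + e + 1)) + 4 * K + 4 * (J * ρ)) ≤ H := by
  subst ha
  have m1 : L * (N * (2 * x1 + 8)) ≤ N * (2 * x1 + 8) := by
    have : 0 ≤ N * (2 * x1 + 8) := by positivity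
    nlinarith only [hL1, this]
  have m3 : L * K ≤ K := by nlinarith only [hK, hL1]
  have m4 : N * K * L * ρ ≤ J * ρ := by
    have b1 : N * K ≤ J := hs'.trans hsJ
    have b2 : N * K * L ≤ J := by
      have : N * K * L ≤ N * K * 1 := mul_le_mul_of_nonneg_left hL1 (by positivity)
      linarith only [hs', hsJ, this]
    exact mul_le_mul_of_nonneg_right b2 hρ
  have p1 : 0 ≤ N * ((2 * x1 + 7) * L) * ρ := by positivity
  have p3 : s * L ≤ (N * K + N) * L := mul_le_mul_of_nonneg_right hs hL0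
  obtain ⟨M, hM⟩ : ∃ M, M = (N + 1) * (x1 + 4 + e + 1) := ⟨_, rfl⟩
  have q1 : N * (x1 + 5) ≤ M := by
    rw [hM]
    have : 0 ≤ N * e + (x1 + 4 + e + 1) := by positivity
    nlinarith only [this]
  have q3 : N * e ≤ M := by
    rw [hM]
    have : 0 ≤ N * (x1 + 5) + (x1 + 4 + e + 1) := by positivity
    nlinarith only [this]
  have q4 : (N + 1) * C ≤ C * M := by
    rw [hM]
    have : 0 ≤ C * ((N + 1) * (x1 + 4 + e)) := by positivity
    nlinarith only [this]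
  have q5 : C ≤ (N + 1) * C := by nlinarith only [hN, hC]
  rw [← hM]
  have r1 : (11 + 3 * C) * M = 11 * M + 3 * (C * M) := by ring
  rw [r1]
  nlinarith only [hN, hK, hx1, he, hmain, m1, m3, m4, p1, p3, hM, q1, q4, q5, m1, m3, m4, p1, p3, q1, q3, q4, q5, hmain]

/-- **Rows of the chart coordinate in a context, given the nonconcentration.** -/
theorem ws_rows : ∃ C₀ : ℝ, 0 ≤ C₀ ∧ ∀ (m J : ℕ) (F : Fam m J) (i₀ : Fin m) (w q s N x1 : ℕ)
    (e ρ : ℝ) (σ ε : Type) (S : F.Ω → σ) (E : F.Ω → ε), q + w + s ≤ J → 1 ≤ N → 0 ≤ e →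
    0 ≤ ρ → F.Tm e → Det F.p (wnd F w) S →
    NonConc F.p (fun ω => F.d ω i₀) E (fun (D v : ℝ) => |D - v| ≤ 1 / 2 ^ (q + x1)) ρ →
    Det F.p E (plC (F.pq i₀ w q S) (s / N) N) →
    s * Real.log 2 - (C₀ * ((N + 1) * (x1 + 4 + e + 1)) + 4 * (s / N : ℕ) + 4 * (J * ρ)) ≤
      CH F.p (fun ω => ⌊(2 : ℝ) ^ (q + w + s) * F.x ω i₀⌋)
        (fun ω => (F.T ω, ((⌊(2 : ℝ) ^ (q + w) * F.x1 w ω i₀⌋, ⌊(2 : ℝ) ^ q * F.d ω i₀⌋),
          (S ω, F.Z ω)))) := by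
  obtain ⟨C', hC', hrows⟩ := rows_thm 0
  have hcc := cc_nonneg 1
  obtain ⟨C, hC⟩ : ∃ C, C = C' + cc 1 := ⟨_, rfl⟩
  have hC0 : 0 ≤ C := by rw [hC]; linarith
  refine ⟨11 + 3 * C, by positivity, ?_⟩
  intro m J F i₀ w q s N x1 e ρ σ ε S E hJ hN he hρ hTm hS hch hE
  have hlaw := F.isLaw
  have hp := hlaw.nonneg
  have hw : w ≤ J := by omega
  have hl2 : 0 ≤ Real.log 2 := Real.log_nonneg one_le_two
  have hl2' : Real.log 2 ≤ 1 := by
    have := Real.log_le_sub_one_of_pos (x := 2) (by norm_num)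
    linarith only [this]
  obtain ⟨K, hK⟩ : ∃ K, K = s / N := ⟨_, rfl⟩
  rw [← hK] at hE ⊢
  obtain ⟨H, hH⟩ : ∃ H, H = CH F.p (fun ω => ⌊(2 : ℝ) ^ (q + w + s) * F.x ω i₀⌋)
    (fun ω => (F.T ω, ((⌊(2 : ℝ) ^ (q + w) * F.x1 w ω i₀⌋, ⌊(2 : ℝ) ^ q * F.d ω i₀⌋),
          (S ω, F.Z ω)))) := ⟨_, rfl⟩
  have hH0 : 0 ≤ H := by rw [hH]; exact CH_nonneg hp _ _
  have hNr : (1 : ℝ) ≤ N := by exact_mod_cast hN
  have hKr : (0 : ℝ) ≤ K := Nat.cast_nonneg K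
  have hx0 : (0 : ℝ) ≤ x1 := Nat.cast_nonneg x1
  have hx1 : N * K ≤ s := by
    rw [hK]
    exact Nat.mul_div_le s N
  have hx2 : s ≤ N * K + N := by
    have := Nat.lt_mul_div_succ s (show 0 < N by omega)
    rw [← hK] at this
    have e1 : N * (K + 1) = N * K + N := by ring
    omega
  have hx2r : (s : ℝ) ≤ N * K + N := by exact_mod_cast hx2
  have hx1r : (N : ℝ) * K ≤ s := by exact_mod_cast hx1
  have hJr : (0 : ℝ) ≤ J := Nat.cast_nonneg J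
  rw [← hH]
  rcases Nat.lt_or_ge K (2 * (x1 + 2) + 3) with hcase | hcase
  · -- the blocks are too short
    refine le_trans ?_ hH0
    have k1 : (K : ℝ) ≤ 2 * (x1 + 2) + 3 := by exact_mod_cast hcase.le
    have k2 : (s : ℝ) ≤ N * (2 * x1 + 8) := by
      have : (N : ℝ) * K ≤ N * (2 * (x1 + 2) + 3) := mul_le_mul_of_nonneg_left k1 (by linarith only [hNr])
      linarith only [hx2r, this]
    have k3 : (s : ℝ) * Real.log 2 ≤ s := by
      have : (0 : ℝ) ≤ s := Nat.cast_nonneg s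
      nlinarith only [hl2']
    have k4 : (N : ℝ) * (x1 + 5) ≤ (N + 1) * (x1 + 4 + e + 1) := by
      have : 0 ≤ (N : ℝ) * e + (x1 + 4 + e + 1) := by positivity
      nlinarith only [this]
    have k5 : (0 : ℝ) ≤ (N + 1) * (x1 + 4 + e + 1) := by positivity
    have k6 : 0 ≤ (J : ℝ) * ρ := mul_nonneg hJr hρ
    have k7 : (11 : ℝ) * ((N + 1) * (x1 + 4 + e + 1)) ≤
        (11 + 3 * C) * ((N + 1) * (x1 + 4 + e + 1)) :=
      mul_le_mul_of_nonneg_right (by linarith only [hC', hcc, hC]) k5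
    nlinarith only [hNr, k2, k3, k4, k6, k7, k2, k3, k4, k6, k7]
  · -- the main case
    have p2 : (F.pq i₀ w q S).Tm e := Pq.pq_Tm F i₀ hw q S hS hTm
    have hmain := hrows (J - w) (F.pq i₀ w q S) K (K - (2 * (x1 + 2) + 3)) (x1 + 2) N 0 e ρ
      (by omega) p2 (by omega) (by omega) (by
        intro i hi ω hω v B
        have hic := interval_pq F (w := w) (Sd := S) hch (L := rlab (F.pq i₀ w q S) K i)
          (fun ω ω' a b e' => plC_rlab (F.pq i₀ w q S) K N hi (hE ω ω' a b e'))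
          (fun ω ω' _ _ e' => by
            have e1 : (F.pq i₀ w q S).c (0 + i * K) ω = (F.pq i₀ w q S).c (0 + i * K) ω' :=
              (Prod.ext_iff.mp e').1
            have e2 : (F.pq i₀ w q S).Z ω = (F.pq i₀ w q S).Z ω' := (Prod.ext_iff.mp e1).2
            exact (Prod.ext_iff.mp (Prod.ext_iff.mp (Prod.ext_iff.mp e2).1).1).2)
          ω hω v B
        refine le_trans (le_of_eq (Finset.sum_congr rfl fun ω' _ => ?_)) hic
        by_cases hst : ∃ c : Fin 0 → ℝ, ∀ j, |(F.pq i₀ w q S).d ω' j -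
            v j - ∑ i, c i * B i j| ≤ 4 / 2 ^ (x1 + 2)
        · exact (if_pos hst).trans (if_pos hst).symm
        · exact (if_neg hst).trans (if_neg hst).symm)
    have r1 : CH (F.pq i₀ w q S).p ((F.pq i₀ w q S).X (0 + N * K))
        (fun ω => ((F.pq i₀ w q S).X 0 ω, (F.pq i₀ w q S).W ω)) ≤ H + cc 1 := by
      rw [Nat.zero_add, hH]
      refine (Pq.pq_row F i₀ hw q S (N * K)).trans (add_le_add_left ?_ _)
      refine CH_mono_left hp (X' := fun ω => ⌊(2 : ℝ) ^ (q + w + s) * F.x ω i₀⌋) ?_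
      intro ω ω' _ _ e'
      have e1 : ⌊(2 : ℝ) ^ (q + w + s) * F.x ω i₀⌋ = ⌊(2 : ℝ) ^ (q + w + s) * F.x ω' i₀⌋ :=
        (Prod.ext_iff.mp e').1
      obtain ⟨k, hk⟩ := Nat.exists_eq_add_of_le (show N * K + (q + w) ≤ q + w + s by omega)
      have e2 : (2 : ℝ) ^ (q + w + s) = 2 ^ (N * K + (q + w) + k) := by rw [← hk]
      rw [e2] at e1
      exact Pool.STK.B58.floor_fine (N * K + (q + w)) k e1
    have ca : ((K - (2 * (x1 + 2) + 3) : ℕ) : ℝ) = (K : ℝ) - 2 * ((x1 : ℝ) + 2) - 3 := by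
      rw [Nat.cast_sub (by omega)]
      push_cast
      ring
    refine ws_arith (a := ((K - (2 * (x1 + 2) + 3) : ℕ) : ℝ)) (by linarith only [hNr]) hKr hl2 hl2' ca hx0
      hx2r hx1r ?_ he hρ hC0 ?_
    · have : s ≤ J := by omega
      exact_mod_cast this
    · have h3 := hmain.trans r1
      push_cast at h3
      have h4 : (N : ℝ) * C = N * C' + N * cc 1 := by rw [hC]; ring
      have h5 : 0 ≤ (N : ℝ) * cc 1 := by positivity
      have h6 : C = C' + cc 1 := hC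
      linarith only [hC', hcc, hC, h3, h4, h5]

/-- **Rows of the chart coordinate in a context**, for one event. -/
theorem ws_event : ∃ C₀ : ℝ, 0 ≤ C₀ ∧ ∀ (m J : ℕ) (F : Fam m J) (A : F.Ω → Prop) (i₀ : Fin m)
    (w q s N x1 : ℕ) (κ e δ : ℝ) (σ : Type) (S : F.Ω → σ), q + w + s ≤ J → 1 ≤ N → 0 ≤ e →
    0 < Pe F.p A →
    (∀ B : F.Ω → Prop, Sub B A → Pe F.p A / 2 ≤ Pe F.p B →
      ∀ hl : IsLaw (cond F.p B True), (F.res B True hl).Tm e) →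
    Stb F.p κ A (FrzG F i₀ q (q + x1)) → ¬ FrzG F i₀ q (q + x1) A →
    Det F.p (wnd F w) S →
    (∀ B : F.Ω → Prop, Sub B A → 0 < Pe F.p B → CH (cond F.p B True) S (ptq F i₀ q) ≤ δ) →
    4 * (|δ| + (2 * N + 4) * cc 1 + 1) + 6 * Real.log 2 ≤ κ →
    (1 - Real.exp (-(κ / 4))) * (s * Real.log 2 - (C₀ * ((N + 1) * (x1 + 4 + e + 1)) +
      4 * (s / N : ℕ) + 4 * (J * Real.exp (-(κ / 4))))) ≤
      CH (cond F.p A True) (fun ω => ⌊(2 : ℝ) ^ (q + w + s) * F.x ω i₀⌋)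
        (fun ω => (F.T ω, ((⌊(2 : ℝ) ^ (q + w) * F.x1 w ω i₀⌋, ⌊(2 : ℝ) ^ q * F.d ω i₀⌋),
          (S ω, F.Z ω)))) := by
  classical
  obtain ⟨C₀, hC₀, hrows⟩ := ws_rows
  refine ⟨C₀, hC₀, ?_⟩
  intro m J F A i₀ w q s N x1 κ e δ σ S hJ hN he hA hTm hFs hFn hS hvis hκ
  have hp := F.isLaw
  have hl2 : 0 < Real.log 2 := Real.log_pos one_lt_two
  have hcc := cc_nonneg 1
  obtain ⟨K, hK⟩ : ∃ K, K = s / N := ⟨_, rfl⟩
  have hNK : N * K ≤ s := by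
    rw [hK]
    exact Nat.mul_div_le s N
  obtain ⟨δ', hδ'⟩ : ∃ δ', δ' = |δ| + (2 * N + 4) * cc 1 + 1 := ⟨_, rfl⟩
  rw [← hδ'] at hκ
  have hδ0 : 0 < δ' := by
    rw [hδ']
    have : 0 ≤ (2 * (N : ℝ) + 4) * cc 1 := by positivity
    have := abs_nonneg δ
    linarith
  obtain ⟨L, hL⟩ : ∃ L, L = plC (F.pq i₀ w q S) K N := ⟨_, rfl⟩
  have hLL : ∀ B : F.Ω → Prop, Sub B A → 0 < Pe F.p B →
      CH (cond F.p B True) L (ptq F i₀ q) ≤ δ' := by
    intro B hBA hB0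
    have hlB := isLaw_cond hp hB0
    have key := plC_pq (F.res B True hlB) (w := w) (q := q) (K := K) (N := N) (by omega)
      (i₀ := i₀) S (δ := δ) (hvis B hBA hB0)
    have h2 : CH (cond F.p B True) L (ptq F i₀ q) ≤ δ + (2 * N + 4) * cc 1 := by
      rw [hL]
      exact key
    rw [hδ']
    have := le_abs_self δ
    linarith only [h2, this]
  obtain ⟨s1, s2⟩ := Stb.refine hp hFs hFn hA hδ0 hLL (by linarith only [hl2, hκ, hδ0])
  obtain ⟨κ₁, hκ₁⟩ : ∃ κ₁, κ₁ = κ - (2 * δ' + Real.log 2) := ⟨_, rfl⟩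
  rw [← hκ₁] at s1
  obtain ⟨c1, c2⟩ := Stb.clean hp (by rw [hκ₁]; linarith only [hl2, hκ, hδ0] : 2 * Real.log 2 ≤ κ₁) hA s1 s2 rfl
  have c1' := Stb.clean_exp hp hA s1 s2 rfl
  obtain ⟨N₁, hN₁⟩ : ∃ N₁ : F.Ω → Prop, N₁ = Pop (cond F.p A True) (fun ω => F.d ω i₀)
    (fun ω => (ptq F i₀ q ω, L ω)) (fun (D v : ℝ) => |D - v| ≤ 1 / 2 ^ (q + x1))
    (Real.exp (-(κ₁ / 2))) := ⟨_, rfl⟩
  rw [← hN₁] at c1 c2
  replace c1' : Pe F.p (fun ω => A ω ∧ N₁ ω) ≤ Real.exp (-(κ / 4)) * Pe F.p A := by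
    rw [hN₁]
    refine c1'.trans (mul_le_mul_of_nonneg_right (Real.exp_le_exp.2 ?_) hA.le)
    rw [hκ₁]
    linarith only [hl2, hκ]
  have d1 := Pe_diff_ge c1'
  obtain ⟨A₁, hA₁⟩ : ∃ A₁ : F.Ω → Prop, A₁ = fun ω => A ω ∧ ¬ N₁ ω := ⟨_, rfl⟩
  rw [← hA₁] at c2 d1
  have hsub1 : Sub A₁ A := by
    rw [hA₁]
    exact fun ω h => h.1
  have hhalf : Real.exp (-Real.log 2) = 1 / 2 := by
    rw [Real.exp_neg, Real.exp_log (by norm_num)]
    norm_num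
  have hPA₁ : Pe F.p A / 2 ≤ Pe F.p A₁ := by
    have := Pe_diff c1
    rw [hhalf] at this
    rw [hA₁]
    linarith only [this]
  have hA₁0 : 0 < Pe F.p A₁ := by linarith only [hA, hPA₁]
  have hl := isLaw_cond hp hA₁0
  have key := hrows m J (F.res A₁ True hl) i₀ w q s N x1 e (Real.exp (-(κ / 4))) _ _ S
    (fun ω => (ptq F i₀ q ω, L ω)) hJ hN he (Real.exp_pos _).le (hTm A₁ hsub1 hPA₁ hl)
    (by
      intro ω ω' h1 h2 h
      have g1 : 0 < F.p ω := ((cond_pos_iff hp.nonneg A₁ True ω).1 h1).1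
      have g2 : 0 < F.p ω' := ((cond_pos_iff hp.nonneg A₁ True ω').1 h2).1
      exact hS ω ω' g1 g2 h)
    (c2.mono_rho hl (Real.exp_le_exp.2 (by rw [hκ₁]; linarith only [hl2, hκ])))
    (by
      rw [← hK]
      intro ω ω' _ _ h
      have h2 : L ω = L ω' := (Prod.ext_iff.mp h).2
      rw [hL] at h2
      exact h2)
  have hev := CH_event hp hsub1 hA (fun ω => ⌊(2 : ℝ) ^ (q + w + s) * F.x ω i₀⌋)
    (fun ω => (F.T ω, ((⌊(2 : ℝ) ^ (q + w) * F.x1 w ω i₀⌋, ⌊(2 : ℝ) ^ q * F.d ω i₀⌋),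
      (S ω, F.Z ω))))
  refine le_trans ?_ hev
  have hCH := CH_nonneg hl.nonneg (fun ω => ⌊(2 : ℝ) ^ (q + w + s) * F.x ω i₀⌋)
    (fun ω => (F.T ω, ((⌊(2 : ℝ) ^ (q + w) * F.x1 w ω i₀⌋, ⌊(2 : ℝ) ^ q * F.d ω i₀⌋),
      (S ω, F.Z ω))))
  have hx0 : 0 ≤ 1 - Real.exp (-(κ / 4)) := by
    have : Real.exp (-(κ / 4)) ≤ 1 := by
      rw [Real.exp_le_one_iff]
      linarith only [hl2, hκ, hδ0]
    linarith only [this]
  have hfrac : 1 - Real.exp (-(κ / 4)) ≤ Pe F.p A₁ / Pe F.p A := by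
    rw [le_div_iff₀ hA]
    exact d1
  refine le_trans (mul_le_mul_of_nonneg_left key hx0) ?_
  exact mul_le_mul_of_nonneg_right hfrac hCH

/-- **Rows of the chart coordinate in a context**, with constants. -/
theorem ws_full {m : ℕ} {a η : ℝ} (ha : 1 ≤ a) (hη : 0 < η) : ∃ γ : ℝ, 0 < γ ∧
    ∀ R δ κ : ℝ, 0 < κ → ∃ τ > 0, ∃ J₁ : ℕ, ∀ J ≥ J₁, ∀ (F : Fam m J) (A : F.Ω → Prop),
    Fam.Stt F a R τ A → ∀ (i₀ : Fin m) (w q s x1 : ℕ) (σ : Type) (S : F.Ω → σ),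
    q + w + s ≤ J → (x1 : ℝ) ≤ γ * J → Stb F.p (κ * J) A (FrzG F i₀ q (q + x1)) →
    ¬ FrzG F i₀ q (q + x1) A → Det F.p (wnd F w) S →
    (∀ B : F.Ω → Prop, Sub B A → 0 < Pe F.p B → CH (cond F.p B True) S (ptq F i₀ q) ≤ δ) →
    s * Real.log 2 - η * J ≤
      CH (cond F.p A True) (fun ω => ⌊(2 : ℝ) ^ (q + w + s) * F.x ω i₀⌋)
        (fun ω => (F.T ω, ((⌊(2 : ℝ) ^ (q + w) * F.x1 w ω i₀⌋, ⌊(2 : ℝ) ^ q * F.d ω i₀⌋),
          (S ω, F.Z ω)))) := by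
  have hl2 : 0 < Real.log 2 := Real.log_pos one_lt_two
  have hl21 : Real.log 2 ≤ 1 := by
    have := Real.log_two_lt_d9
    linarith only [hl2, this]
  have hcc := cc_nonneg 1
  obtain ⟨C₀, hC₀, hev⟩ := ws_event
  obtain ⟨N, hN⟩ := exists_nat_gt (64 / η + 1)
  have hN64 : 0 < 64 / η := by positivity
  have hNr : (0 : ℝ) < N := by linarith
  have hN1r : (1 : ℝ) ≤ N := by linarith
  have hN1 : 1 ≤ N := by exact_mod_cast hN1r
  have hNη : 64 ≤ N * η := by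
    have : 64 / η < N := by linarith only [hN]
    rw [div_lt_iff₀ hη] at this
    exact this.le
  obtain ⟨γ, hγ⟩ : ∃ γ : ℝ, γ = η / (64 * ((C₀ + 1) * (N + 1))) := ⟨_, rfl⟩
  have hγ0 : 0 < γ := by rw [hγ]; positivity
  have hγ1 : 64 * ((C₀ + 1) * (N + 1)) * γ = η := by
    rw [hγ]
    field_simp
  refine ⟨γ, hγ0, fun R δ κ hκ => ?_⟩
  obtain ⟨τ, hτ⟩ : ∃ τ : ℝ, τ = γ / (7 * (1 + a)) := ⟨_, rfl⟩
  have hτ0 : 0 < τ := by rw [hτ]; positivity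
  have hτ1 : (1 + a) * (5 * τ + 2 * τ) = γ := by
    rw [hτ]
    field_simp
    ring
  obtain ⟨D, hD⟩ : ∃ D : ℝ, D = 4 * (|δ| + (2 * N + 4) * cc 1 + 1) + 6 * Real.log 2 := ⟨_, rfl⟩
  have hD0 : 0 ≤ D := by rw [hD]; positivity
  obtain ⟨t₀, ht₀⟩ : ∃ t₀ : ℝ, t₀ = η / 64 := ⟨_, rfl⟩
  have ht₀0 : 0 < t₀ := by rw [ht₀]; positivity
  obtain ⟨J₂, hJ₂⟩ := exists_nat_gt (D / κ + 5 / γ + Real.log 2 / τ +
    4 * |Real.log t₀| / κ + 1)
  refine ⟨τ, hτ0, J₂, ?_⟩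
  intro J hJ F A hS i₀ w q s x1 σ S hwJ hx1 hFs hFn hSd hvis
  have hJr : D / κ + 5 / γ + Real.log 2 / τ + 4 * |Real.log t₀| / κ + 1 < J :=
    hJ₂.trans_le (by exact_mod_cast hJ)
  have q1 : 0 ≤ D / κ := by positivity
  have q2 : 0 ≤ 5 / γ := by positivity
  have q3 : 0 ≤ Real.log 2 / τ := by positivity
  have q4 : 0 ≤ 4 * |Real.log t₀| / κ := by positivity
  have hJ0 : (0 : ℝ) < J := by linarith only [hJr, q1, q2, q3, q4]
  have r1 : D ≤ κ * J := by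
    have h1 : D / κ < J := by linarith only [hJr, q2, q3, q4]
    rw [div_lt_iff₀ hκ] at h1
    linarith only [h1]
  have r2 : 5 ≤ γ * J := by
    have h1 : 5 / γ < J := by linarith only [hJr, q1, q3, q4]
    rw [div_lt_iff₀ hγ0] at h1
    linarith only [h1]
  have r3 : Real.log 2 ≤ τ * J := by
    have h1 : Real.log 2 / τ < J := by linarith only [hJr, q1, q2, q4]
    rw [div_lt_iff₀ hτ0] at h1
    linarith only [h1]
  have r4 : Real.exp (-(κ * J / 4)) ≤ t₀ := by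
    have h1 : 4 * |Real.log t₀| / κ < J := by linarith only [hJr, q1, q2, q3]
    rw [div_lt_iff₀ hκ] at h1
    rw [← Real.exp_log ht₀0]
    refine Real.exp_le_exp.2 ?_
    have := neg_abs_le (Real.log t₀)
    linarith only [h1, this]
  have hA0 : 0 < Pe F.p A := lt_of_lt_of_le (Real.exp_pos _) hS.2.2.2
  obtain ⟨e, he⟩ : ∃ e : ℝ, e = (1 + a) * (5 * τ + 2 * τ) * J := ⟨_, rfl⟩
  have he0 : 0 ≤ e := by rw [he, hτ1]; positivity
  have heJ : e = γ * J := by rw [he, hτ1]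
  have key := hev m J F A i₀ w q s N x1 (κ * J) e δ σ S hwJ hN1 he0 hA0 (by
      intro B hB hPB hl
      have hPB' : Real.exp (-((2 * τ) * J)) ≤ Pe F.p B := by
        refine le_trans ?_ hPB
        have h1 : Real.exp (-((2 * τ) * J)) ≤ Real.exp (-(τ * J)) / 2 := by
          rw [le_div_iff₀ (by norm_num)]
          have h2 : (2 : ℝ) = Real.exp (Real.log 2) := by rw [Real.exp_log (by norm_num)]
          calc Real.exp (-((2 * τ) * J)) * 2 = Real.exp (-((2 * τ) * J)) *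
                Real.exp (Real.log 2) := by rw [← h2]
            _ = Real.exp (-((2 * τ) * J) + Real.log 2) := by rw [← Real.exp_add]
            _ ≤ _ := Real.exp_le_exp.2 (by linarith only [r3])
        have h3 := hS.2.2.2
        linarith only [h1, h3]
      obtain ⟨_, -, h2, -⟩ := max_res F ha hτ0.le (by linarith only [hτ0] : (0 : ℝ) ≤ 2 * τ) hS.1
        hS.2.1 hS.2.2.1 B hPB'
      rw [he]
      exact h2.1) hFs hFn hSd hvis (by rw [← hD]; exact r1)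
  refine le_trans ?_ key
  obtain ⟨ρ, hρ⟩ : ∃ ρ, ρ = Real.exp (-(κ * J / 4)) := ⟨_, rfl⟩
  rw [← hρ] at r4 ⊢
  have hρ0 : 0 ≤ ρ := by rw [hρ]; exact (Real.exp_pos _).le
  have hsJ : (s : ℝ) ≤ J := by
    have : s ≤ J := by omega
    exact_mod_cast this
  have hs0 : (0 : ℝ) ≤ s := Nat.cast_nonneg s
  have hsN : ((s / N : ℕ) : ℝ) ≤ η / 64 * J := by
    have h1 : ((s / N : ℕ) : ℝ) ≤ s / N := Nat.cast_div_le
    have h2 : (s : ℝ) / N ≤ J / N := div_le_div_of_nonneg_right hsJ hNr.le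
    have h3 : (J : ℝ) / N ≤ η / 64 * J := by
      rw [div_le_iff₀ hNr]
      have : 64 * (J : ℝ) ≤ N * η * J := mul_le_mul_of_nonneg_right hNη hJ0.le
      linarith only [this]
    linarith only [h1, h2, h3]
  have hx0 : (0 : ℝ) ≤ x1 := Nat.cast_nonneg x1
  have t1 : C₀ * ((N + 1) * ((x1 : ℝ) + 4 + e + 1)) ≤ 3 / 64 * (η * J) := by
    have h1 : (x1 : ℝ) + 4 + e + 1 ≤ 3 * (γ * J) := by
      rw [heJ]
      linarith only [hx1, r2]
    have h2 : (N + 1) * ((x1 : ℝ) + 4 + e + 1) ≤ (N + 1) * (3 * (γ * J)) :=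
      mul_le_mul_of_nonneg_left h1 (by linarith only [hN, hN64])
    have h3 : C₀ * ((N + 1) * ((x1 : ℝ) + 4 + e + 1)) ≤ (C₀ + 1) * ((N + 1) * (3 * (γ * J))) :=
      mul_le_mul (by linarith only) h2 (by positivity) (by linarith only [hC₀])
    refine h3.trans (le_of_eq ?_)
    rw [← hγ1]
    ring
  have t2 : 4 * ((J : ℝ) * ρ) ≤ 4 / 64 * (η * J) := by
    have h1 : (J : ℝ) * ρ ≤ J * t₀ := mul_le_mul_of_nonneg_left r4 hJ0.le
    rw [ht₀] at h1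
    linarith only [h1]
  obtain ⟨Er, hEr⟩ : ∃ Er : ℝ, Er = C₀ * ((N + 1) * ((x1 : ℝ) + 4 + e + 1)) +
      4 * (s / N : ℕ) + 4 * (J * ρ) := ⟨_, rfl⟩
  rw [← hEr]
  have hEr0 : 0 ≤ Er := by rw [hEr]; positivity
  have hEr1 : Er ≤ 1 / 4 * (η * J) := by
    rw [hEr]
    have : 0 ≤ η * J := by positivity
    linarith only [hsN, t1, t2]
  have h5 : ρ * (s * Real.log 2) ≤ η / 64 * J := by
    have h6 : (s : ℝ) * Real.log 2 ≤ J := by
      have : (s : ℝ) * Real.log 2 ≤ s * 1 := mul_le_mul_of_nonneg_left hl21 hs0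
      linarith only [hsJ, this]
    have h7 : 0 ≤ (s : ℝ) * Real.log 2 := by positivity
    calc ρ * (s * Real.log 2) ≤ t₀ * J := mul_le_mul r4 h6 h7 ht₀0.le
      _ = _ := by rw [ht₀]
  have h8 : 0 ≤ ρ * Er := mul_nonneg hρ0 hEr0
  have h9 : 0 ≤ η * J := by positivity
  nlinarith only [hsN, t1, t2, hEr, h5, h8]

end Pool.K2S
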