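import Pool.Agent.H35.K2S.Fan

/-!
# Pointwise nonconcentration, and coarser points
-/

set_option autoImplicit false

namespace Pool.K2S

open Finset Real
open Pool.Agent.H49.Ent Pool.Agent.H32.Dense Pool.STK Pool.KA

variable {Ω S S' T T' : Type} [Fintype Ω]

/-- The values `c` are nonconcentrated given `g`: every `s` attracts at most a part `ρ`. -/
def NonConc (q : Ω → ℝ) (c : Ω → S') (g : Ω → T) (r : S' → S → Prop) (ρ : ℝ) : Prop :=
  ∀ ω, 0 < q ω → ∀ s, mas q c g r (g ω) s ≤ ρ * law q g (g ω)

open Classical in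
/-- The mass in terms of the conditional law. -/
theorem mas_eq_cond (q : Ω → ℝ) (c : Ω → S') (g : Ω → T) (r : S' → S → Prop) (t : T) (s : S)
    (h : law q g t ≠ 0) :
    mas q c g r t s = law q g t *
      ∑ ω', (if r (c ω') s then Pool.Agent.H49.Ent.cond q g t ω' else 0) := by
  unfold mas
  rw [Pe_eq, Finset.mul_sum]
  refine Finset.sum_congr rfl fun ω' _ => ?_
  unfold Pool.Agent.H49.Ent.cond
  by_cases h1 : g ω' = t
  · by_cases h2 : r (c ω') s
    · rw [if_pos ⟨h1, h2⟩, if_pos h2, if_pos h1, mul_div_cancel₀ _ h]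
    · rw [if_neg (fun h => h2 h.2), if_neg h2, mul_zero]
  · rw [if_neg (fun h => h1 h.1), if_neg h1]
    simp

open Classical in
theorem NonConc.cond_le {q : Ω → ℝ} (hq : IsLaw q) {c : Ω → S'} {g : Ω → T} {r : S' → S → Prop}
    {ρ : ℝ} (h : NonConc q c g r ρ) {ω : Ω} (hω : 0 < q ω) (s : S) :
    ∑ ω', (if r (c ω') s then Pool.Agent.H49.Ent.cond q g (g ω) ω' else 0) ≤ ρ := by
  have hl := law_pos hq.nonneg g hω
  have h1 := h ω hω s
  rw [mas_eq_cond q c g r (g ω) s hl.ne', mul_comm] at h1
  exact le_of_mul_le_mul_right h1 hl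

/-- Nonconcentration passes to coarser labels. -/
theorem NonConc.coarse {q : Ω → ℝ} (hq : IsLaw q) {c : Ω → S'} {g : Ω → T} {g' : Ω → T'}
    {r : S' → S → Prop} {ρ : ℝ} (h : NonConc q c g r ρ) (hg : Det q g g') :
    NonConc q c g' r ρ := by
  classical
  intro ω₀ hω₀ s
  set t' := g' ω₀ with ht'
  have key : mas q c g' r t' s = ∑ ω, (if g' ω = t' then
      q ω / law q g (g ω) * mas q c g r (g ω) s else 0) := by
    have h1 : ∀ ω, (if g' ω = t' then q ω / law q g (g ω) * mas q c g r (g ω) s else 0) =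
        ∑ w, (if g' ω = t' then q ω / law q g (g ω) *
          (if g w = g ω ∧ r (c w) s then q w else 0) else 0) := by
      intro ω
      by_cases h0 : g' ω = t'
      · rw [if_pos h0]
        unfold mas
        rw [Pe_eq, Finset.mul_sum]
        refine Finset.sum_congr rfl fun w _ => ?_
        rw [if_pos h0]
        by_cases h1 : g w = g ω ∧ r (c w) s
        · rw [if_pos h1, if_pos h1]
        · rw [if_neg h1, if_neg h1]
      · rw [if_neg h0]
        simp [h0]
    calc _ = ∑ w, ∑ ω, (if g' ω = t' then q ω / law q g (g ω) *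
          (if g w = g ω ∧ r (c w) s then q w else 0) else 0) := by
          unfold mas
          rw [Pe_eq]
          refine Finset.sum_congr rfl fun w _ => ?_
          by_cases h0 : q w = 0
          · rw [h0]
            simp
          have hw : 0 < q w := lt_of_le_of_ne (hq.nonneg w) (Ne.symm h0)
          have hl := law_pos hq.nonneg g hw
          by_cases h2 : r (c w) s
          · calc _ = (if g' w = t' then q w else 0) / law q g (g w) * law q g (g w) := by
                  rw [div_mul_cancel₀ _ hl.ne']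
                  by_cases h3 : g' w = t'
                  · rw [if_pos ⟨h3, h2⟩, if_pos h3]
                  · rw [if_neg (fun h => h3 h.1), if_neg h3]
              _ = _ := by
                  rw [law_eq_sum q g (g w), Finset.mul_sum]
                  refine Finset.sum_congr rfl fun ω _ => ?_
                  by_cases h4 : q ω = 0
                  · rw [h4]
                    simp
                  have hω : 0 < q ω := lt_of_le_of_ne (hq.nonneg ω) (Ne.symm h4)
                  by_cases h5 : g ω = g w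
                  · have h6 : g' ω = g' w := hg ω w hω hw h5
                    rw [if_pos h5, if_pos (⟨h5.symm, h2⟩ : g w = g ω ∧ r (c w) s), h6, h5]
                    by_cases h3 : g' w = t'
                    · rw [if_pos h3, if_pos h3, law_eq_sum q g (g w)]; ring
                    · rw [if_neg h3, if_neg h3]; ring
                  · rw [if_neg h5, if_neg (fun h => h5 h.1.symm : ¬ (g w = g ω ∧ r (c w) s))]
                    simp
          · rw [if_neg (fun h => h2 h.2)]
            symm
            refine Finset.sum_eq_zero fun ω _ => ?_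
            rw [if_neg (fun h => h2 h.2 : ¬ (g w = g ω ∧ r (c w) s))]
            simp
      _ = _ := by
          rw [Finset.sum_comm]
          exact Finset.sum_congr rfl fun ω _ => (h1 ω).symm
  rw [key, law_eq_sum, Finset.mul_sum]
  refine Finset.sum_le_sum fun ω _ => ?_
  by_cases h0 : q ω = 0
  · rw [h0]; simp
  have hω : 0 < q ω := lt_of_le_of_ne (hq.nonneg ω) (Ne.symm h0)
  have hl := law_pos hq.nonneg g hω
  split_ifs
  · have h1 := h ω hω s
    rw [div_mul_eq_mul_div, div_le_iff₀ hl]
    nlinarith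
  · simp

/-- The event which is removed: labels with a popular value. -/
def Pop (q : Ω → ℝ) (c : Ω → S') (g : Ω → T) (r : S' → S → Prop) (ρ : ℝ) (ω : Ω) : Prop :=
  ∃ s, ρ * law q g (g ω) < mas q c g r (g ω) s

/-- After cleaning, the nonconcentration holds at every point. -/
theorem Stb.clean {p : Ω → ℝ} (hp : IsLaw p) {κ : ℝ} (hκ : 2 * Real.log 2 ≤ κ) {A : Ω → Prop}
    (hA : 0 < Pe p A) {c : Ω → S'} {g : Ω → T} {r : S' → S → Prop} [Nonempty S]
    (hs : Stb p κ A (Fn c g r)) (hn : ¬ Fn c g r A) {N : Ω → Prop}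
    (hN : N = Pop (Pool.Agent.H49.Ent.cond p A True) c g r (Real.exp (-(κ / 2)))) :
    Pe p (fun ω => A ω ∧ N ω) ≤ Pe p A / 2 ∧
      NonConc (Pool.Agent.H49.Ent.cond p (fun ω => A ω ∧ ¬ N ω) True) c g r
        (Real.exp (-(κ / 2))) := by
  classical
  set q := Pool.Agent.H49.Ent.cond p A True with hq'
  have hq : IsLaw q := isLaw_cond hp hA
  have h1 : Pe p (fun ω => A ω ∧ N ω) ≤ Real.exp (-(κ / 2)) * Pe p A := by
    have := hs.point hp hA hn
    rw [Pe_cond, div_le_iff₀ hA] at this
    rw [hN]
    exact this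
  have h2 : Real.exp (-(κ / 2)) ≤ 1 / 2 := by
    rw [show (1 / 2 : ℝ) = Real.exp (-Real.log 2) by
      rw [Real.exp_neg, Real.exp_log (by norm_num)]; norm_num]
    exact Real.exp_le_exp.2 (by linarith)
  have h3 : Pe p (fun ω => A ω ∧ N ω) ≤ Pe p A / 2 := by nlinarith
  refine ⟨h3, ?_⟩
  set A' : Ω → Prop := fun ω => A ω ∧ ¬ N ω with hA'
  have hA'0 : 0 < Pe p A' := by
    have := Pe_diff h3
    exact lt_of_lt_of_le (mul_pos (Real.exp_pos _) hA) this
  -- on the fibres of `g` the two conditional laws are proportional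
  have hNg : ∀ ω ω', g ω = g ω' → (N ω ↔ N ω') := by
    intro ω ω' h
    rw [hN]
    unfold Pop
    rw [h]
  have hfib : ∀ ω₀, ¬ N ω₀ → ∀ ω, g ω = g ω₀ →
      Pool.Agent.H49.Ent.cond p A' True ω = Pe p A / Pe p A' * q ω := by
    intro ω₀ h0 ω hω
    have hNω : ¬ N ω := fun h => h0 ((hNg ω ω₀ hω).1 h)
    rw [hq']
    unfold Pool.Agent.H49.Ent.cond
    by_cases hAω : A ω
    · rw [if_pos (by simp [hA', hAω, hNω]), if_pos (by simp [hAω])]
      rw [div_mul_div_comm, mul_comm (Pe p A), mul_div_mul_right _ _ hA.ne']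
    · rw [if_neg (by simp [hA', hAω]), if_neg (by simp [hAω]), mul_zero]
  intro ω hω s
  have hω' := (cond_pos_iff hp.nonneg A' True ω).1 hω
  have hωA : A' ω := by simpa using hω'.2
  have e1 : mas (Pool.Agent.H49.Ent.cond p A' True) c g r (g ω) s =
      Pe p A / Pe p A' * mas q c g r (g ω) s := by
    unfold mas
    rw [Pe_eq (Pool.Agent.H49.Ent.cond p A' True), Pe_eq q, Finset.mul_sum]
    refine Finset.sum_congr rfl fun w _ => ?_
    by_cases h : g w = g ω ∧ r (c w) s
    · rw [if_pos h, if_pos h, hfib ω hωA.2 w h.1]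
    · rw [if_neg h, if_neg h, mul_zero]
  have e2 : law (Pool.Agent.H49.Ent.cond p A' True) g (g ω) =
      Pe p A / Pe p A' * law q g (g ω) := by
    rw [law_eq_sum (Pool.Agent.H49.Ent.cond p A' True), law_eq_sum q, Finset.mul_sum]
    refine Finset.sum_congr rfl fun w _ => ?_
    by_cases h : g w = g ω
    · rw [if_pos h, if_pos h, hfib ω hωA.2 w h]
    · rw [if_neg h, if_neg h, mul_zero]
  have e3 : mas q c g r (g ω) s ≤ Real.exp (-(κ / 2)) * law q g (g ω) := by
    by_contra h
    push Not at h
    exact hωA.2 (by rw [hN]; exact ⟨s, h⟩)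
  rw [e1, e2]
  have h5 : 0 ≤ Pe p A / Pe p A' := div_nonneg hA.le hA'0.le
  nlinarith

end Pool.K2S
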