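import Mathlib

/-!
# Choice of the context (pure)

Windows `w`, velocity scales `q`, resolutions `P = q + w + lam w`. Two defects `a₂ (w, P)` and
`a₃ (w, q)` which are summable along the chains of windows with fixed `P`, resp. fixed `q`. Then
for all but few pairs `(w, q)` both defects are small.
-/

set_option autoImplicit false

namespace Pool.K2S.Choice

open Finset

/-- One chain: all but one of the defects are counted by the sum. -/
theorem enum_bad {T : Finset ℕ} {M : ℕ} {e : ℕ → ℕ} (hT : T ⊆ (range (M + 1)).image e)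
    {f : ℕ → ℝ} (hf : ∀ j < M, 0 ≤ f (e j)) {c B : ℝ} (hc : 0 < c)
    (hsum : ∑ j ∈ range M, f (e j) ≤ B) :
    ((T.filter fun w => c < f w).card : ℝ) ≤ 1 + B / c := by
  classical
  have h1 : (T.filter fun w => c < f w) ⊆
      insert (e M) (((range M).filter fun j => c < f (e j)).image e) := by
    intro w hw
    rw [Finset.mem_filter] at hw
    obtain ⟨j, hj, rfl⟩ := Finset.mem_image.1 (hT hw.1)
    rw [Finset.mem_range] at hj
    rcases Nat.lt_succ_iff_lt_or_eq.1 hj with h | h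
    · exact Finset.mem_insert_of_mem (Finset.mem_image.2 ⟨j, Finset.mem_filter.2
        ⟨Finset.mem_range.2 h, hw.2⟩, rfl⟩)
    · rw [h]
      exact Finset.mem_insert_self _ _
  have h2 : (T.filter fun w => c < f w).card ≤
      ((range M).filter fun j => c < f (e j)).card + 1 :=
    (Finset.card_le_card h1).trans ((Finset.card_insert_le _ _).trans
      (Nat.add_le_add_right Finset.card_image_le 1))
  have h3 : (((range M).filter fun j => c < f (e j)).card : ℝ) * c ≤ B := by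
    refine le_trans ?_ hsum
    calc (((range M).filter fun j => c < f (e j)).card : ℝ) * c
        = ∑ j ∈ (range M).filter fun j => c < f (e j), c := by
          rw [Finset.sum_const, nsmul_eq_mul]
      _ ≤ ∑ j ∈ (range M).filter fun j => c < f (e j), f (e j) :=
          Finset.sum_le_sum fun j hj => (Finset.mem_filter.1 hj).2.le
      _ ≤ ∑ j ∈ range M, f (e j) :=
          Finset.sum_le_sum_of_subset_of_nonneg (Finset.filter_subset _ _)
            fun j hj _ => hf j (Finset.mem_range.1 hj)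
  have h4 : (((range M).filter fun j => c < f (e j)).card : ℝ) ≤ B / c := by
    rw [le_div_iff₀ hc]
    exact h3
  have h5 : ((T.filter fun w => c < f w).card : ℝ) ≤
      (((range M).filter fun j => c < f (e j)).card : ℝ) + 1 := by exact_mod_cast h2
  linarith

/-- A chain of windows, increasing. -/
theorem chain_up {T : Finset ℕ} {s' : ℕ} {f : ℕ → ℝ} (hf : ∀ w ∈ T, 0 ≤ f w)
    (sep : ∀ a ∈ T, ∀ b ∈ T, a < b → a + s' ≤ b) {s c eps : ℝ} (hs : 0 ≤ s) (hc : 0 < c)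
    (heps : 0 ≤ eps)
    (H : ∀ (m : ℕ) (w : ℕ → ℕ), (∀ j ≤ m, w j ∈ T) → (∀ j < m, w j + s' ≤ w (j + 1)) →
      ∑ j ∈ range m, f (w j) ≤ s + eps * (m + 1)) :
    ((T.filter fun w => c < f w).card : ℝ) ≤ 1 + (s + eps * T.card) / c := by
  classical
  rcases T.eq_empty_or_nonempty with rfl | hne
  · simp only [Finset.filter_empty, Finset.card_empty, Nat.cast_zero, mul_zero, add_zero]
    positivity
  obtain ⟨M, hM⟩ : ∃ M, T.card = M + 1 := Nat.exists_eq_succ_of_ne_zero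
    (Finset.card_ne_zero.2 hne)
  obtain ⟨e, he⟩ : ∃ e : ℕ → ℕ, e = fun j => if h : j < M + 1 then
    (T.orderEmbOfFin hM ⟨j, h⟩) else 0 := ⟨_, rfl⟩
  have hej : ∀ j (h : j < M + 1), e j = T.orderEmbOfFin hM ⟨j, h⟩ := by
    intro j h
    rw [he]
    exact dif_pos h
  have hmem : ∀ j ≤ M, e j ∈ T := by
    intro j hj
    rw [hej j (by omega)]
    exact Finset.orderEmbOfFin_mem _ _ _
  have hsum := H M e hmem (by
    intro j hj
    refine sep _ (hmem j (by omega)) _ (hmem (j + 1) (by omega)) ?_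
    rw [hej j (by omega), hej (j + 1) (by omega)]
    exact (T.orderEmbOfFin hM).strictMono (by
      rw [Fin.lt_def]
      exact Nat.lt_succ_self j))
  have key := enum_bad (T := T) (M := M) (e := e) (f := f) (by
    intro w hw
    have : w ∈ Set.range (T.orderEmbOfFin hM) := by
      rw [Finset.range_orderEmbOfFin]
      exact hw
    obtain ⟨j, rfl⟩ := this
    refine Finset.mem_image.2 ⟨j, Finset.mem_range.2 j.2, ?_⟩
    rw [hej j j.2]) (fun j hj => hf _ (hmem j hj.le)) hc hsum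
  refine key.trans (le_of_eq ?_)
  rw [hM]
  push_cast
  ring

/-- A chain of windows, decreasing. -/
theorem chain_down {T : Finset ℕ} {s' : ℕ} {f : ℕ → ℝ} (hf : ∀ w ∈ T, 0 ≤ f w)
    (sep : ∀ a ∈ T, ∀ b ∈ T, a < b → a + s' ≤ b) {s c eps : ℝ} (hs : 0 ≤ s) (hc : 0 < c)
    (heps : 0 ≤ eps)
    (H : ∀ (m : ℕ) (w : ℕ → ℕ), (∀ j ≤ m, w j ∈ T) → (∀ j < m, w (j + 1) + s' ≤ w j) →
      ∑ j ∈ range m, f (w j) ≤ s + eps * (m + 1)) :
    ((T.filter fun w => c < f w).card : ℝ) ≤ 1 + (s + eps * T.card) / c := by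
  classical
  rcases T.eq_empty_or_nonempty with rfl | hne
  · simp only [Finset.filter_empty, Finset.card_empty, Nat.cast_zero, mul_zero, add_zero]
    positivity
  obtain ⟨M, hM⟩ : ∃ M, T.card = M + 1 := Nat.exists_eq_succ_of_ne_zero
    (Finset.card_ne_zero.2 hne)
  obtain ⟨e, he⟩ : ∃ e : ℕ → ℕ, e = fun j => if h : j < M + 1 then
    (T.orderEmbOfFin hM ⟨M - j, by omega⟩) else 0 := ⟨_, rfl⟩
  have hej : ∀ j (_ : j < M + 1), e j = T.orderEmbOfFin hM ⟨M - j, by omega⟩ := by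
    intro j h
    rw [he]
    exact dif_pos h
  have hmem : ∀ j ≤ M, e j ∈ T := by
    intro j hj
    rw [hej j (by omega)]
    exact Finset.orderEmbOfFin_mem _ _ _
  have hsum := H M e hmem (by
    intro j hj
    refine sep _ (hmem (j + 1) (by omega)) _ (hmem j (by omega)) ?_
    rw [hej j (by omega), hej (j + 1) (by omega)]
    exact (T.orderEmbOfFin hM).strictMono (by
      rw [Fin.lt_def]
      change M - (j + 1) < M - j
      omega))
  have key := enum_bad (T := T) (M := M) (e := e) (f := f) (by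
    intro w hw
    have : w ∈ Set.range (T.orderEmbOfFin hM) := by
      rw [Finset.range_orderEmbOfFin]
      exact hw
    obtain ⟨⟨j, hj⟩, rfl⟩ := this
    refine Finset.mem_image.2 ⟨M - j, Finset.mem_range.2 (by omega), ?_⟩
    rw [hej (M - j) (by omega)]
    congr 1
    exact Fin.ext (by
      change M - (M - j) = j
      omega)) (fun j hj => hf _ (hmem j hj.le)) hc hsum
  refine key.trans (le_of_eq ?_)
  rw [hM]
  push_cast
  ring

theorem sep_mod {a b r s' : ℕ} (ha : a % s' = r) (hb : b % s' = r) (h : a < b) :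
    a + s' ≤ b := by
  have h1 : a ≡ b [MOD s'] := by
    unfold Nat.ModEq
    rw [ha, hb]
  have h2 : s' ∣ b - a := (Nat.modEq_iff_dvd' h.le).1 h1
  have h3 : s' ≤ b - a := Nat.le_of_dvd (by omega) h2
  omega

/-- **Bad pairs for fixed `P`.** -/
theorem bad_two (wa q0 n k Λ s2 : ℕ) (lam : ℕ → ℕ) {s io eps : ℝ} (a2 : ℕ → ℕ → ℝ)
    (hs2 : 0 < s2) (hs : 0 < s) (hio : 0 < io) (heps : 0 ≤ eps)
    (hlam : ∀ w, wa ≤ w → w < wa + n → lam wa ≤ lam w ∧ lam w ≤ lam wa + Λ)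
    (h2 : ∀ w q, wa ≤ w → w < wa + n → q0 ≤ q → q < q0 + k → 0 ≤ a2 w (q + w + lam w))
    (H2 : ∀ (P m : ℕ) (w : ℕ → ℕ), (∀ j ≤ m, wa ≤ w j ∧ w j < wa + n ∧
      q0 + w j + lam (w j) ≤ P ∧ P < q0 + k + w j + lam (w j)) →
      (∀ j < m, w (j + 1) + s2 ≤ w j) → ∑ j ∈ range m, a2 (w j) P ≤ s + eps * (m + 1)) :
    ((((Ico wa (wa + n)) ×ˢ (Ico q0 (q0 + k))).filter fun x =>
      io * s < a2 x.1 (x.2 + x.1 + lam x.1)).card : ℝ) ≤
      (k + n + Λ) * s2 * (1 + 1 / io) + eps / (io * s) * (n * k) := by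
  classical
  obtain ⟨R, hR⟩ : ∃ R : Finset (ℕ × ℕ), R = (Ico (q0 + wa + lam wa)
    (q0 + wa + lam wa + (k + n + Λ))) ×ˢ (range s2) := ⟨_, rfl⟩
  obtain ⟨T, hT⟩ : ∃ T : ℕ × ℕ → Finset ℕ, T = fun y => (Ico wa (wa + n)).filter fun w =>
    w % s2 = y.2 ∧ q0 + w + lam w ≤ y.1 ∧ y.1 < q0 + k + w + lam w := ⟨_, rfl⟩
  obtain ⟨Pr, hPr⟩ : ∃ Pr : Finset (ℕ × ℕ), Pr = (Ico wa (wa + n)) ×ˢ (Ico q0 (q0 + k)) :=
    ⟨_, rfl⟩
  obtain ⟨φ, hφ⟩ : ∃ φ : ℕ × ℕ → ℕ × ℕ, φ = fun x => (x.2 + x.1 + lam x.1, x.1 % s2) :=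
    ⟨_, rfl⟩
  have hmaps : ∀ x ∈ Pr, φ x ∈ R := by
    intro x hx
    rw [hPr, Finset.mem_product, Finset.mem_Ico, Finset.mem_Ico] at hx
    obtain ⟨l1, l2⟩ := hlam x.1 hx.1.1 hx.1.2
    rw [hR, hφ, Finset.mem_product, Finset.mem_Ico, Finset.mem_range]
    refine ⟨⟨?_, ?_⟩, Nat.mod_lt _ hs2⟩
    · change q0 + wa + lam wa ≤ x.2 + x.1 + lam x.1
      omega
    · change x.2 + x.1 + lam x.1 < q0 + wa + lam wa + (k + n + Λ)
      omega
  -- fibres
  have hfib : ∀ (g : ℕ → ℕ → Prop) [∀ w P, Decidable (g w P)], ∀ y ∈ R,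
      ((Pr.filter fun x => g x.1 (x.2 + x.1 + lam x.1)).filter fun x => φ x = y).card =
        ((T y).filter fun w => g w y.1).card := by
    intro g _ y hy
    refine Finset.card_bij (fun x _ => x.1) ?_ ?_ ?_
    · intro x hx
      rw [Finset.mem_filter, Finset.mem_filter, hPr, Finset.mem_product, Finset.mem_Ico,
        Finset.mem_Ico, hφ] at hx
      obtain ⟨⟨⟨hx1, hx2⟩, hg⟩, hxy⟩ := hx
      have e1 : x.2 + x.1 + lam x.1 = y.1 := congrArg Prod.fst hxy
      have e2 : x.1 % s2 = y.2 := congrArg Prod.snd hxy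
      rw [e1] at hg
      rw [Finset.mem_filter, hT, Finset.mem_filter, Finset.mem_Ico]
      exact ⟨⟨hx1, e2, by omega, by omega⟩, hg⟩
    · intro x hx x' hx' h
      rw [Finset.mem_filter, hφ] at hx hx'
      have e1 : x.2 + x.1 + lam x.1 = y.1 := congrArg Prod.fst hx.2
      have e2 : x'.2 + x'.1 + lam x'.1 = y.1 := congrArg Prod.fst hx'.2
      have h' : x.1 = x'.1 := h
      rw [h'] at e1
      exact Prod.ext h' (by omega)
    · intro w hw
      rw [Finset.mem_filter, hT, Finset.mem_filter, Finset.mem_Ico] at hw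
      obtain ⟨⟨hw1, hw2, hw3, hw4⟩, hg⟩ := hw
      have e1 : y.1 - w - lam w + w + lam w = y.1 := by omega
      refine ⟨(w, y.1 - w - lam w), ?_, rfl⟩
      rw [Finset.mem_filter, Finset.mem_filter, hPr, Finset.mem_product, Finset.mem_Ico,
        Finset.mem_Ico, hφ]
      refine ⟨⟨⟨hw1, ?_, ?_⟩, ?_⟩, ?_⟩
      · change q0 ≤ y.1 - w - lam w
        omega
      · change y.1 - w - lam w < q0 + k
        omega
      · change g w (y.1 - w - lam w + w + lam w)
        rw [e1]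
        exact hg
      · change (y.1 - w - lam w + w + lam w, w % s2) = y
        rw [e1, hw2]
  -- the chains
  have hchain : ∀ y ∈ R, (((T y).filter fun w => io * s < a2 w y.1).card : ℝ) ≤
      1 + (s + eps * (T y).card) / (io * s) := by
    intro y hy
    have hTm : ∀ w ∈ T y, wa ≤ w ∧ w < wa + n ∧ w % s2 = y.2 ∧ q0 + w + lam w ≤ y.1 ∧
        y.1 < q0 + k + w + lam w := by
      intro w hw
      rw [hT, Finset.mem_filter, Finset.mem_Ico] at hw
      exact ⟨hw.1.1, hw.1.2, hw.2⟩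
    refine chain_down (s' := s2) (f := fun w => a2 w y.1) ?_ ?_ hs.le (by positivity) heps ?_
    · intro w hw
      obtain ⟨g1, g2, g3, g4, g5⟩ := hTm w hw
      have e1 : y.1 - w - lam w + w + lam w = y.1 := by omega
      have := h2 w (y.1 - w - lam w) g1 g2 (by omega) (by omega)
      rw [e1] at this
      exact this
    · intro a ha b hb hab
      exact sep_mod (hTm a ha).2.2.1 (hTm b hb).2.2.1 hab
    · intro m w hw hst
      exact H2 y.1 m w (fun j hj => ⟨(hTm _ (hw j hj)).1, (hTm _ (hw j hj)).2.1,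
        (hTm _ (hw j hj)).2.2.2.1, (hTm _ (hw j hj)).2.2.2.2⟩) hst
  -- sums
  have hcard : (((Pr.filter fun x => io * s < a2 x.1 (x.2 + x.1 + lam x.1)).card : ℕ) : ℝ) =
      ∑ y ∈ R, (((T y).filter fun w => io * s < a2 w y.1).card : ℝ) := by
    rw [Finset.card_eq_sum_card_fiberwise (f := φ) (t := R) (fun x hx =>
      hmaps x (Finset.mem_filter.1 hx).1)]
    push_cast
    refine Finset.sum_congr rfl fun y hy => ?_
    rw [hfib (fun w P => io * s < a2 w P) y hy]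
  have hall : ∑ y ∈ R, ((T y).card : ℝ) = n * k := by
    have h1 : (Pr.filter fun _ => True).card = ∑ y ∈ R, ((T y).filter fun _ => True).card := by
      rw [Finset.card_eq_sum_card_fiberwise (f := φ) (t := R) (fun x hx =>
        hmaps x (Finset.mem_filter.1 hx).1)]
      refine Finset.sum_congr rfl fun y hy => ?_
      rw [hfib (fun _ _ => True) y hy]
    simp only [Finset.filter_true] at h1
    rw [hPr, Finset.card_product, Nat.card_Ico, Nat.card_Ico] at h1
    have h2 : wa + n - wa = n := by omega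
    have h3 : q0 + k - q0 = k := by omega
    rw [h2, h3] at h1
    exact_mod_cast h1.symm
  have hRc : ((R.card : ℕ) : ℝ) = (k + n + Λ) * s2 := by
    rw [hR, Finset.card_product, Nat.card_Ico, Finset.card_range]
    have h2 : q0 + wa + lam wa + (k + n + Λ) - (q0 + wa + lam wa) = k + n + Λ := by omega
    rw [h2]
    push_cast
    ring
  rw [← hPr, hcard]
  calc ∑ y ∈ R, (((T y).filter fun w => io * s < a2 w y.1).card : ℝ)
      ≤ ∑ y ∈ R, (1 + (s + eps * (T y).card) / (io * s)) := Finset.sum_le_sum hchain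
    _ = ∑ y ∈ R, ((1 + 1 / io) + eps / (io * s) * (T y).card) := by
        refine Finset.sum_congr rfl fun y _ => ?_
        field_simp
        ring
    _ = (k + n + Λ) * s2 * (1 + 1 / io) + eps / (io * s) * (n * k) := by
        rw [Finset.sum_add_distrib, Finset.sum_const, nsmul_eq_mul, hRc, ← Finset.mul_sum, hall]

/-- **Bad pairs for fixed `q`.** -/
theorem bad_three (wa q0 n k s3 : ℕ) {s io eps : ℝ} (a3 : ℕ → ℕ → ℝ)
    (hs3 : 0 < s3) (hs : 0 < s) (hio : 0 < io) (heps : 0 ≤ eps)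
    (h3 : ∀ w q, wa ≤ w → w < wa + n → q0 ≤ q → q < q0 + k → 0 ≤ a3 w q)
    (H3 : ∀ (q m : ℕ) (w : ℕ → ℕ), q0 ≤ q → q < q0 + k → (∀ j ≤ m, wa ≤ w j ∧ w j < wa + n) →
      (∀ j < m, w j + s3 ≤ w (j + 1)) → ∑ j ∈ range m, a3 (w j) q ≤ s + eps * (m + 1)) :
    ((((Ico wa (wa + n)) ×ˢ (Ico q0 (q0 + k))).filter fun x => io * s < a3 x.1 x.2).card : ℝ) ≤
      k * s3 * (1 + 1 / io) + eps / (io * s) * (n * k) := by
  classical
  obtain ⟨R, hR⟩ : ∃ R : Finset (ℕ × ℕ), R = (Ico q0 (q0 + k)) ×ˢ (range s3) := ⟨_, rfl⟩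
  obtain ⟨T, hT⟩ : ∃ T : ℕ × ℕ → Finset ℕ, T = fun y => (Ico wa (wa + n)).filter fun w =>
    w % s3 = y.2 := ⟨_, rfl⟩
  obtain ⟨Pr, hPr⟩ : ∃ Pr : Finset (ℕ × ℕ), Pr = (Ico wa (wa + n)) ×ˢ (Ico q0 (q0 + k)) :=
    ⟨_, rfl⟩
  obtain ⟨φ, hφ⟩ : ∃ φ : ℕ × ℕ → ℕ × ℕ, φ = fun x => (x.2, x.1 % s3) := ⟨_, rfl⟩
  have hmaps : ∀ x ∈ Pr, φ x ∈ R := by
    intro x hx
    rw [hPr, Finset.mem_product] at hx
    rw [hR, hφ, Finset.mem_product, Finset.mem_range]
    exact ⟨hx.2, Nat.mod_lt _ hs3⟩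
  have hfib : ∀ (g : ℕ → ℕ → Prop) [∀ w P, Decidable (g w P)], ∀ y ∈ R,
      ((Pr.filter fun x => g x.1 x.2).filter fun x => φ x = y).card =
        ((T y).filter fun w => g w y.1).card := by
    intro g _ y hy
    rw [hR, Finset.mem_product] at hy
    refine Finset.card_bij (fun x _ => x.1) ?_ ?_ ?_
    · intro x hx
      rw [Finset.mem_filter, Finset.mem_filter, hPr, Finset.mem_product, hφ] at hx
      obtain ⟨⟨⟨hx1, hx2⟩, hg⟩, hxy⟩ := hx
      have e1 : x.2 = y.1 := congrArg Prod.fst hxy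
      have e2 : x.1 % s3 = y.2 := congrArg Prod.snd hxy
      rw [e1] at hg
      rw [Finset.mem_filter, hT, Finset.mem_filter]
      exact ⟨⟨hx1, e2⟩, hg⟩
    · intro x hx x' hx' h
      rw [Finset.mem_filter, hφ] at hx hx'
      have e1 : x.2 = y.1 := congrArg Prod.fst hx.2
      have e2 : x'.2 = y.1 := congrArg Prod.fst hx'.2
      exact Prod.ext h (by rw [e1, e2])
    · intro w hw
      rw [Finset.mem_filter, hT, Finset.mem_filter] at hw
      obtain ⟨⟨hw1, hw2⟩, hg⟩ := hw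
      refine ⟨(w, y.1), ?_, rfl⟩
      rw [Finset.mem_filter, Finset.mem_filter, hPr, Finset.mem_product, hφ]
      refine ⟨⟨⟨hw1, hy.1⟩, hg⟩, ?_⟩
      change (y.1, w % s3) = y
      rw [hw2]
  have hchain : ∀ y ∈ R, (((T y).filter fun w => io * s < a3 w y.1).card : ℝ) ≤
      1 + (s + eps * (T y).card) / (io * s) := by
    intro y hy
    rw [hR, Finset.mem_product, Finset.mem_Ico] at hy
    have hTm : ∀ w ∈ T y, wa ≤ w ∧ w < wa + n ∧ w % s3 = y.2 := by
      intro w hw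
      rw [hT, Finset.mem_filter, Finset.mem_Ico] at hw
      exact ⟨hw.1.1, hw.1.2, hw.2⟩
    refine chain_up (s' := s3) (f := fun w => a3 w y.1) ?_ ?_ hs.le (by positivity) heps ?_
    · intro w hw
      obtain ⟨g1, g2, -⟩ := hTm w hw
      exact h3 w y.1 g1 g2 hy.1.1 hy.1.2
    · intro a ha b hb hab
      exact sep_mod (hTm a ha).2.2 (hTm b hb).2.2 hab
    · intro m w hw hst
      exact H3 y.1 m w hy.1.1 hy.1.2 (fun j hj => ⟨(hTm _ (hw j hj)).1,
        (hTm _ (hw j hj)).2.1⟩) hst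
  have hcard : (((Pr.filter fun x => io * s < a3 x.1 x.2).card : ℕ) : ℝ) =
      ∑ y ∈ R, (((T y).filter fun w => io * s < a3 w y.1).card : ℝ) := by
    rw [Finset.card_eq_sum_card_fiberwise (f := φ) (t := R) (fun x hx =>
      hmaps x (Finset.mem_filter.1 hx).1)]
    push_cast
    refine Finset.sum_congr rfl fun y hy => ?_
    rw [hfib (fun w P => io * s < a3 w P) y hy]
  have hall : ∑ y ∈ R, ((T y).card : ℝ) = n * k := by
    have h1 : (Pr.filter fun _ => True).card = ∑ y ∈ R, ((T y).filter fun _ => True).card := by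
      rw [Finset.card_eq_sum_card_fiberwise (f := φ) (t := R) (fun x hx =>
        hmaps x (Finset.mem_filter.1 hx).1)]
      refine Finset.sum_congr rfl fun y hy => ?_
      rw [hfib (fun _ _ => True) y hy]
    simp only [Finset.filter_true] at h1
    rw [hPr, Finset.card_product, Nat.card_Ico, Nat.card_Ico] at h1
    have h2 : wa + n - wa = n := by omega
    have h3 : q0 + k - q0 = k := by omega
    rw [h2, h3] at h1
    exact_mod_cast h1.symm
  have hRc : ((R.card : ℕ) : ℝ) = k * s3 := by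
    rw [hR, Finset.card_product, Nat.card_Ico, Finset.card_range]
    have h2 : q0 + k - q0 = k := by omega
    rw [h2]
    push_cast
    ring
  rw [← hPr, hcard]
  calc ∑ y ∈ R, (((T y).filter fun w => io * s < a3 w y.1).card : ℝ)
      ≤ ∑ y ∈ R, (1 + (s + eps * (T y).card) / (io * s)) := Finset.sum_le_sum hchain
    _ = ∑ y ∈ R, ((1 + 1 / io) + eps / (io * s) * (T y).card) := by
        refine Finset.sum_congr rfl fun y _ => ?_
        field_simp
        ring
    _ = k * s3 * (1 + 1 / io) + eps / (io * s) * (n * k) := by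
        rw [Finset.sum_add_distrib, Finset.sum_const, nsmul_eq_mul, hRc, ← Finset.mul_sum, hall]

/-- **Choice of the context.** `Bd` is a further set of bad pairs. -/
theorem choice (wa q0 n k Λ s2 s3 : ℕ) (lam : ℕ → ℕ) {s io eps : ℝ} (G : Finset ℕ)
    (Bd : Finset (ℕ × ℕ)) (a2 a3 : ℕ → ℕ → ℝ)
    (hs2 : 0 < s2) (hs3 : 0 < s3) (hs : 0 < s) (hio : 0 < io) (hio1 : io ≤ 1) (heps : 0 ≤ eps)
    (hG : ∀ q ∈ G, q0 ≤ q ∧ q < q0 + k)
    (hlam : ∀ w, wa ≤ w → w < wa + n → lam wa ≤ lam w ∧ lam w ≤ lam wa + Λ)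
    (h2 : ∀ w q, wa ≤ w → w < wa + n → q0 ≤ q → q < q0 + k → 0 ≤ a2 w (q + w + lam w))
    (h3 : ∀ w q, wa ≤ w → w < wa + n → q0 ≤ q → q < q0 + k → 0 ≤ a3 w q)
    (H2 : ∀ (P m : ℕ) (w : ℕ → ℕ), (∀ j ≤ m, wa ≤ w j ∧ w j < wa + n ∧
      q0 + w j + lam (w j) ≤ P ∧ P < q0 + k + w j + lam (w j)) →
      (∀ j < m, w (j + 1) + s2 ≤ w j) → ∑ j ∈ range m, a2 (w j) P ≤ s + eps * (m + 1))
    (H3 : ∀ (q m : ℕ) (w : ℕ → ℕ), q0 ≤ q → q < q0 + k → (∀ j ≤ m, wa ≤ w j ∧ w j < wa + n) →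
      (∀ j < m, w j + s3 ≤ w (j + 1)) → ∑ j ∈ range m, a3 (w j) q ≤ s + eps * (m + 1))
    (hcond : 2 / io * ((k + n + Λ) * s2 + k * s3) + 2 * (eps / (io * s)) * (n * k) + Bd.card <
      n * G.card) :
    ∃ w q, wa ≤ w ∧ w < wa + n ∧ q ∈ G ∧ (w, q) ∉ Bd ∧ a2 w (q + w + lam w) ≤ io * s ∧
      a3 w q ≤ io * s := by
  classical
  have b2 := bad_two wa q0 n k Λ s2 lam a2 hs2 hs hio heps hlam h2 H2
  have b3 := bad_three wa q0 n k s3 a3 hs3 hs hio heps h3 H3
  obtain ⟨B2, hB2⟩ : ∃ B2 : Finset (ℕ × ℕ), B2 = ((Ico wa (wa + n)) ×ˢ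
    (Ico q0 (q0 + k))).filter fun x => io * s < a2 x.1 (x.2 + x.1 + lam x.1) := ⟨_, rfl⟩
  obtain ⟨B3, hB3⟩ : ∃ B3 : Finset (ℕ × ℕ), B3 = ((Ico wa (wa + n)) ×ˢ
    (Ico q0 (q0 + k))).filter fun x => io * s < a3 x.1 x.2 := ⟨_, rfl⟩
  rw [← hB2] at b2
  rw [← hB3] at b3
  by_contra hcon
  push Not at hcon
  have hsub : (Ico wa (wa + n)) ×ˢ G ⊆ (B2 ∪ B3) ∪ Bd := by
    rintro ⟨w, q⟩ hx
    rw [Finset.mem_product, Finset.mem_Ico] at hx
    obtain ⟨⟨hw1, hw2⟩, hq⟩ := hx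
    have hq' := hG q hq
    by_contra hn
    rw [Finset.mem_union, Finset.mem_union] at hn
    push Not at hn
    obtain ⟨⟨n2, n3⟩, nB⟩ := hn
    have hP : (w, q) ∈ (Ico wa (wa + n)) ×ˢ (Ico q0 (q0 + k)) := by
      rw [Finset.mem_product, Finset.mem_Ico, Finset.mem_Ico]
      exact ⟨⟨hw1, hw2⟩, hq'⟩
    have g2 : a2 w (q + w + lam w) ≤ io * s := by
      by_contra h
      push Not at h
      exact n2 (by rw [hB2, Finset.mem_filter]; exact ⟨hP, h⟩)
    have g3 : a3 w q ≤ io * s := by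
      by_contra h
      push Not at h
      exact n3 (by rw [hB3, Finset.mem_filter]; exact ⟨hP, h⟩)
    exact absurd g3 (not_le.2 (hcon w q hw1 hw2 hq nB g2))
  have hc1 := Finset.card_le_card hsub
  have hc2 := hc1.trans ((Finset.card_union_le _ _).trans
    (Nat.add_le_add_right (Finset.card_union_le _ _) _))
  rw [Finset.card_product, Nat.card_Ico] at hc2
  have e1 : wa + n - wa = n := by omega
  rw [e1] at hc2
  have hc3 : (n : ℝ) * G.card ≤ (B2.card + B3.card) + Bd.card := by exact_mod_cast hc2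
  have hi : 1 + 1 / io ≤ 2 / io := by
    have : 1 ≤ 1 / io := by rw [le_div_iff₀ hio]; linarith
    have e : 2 / io = 1 / io + 1 / io := by ring
    rw [e]
    linarith
  have k1 : ((k : ℝ) + n + Λ) * s2 * (1 + 1 / io) ≤ (k + n + Λ) * s2 * (2 / io) :=
    mul_le_mul_of_nonneg_left hi (by positivity)
  have k2 : (k : ℝ) * s3 * (1 + 1 / io) ≤ k * s3 * (2 / io) :=
    mul_le_mul_of_nonneg_left hi (by positivity)
  have e2 : 2 / io * (((k : ℝ) + n + Λ) * s2 + k * s3) =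
      (k + n + Λ) * s2 * (2 / io) + k * s3 * (2 / io) := by ring
  have e3 : 2 * (eps / (io * s)) * ((n : ℝ) * k) =
      eps / (io * s) * (n * k) + eps / (io * s) * (n * k) := by ring
  rw [e2, e3] at hcond
  linarith

end Pool.K2S.Choice
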