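import Pool.Agent.H35.K2S.FFX3
import Pool.Agent.H13.K2S.Skel

/-!
# Flat fans: the first step

If the fans at exact points are flat to precision `lam` and the frames are conserved to precision
`lam` on windows of length `2 ^ (-w)`, where the row `w + lam` is in the tail, then the fans are flat
to a macroscopically better precision.
-/

set_option autoImplicit false

namespace Pool.K2S

open Finset Real
open Pool.Agent.H49.Ent Pool.Agent.H32.Dense Pool.STK Pool.KA Pool.KSAT Pool.KA.Win Pool.KA.TRC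
open Rows

/-- **(FF)** -/
theorem ff_thm (hO : AOPStmt) (h6 : AP6RStmt) : FFStmt := by
  intro a R ha hR hU X h₁ ω₀ hX hh₁ hω₀
  have hl2 : 0 < Real.log 2 := Real.log_pos (by norm_num)
  have ha0 : 0 < a := by linarith only [ha]
  obtain ⟨C₀, hC₀, hsum⟩ := FF.sum_rows
  obtain ⟨n₁, hn₁, ε, hε, hnum⟩ := FF.num ha.le hR hX
  obtain ⟨n₂, hn₂⟩ : ∃ n₂ : ℕ, n₂ = max (4 * (n₁ * n₁)) (⌈2 / h₁⌉₊ + 1) := ⟨_, rfl⟩
  have hn₂1 : 4 * (n₁ * n₁) ≤ n₂ := by rw [hn₂]; exact le_max_left _ _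
  have hn₂2 : 2 / h₁ ≤ n₂ := by
    have h1 : ⌈2 / h₁⌉₊ ≤ n₂ := by
      rw [hn₂]
      exact (Nat.le_succ _).trans (le_max_right _ _)
    exact (Nat.le_ceil _).trans (by exact_mod_cast h1)
  have hn₂0 : 0 < n₂ := by
    rw [hn₂]
    exact lt_of_lt_of_le (Nat.succ_pos _) (le_max_right _ _)
  have hn₂r : (0 : ℝ) < n₂ := by exact_mod_cast hn₂0
  obtain ⟨C₁, hC₁⟩ : ∃ C₁ : ℝ, C₁ = ((2 : ℕ) : ℝ) * Real.log (2 * 4 + 5) +
    2 * (((2 : ℕ) : ℝ) * Real.log 3) := ⟨_, rfl⟩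
  obtain ⟨J₃, hJ₃⟩ := hnum n₂ hn₂1 C₀ C₁
  obtain ⟨τ₁, hτ₁, J₄, hrows⟩ := rows_up (m := 2) hO ha.le hU (c := h₁ / 2) (half_pos hh₁) hε
  obtain ⟨τ₂, hτ₂, J₅, hball⟩ := not_ball h6 (m := 2) ha.le hR hU
    (x := 1 / (16 * (n₂ : ℝ))) (by positivity)
  obtain ⟨δ, hδ⟩ : ∃ δ, δ = FF.dlt 2 4 (FF.vis 2) (2 * n₁) (2 * n₁) + 1 := ⟨_, rfl⟩
  have hδ0 : 0 < δ := by
    rw [hδ]
    have := FF.dlt_nonneg (m := 2) (FF.vis_nonneg 2) (2 * n₁) (2 * n₁)
    linarith only [this]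
  obtain ⟨τ', hτ'⟩ : ∃ τ', τ' = min (min τ₁ τ₂) ε := ⟨_, rfl⟩
  have hτ'0 : 0 < τ' := by rw [hτ']; positivity
  have hτ'1 : τ' ≤ τ₁ := by rw [hτ']; exact (min_le_left _ _).trans (min_le_left _ _)
  have hτ'2 : τ' ≤ τ₂ := by rw [hτ']; exact (min_le_left _ _).trans (min_le_right _ _)
  have hτ'3 : τ' ≤ ε := by rw [hτ']; exact min_le_right _ _
  obtain ⟨τ, hτ⟩ : ∃ τ, τ = τ' / (7 * (1 + a)) := ⟨_, rfl⟩
  have hτ0 : 0 < τ := by rw [hτ]; positivity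
  have hτe : (1 + a) * (5 * τ + 2 * τ) = τ' := by
    rw [hτ]
    field_simp
    ring
  refine ⟨1 / (8 * (n₂ : ℝ)), by positivity, 1, fun N hN i₀ p j hjp hpN hXp hhj hωj => ?_⟩
  refine Claim.one ⟨2, fun J F i => if i = 0 then
      Ball (1 / 2 ^ (J / n₂ / 4 - 1)) (K2S.Fam.pt F) F.d
      else LineU i₀ (1 / 2 ^ (j * (J / N) + J / n₂ / 4)) (K2S.Fam.pt F) F.d, ?_⟩
    fun κ hκ => ?_
  · intro J F i
    by_cases hi : i = 0
    · simp only [hi, if_true]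
      exact Ball.hered _ _ _
    · simp only [hi, if_false]
      exact LineU.hered _ _ _ _
  obtain ⟨J₁, hJ₁⟩ := exists_nat_gt ((2 * |Real.log ε| + 2 * δ + 6 * Real.log 2) / κ +
    (2 * δ + 4 * Real.log 2) / τ + 24 / h₁ + 2 * N + J₃ + J₄ + J₅)
  refine ⟨τ, hτ0, J₁, ?_⟩
  intro J hJ F A hS hstab hLb hLn hCn
  have hJr : (J₁ : ℝ) ≤ J := by exact_mod_cast hJ
  have t1 : 0 ≤ (2 * |Real.log ε| + 2 * δ + 6 * Real.log 2) / κ := by positivity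
  have t2 : 0 ≤ (2 * δ + 4 * Real.log 2) / τ := by positivity
  have t3 : 0 ≤ 24 / h₁ := by positivity
  have t4 : (0 : ℝ) ≤ 2 * N := by positivity
  have t5 : (0 : ℝ) ≤ J₃ := by positivity
  have t6 : (0 : ℝ) ≤ J₄ := by positivity
  have t7 : (0 : ℝ) ≤ J₅ := by positivity
  have j1 : (2 * |Real.log ε| + 2 * δ + 6 * Real.log 2) / κ < J := by linarith only [hJ₁, hJr, t2, t3]
  have j2 : (2 * δ + 4 * Real.log 2) / τ < J := by linarith only [hJ₁, hJr, t1, t3]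
  have j3 : 24 / h₁ < J := by linarith only [hJ₁, hJr, t1, t2]
  have j4 : 2 * (N : ℝ) ≤ J := by linarith only [hJ₁, hJr, t1, t2, t3]
  have j5 : (J₃ : ℝ) ≤ J := by linarith only [hJ₁, hJr, t1, t2, t3]
  have j6 : (J₄ : ℝ) ≤ J := by linarith only [hJ₁, hJr, t1, t2, t3]
  have j7 : (J₅ : ℝ) ≤ J := by linarith only [hJ₁, hJr, t1, t2, t3]
  rw [div_lt_iff₀ hκ] at j1
  rw [div_lt_iff₀ hτ0] at j2
  have j4' : 2 * N ≤ J := by exact_mod_cast j4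
  have j5' : J ≥ J₃ := by exact_mod_cast j5
  have j6' : J ≥ J₄ := by exact_mod_cast j6
  have j7' : J ≥ J₅ := by exact_mod_cast j7
  obtain ⟨n1, n2, n3, hcontra⟩ := hJ₃ J j5'
  obtain ⟨m1, m2, m3, m4, m5, m6, m7, m8, m9⟩ := FF.room hn₂0 hN hn₂2 hh₁ hjp hpN hXp hhj n3
    j4' j3
  obtain ⟨hTr, hMx, hRb, hPA⟩ := hS
  have hp := F.isLaw
  have hA0 : 0 < Pe F.p A := lt_of_lt_of_le (Real.exp_pos _) hPA
  -- it suffices to treat the largest precision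
  suffices hmain : Ln F i₀ (j * (J / N) + J / n₂ / 4) A by
    intro h hh
    refine hmain.mono ?_
    have : (h : ℝ) ≤ ((J / n₂ / 4 : ℕ) : ℝ) := hh.trans m8
    have : h ≤ J / n₂ / 4 := by exact_mod_cast this
    omega
  by_contra hnot
  obtain ⟨lam, hlam⟩ : ∃ lam, lam = j * (J / N) := ⟨_, rfl⟩
  obtain ⟨w, hw⟩ : ∃ w, w = (p - j) * (J / N) := ⟨_, rfl⟩
  obtain ⟨P, hP⟩ : ∃ P, P = p * (J / N) := ⟨_, rfl⟩
  obtain ⟨H, hH⟩ : ∃ H, H = J / n₂ := ⟨_, rfl⟩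
  obtain ⟨K, hK⟩ : ∃ K, K = J / n₁ := ⟨_, rfl⟩
  have s1 : Stb F.p (κ * J) A (Ball (1 / 2 ^ (H / 4 - 1)) (K2S.Fam.pt F) F.d) := by
    have := hstab 0
    simpa [hH] using this
  have s2 : Stb F.p (κ * J) A (LineU i₀ (1 / 2 ^ (lam + H / 4)) (K2S.Fam.pt F) F.d) := by
    have := hstab 1
    simpa [hH, hlam] using this
  have hnot' : ¬ LineU i₀ (1 / 2 ^ (lam + H / 4)) (K2S.Fam.pt F) F.d A := by
    rw [hlam, hH]
    exact hnot
  rw [← hlam] at m1 m4 m6 hCn hLn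
  rw [← hw] at m1 hCn
  rw [← hP] at m1 m2 m3
  rw [← hH] at m5 m6 m7 m8 m9 n2 n3 hcontra
  rw [← hK] at n2 hcontra
  have hJ0 : (0 : ℝ) ≤ J := Nat.cast_nonneg J
  -- the balls
  have hMxA : ∃ h : IsLaw (Pool.Agent.H49.Ent.cond F.p A True),
      (F.res A True h).Mx a R τ' := by
    have e1 : Real.exp (-((2 * τ) * J)) ≤ Pe F.p A := by
      refine le_trans (Real.exp_le_exp.2 ?_) hPA
      have : 0 ≤ τ * J := by positivity
      linarith only [hl2, hδ0, j2]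
    obtain ⟨h, -, h2, -⟩ := max_res F ha.le hτ0.le (by linarith only [hτ0] : (0 : ℝ) ≤ 2 * τ) hTr hMx hRb A e1
    rw [hτe] at h2
    exact ⟨h, h2⟩
  have hnB : ¬ Ball (1 / 2 ^ (H / 4 - 1)) (K2S.Fam.pt F) F.d A := by
    rintro ⟨v, hv⟩
    obtain ⟨h, hMxh⟩ := hMxA
    refine hball J j7' (F.res A True h) (Mx_mono hτ'2 hMxh) (H / 4 - 1) m9 m7 ⟨v, ?_⟩
    intro ω hω j
    exact hv ω (FF.Pe_res h hω) j
  -- the number of windows
  obtain ⟨x, hx⟩ : ∃ x, x = J - P := ⟨_, rfl⟩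
  rw [← hx] at m3
  have hxJ : x ≤ J := by omega
  have hlJ : lam ≤ J := by omega
  have hn1' : 2 * n₁ ≤ J := n1
  obtain ⟨k1, k2, k3, k4, k5⟩ := FF.win_count hn₁ n1 hxJ
  obtain ⟨-, l2, l3, l4, -⟩ := FF.win_count hn₁ n1 hlJ
  rw [← hK] at k1 k2 k3 k4 k5 l2 l3 l4
  have k2' : x / K ≤ 2 * n₁ := by exact_mod_cast k2
  have l2' : lam / K ≤ 2 * n₁ := by exact_mod_cast l2
  have hwP : w + lam = P := by omega
  -- the cleaned event
  have hδle : FF.dlt 2 4 (FF.vis 2) (x / K) (lam / K) ≤ δ := by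
    rw [hδ]
    have := FF.dlt_mono (m := 2) (FF.vis_nonneg 2) k2' l2'
    linarith only [this]
  have habs : 0 ≤ |Real.log ε| := abs_nonneg _
  obtain ⟨A', hsub, hA', hPA', z, hdet, hz, nc1, nc2, hdl⟩ := FF.clean F (i₀ := i₀) (w := w)
    (lam := lam) (K := K) (N := x / K) (w₂ := J - lam) (K₂ := K) (N₂ := lam / K)
    (q := H / 4 - 1) (hh := H / 4) (hb := ⌊h₁ * J⌋₊) (by omega) (by omega) (by omega) m5 m6 hA0
    (κ := κ * J) (δ := δ) hδle hδ0 (by linarith only [j1, habs]) s1 hnB s2 hnot' hLb hCn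
  obtain ⟨ρ, hρ⟩ : ∃ ρ, ρ = Real.exp (-((κ * J - (2 * δ + 3 * Real.log 2)) / 2)) := ⟨_, rfl⟩
  rw [← hρ] at nc1 nc2
  have hρ0 : 0 ≤ ρ := by rw [hρ]; exact (Real.exp_pos _).le
  have hρε : ρ ≤ ε := by
    have h1 := neg_abs_le (Real.log ε)
    have h2 : ρ ≤ Real.exp (Real.log ε) := by
      rw [hρ]
      exact Real.exp_le_exp.2 (by linarith only [hl2, j1, h1])
    rwa [Real.exp_log hε] at h2
  have hPA2 : Real.exp (-((2 * τ) * J)) ≤ Pe F.p A' := by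
    refine le_trans ?_ hPA'
    refine le_trans ?_ (mul_le_mul_of_nonneg_left hPA (Real.exp_pos _).le)
    rw [← Real.exp_add]
    exact Real.exp_le_exp.2 (by linarith only [j2])
  obtain ⟨hlaw, -, hMx', -⟩ := max_res F ha.le hτ0.le (by linarith only [hτ0] : (0 : ℝ) ≤ 2 * τ) hTr hMx hRb
    A' hPA2
  rw [hτe] at hMx'
  have hpos : ∀ ω, 0 < (F.res A' True hlaw).p ω → A' ω := fun ω hω => FF.Pe_res hlaw hω
  have hposF : ∀ ω, 0 < (F.res A' True hlaw).p ω → 0 < F.p ω := fun ω hω =>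
    ((cond_pos_iff hp.nonneg A' True ω).1 hω).1
  -- the chart coordinate
  obtain ⟨e₀, n₀, hfr⟩ := hLb
  have hch := NonConc.chart hlaw (A := A') (fun ω hω => hpos ω hω) (hfr.sub hsub) nc2
  have hrad : ((2 : ℝ) ^ (H / 4))⁻¹ ≤ 1 / 2 ^ (H / 4 - 1) - 1 / 2 ^ ⌊h₁ * (J : ℝ)⌋₊ := by
    have e1 : (1 : ℝ) / 2 ^ ⌊h₁ * (J : ℝ)⌋₊ ≤ ((2 : ℝ) ^ (H / 4))⁻¹ := by
      rw [← one_div]
      refine one_div_le_one_div_of_le (by positivity) ?_
      exact pow_le_pow_right₀ (by norm_num) (by omega)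
    have e2 : (1 : ℝ) / 2 ^ (H / 4 - 1) = 2 * ((2 : ℝ) ^ (H / 4))⁻¹ := by
      have e3 : (2 : ℝ) ^ (H / 4) = 2 ^ (H / 4 - 1) * 2 := by
        rw [← pow_succ]
        congr 1
        omega
      rw [e3]
      field_simp
    rw [e2]
    linarith only [e1]
  have nc3 : NonConc (Pool.Agent.H49.Ent.cond F.p A' True) (fun ω => F.d ω i₀) (K2S.Fam.pt F)
      (fun D (v : ℝ) => |D - v| ≤ ((2 : ℝ) ^ (H / 4))⁻¹) ρ :=
    hch.rel hlaw fun D v h => h.trans hrad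
  -- the rows
  have hcJ : h₁ / 2 * J ≤ P := by
    refine m4.trans ?_
    have : lam ≤ P := by omega
    exact_mod_cast this
  have hup := hrows J j6' (F.res A' True hlaw) (Mx_mono hτ'1 hMx') P m2 hcJ
  have hxr : ((x : ℕ) : ℝ) = (J : ℝ) - P := by
    rw [hx, Nat.cast_sub m2]
  rw [← hxr] at hup
  push_cast at hup
  have hH4 : H / 4 + H / 4 + 4 ≤ H := by omega
  have hH2 : H / 4 + 2 ≤ H := by omega
  have hz' : ∀ ω, 0 < (F.res A' True hlaw).p ω → ∀ i, |z ω i| ≤ 4 := fun ω hω i =>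
    hz ω (hpos ω hω) i
  have hC₁' : ((2 : ℕ) : ℝ) * Real.log (2 * 4 + 5) + ((2 : ℕ) : ℝ) * Real.log 3 ≤ C₁ := by
    rw [hC₁]
    have : 0 < Real.log 3 := Real.log_pos (by norm_num)
    push_cast
    linarith only [this]
  have key := hsum J (F.res A' True hlaw) i₀ z w lam (x / K) K (K - (3 * H + 6)) H (lam / K) K
    (K - (2 * H + 3)) H (τ' * J) ρ C₁ (lam * Real.log 2 + C₁) (by omega) l4 hMx'.1
    (fun ω ω' h1 h2 h3 => hdet ω ω' (hposF ω h1) (hposF ω' h2) h3) (by omega) (by omega)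
    (by omega) (by omega)
    (by
      have := Plk.CH_X_label (F.res A' True hlaw) (w := w) (lam := lam) (by omega) (i0 := i₀)
        (z := z) (b := 4) (by norm_num) hz'
      rw [hC₁]
      linarith only [hlaw, this])
    (by
      have := Plk.CH_X_pt (F.res A' True hlaw) (w := w) (K := x / K * K) (lam := lam) (r := J)
        (by omega) (by omega) (i0 := i₀) (z := z) (b := 4) (by norm_num) hz'
      exact this.trans hC₁')
    (fun i hi => FF.spn_plk (F.res A' True hlaw) hH4 (w₂ := J - lam) (K₂ := K) (N₂ := lam / K)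
      nc1 nc3 hdl hi)
    (fun i hi => FF.spn_pj (F.res A' True hlaw) hH2 (w := w) (N := x / K) (K := K) nc3 hdl hi)
  have e5 : F.X (w + lam) = F.X P := by rw [hwP]
  refine hcontra x lam (τ' * J) ρ
    (CH (F.res A' True hlaw).p ((F.res A' True hlaw).X J)
      (fun ω => ((F.res A' True hlaw).X P ω, (F.res A' True hlaw).W ω))) m3 hxJ hlJ
    (mul_le_mul_of_nonneg_right hτ'3 hJ0) hρ0 hρε hup ?_
  rw [hwP] at key
  exact key

end Pool.K2S
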