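import Pool.Agent.H35.K2S.LineU
import Pool.Agent.H13.K2S.Rows
import Pool.Agent.H12.KA.WIN

/-!
# The one-dimensional family of the chart coordinate in a window

`F.pj i₀ w S` is the family of the coordinates `i₀` of the lines of `F` in the windows of length
`2 ^ (-w)`; `S` is additional side information, a function of the line and of the window.
-/

set_option autoImplicit false

namespace Pool.KA

open Finset Real
open Pool.Agent.H49.Ent Pool.Agent.H32.Dense Pool.STK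

variable {m J : ℕ}

/-- The coordinate `i₀` in the windows of length `2 ^ (-w)`. -/
noncomputable def Fam.pj (F : Fam m J) (i₀ : Fin m) (w : ℕ) {κ : Type} (S : F.Ω → κ) :
    Fam 1 (J - w) where
  Ω := F.Ω
  ζ := ((ℕ × ℤ) × κ) × F.ζ
  fin := F.fin
  p := F.p
  u := fun ω _ => Int.fract (2 ^ w * F.x1 w ω i₀)
  d := fun ω _ => F.d ω i₀
  T := fun ω => F.T ω % 2 ^ (J - w)
  Z := fun ω => (((F.T1 w ω, ⌊(2 : ℝ) ^ w * F.x1 w ω i₀⌋), S ω), F.Z ω)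
  isLaw := F.isLaw
  dir := fun ω _ => F.dir ω i₀
  tim := fun _ => Nat.mod_lt _ (by positivity)

end Pool.KA

namespace Pool.K2S

open Finset Real
open Pool.Agent.H49.Ent Pool.Agent.H32.Dense Pool.STK Pool.KA Pool.KA.Win Pool.KA.TRC Rows

variable {m J : ℕ}

namespace Pj

/-- The positions of the projected family. -/
theorem pj_X (F : Fam m J) (i₀ : Fin m) {w : ℕ} (hw : w ≤ J) {κ : Type} (S : F.Ω → κ) (j : ℕ)
    (ω : F.Ω) (i : Fin 1) :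
    (F.pj i₀ w S).X j ω i = ⌊(2 : ℝ) ^ (j + w) * F.x ω i₀⌋ - 2 ^ j * ⌊(2 : ℝ) ^ w * F.x1 w ω i₀⌋ :=
  window_fl J w j (F.T ω) hw (F.u ω) (F.d ω) i₀

/-- The time of the projected family. -/
theorem pj_Tm (F : Fam m J) (i₀ : Fin m) {w : ℕ} (hw : w ≤ J) {κ : Type} (S : F.Ω → κ)
    (hS : Det F.p (fun ω => (F.l ω, (F.T1 w ω, F.Z ω))) S) {e : ℝ} (he : F.Tm e) :
    (F.pj i₀ w S).Tm e := by
  have hp := F.isLaw.nonneg
  have c2 : ((J - w : ℕ) : ℝ) = (J : ℝ) - w := by rw [Nat.cast_sub hw]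
  unfold Fam.Tm at he ⊢
  rw [c2]
  have h1 : CH F.p (F.T1 w) (fun ω => (F.l ω, F.Z ω)) ≤ w * Real.log 2 :=
    CH_lt F.isLaw (F.T1 w) _ w fun ω => T1_lt F w hw ω
  have h2 := CH_le_add hp F.T (F.T1 w) (fun ω => (F.l ω, F.Z ω))
  have h3 : CH F.p F.T (fun ω => (F.T1 w ω, (F.l ω, F.Z ω))) ≤
      CH F.p (fun ω => F.T ω % 2 ^ (J - w)) (fun ω => (F.T1 w ω, (F.l ω, F.Z ω))) := by
    refine CH_mono_left hp ?_
    intro ω ω' _ _ h
    simp only [Prod.mk.injEq] at h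
    exact T_det F w h.2.1 h.1
  have h4 : CH F.p (fun ω => F.T ω % 2 ^ (J - w)) (fun ω => (F.T1 w ω, (F.l ω, F.Z ω))) ≤
      CH F.p (fun ω => F.T ω % 2 ^ (J - w))
        (fun ω => ((F.pj i₀ w S).l ω, (F.pj i₀ w S).Z ω)) := by
    refine CH_mono_cond hp ?_
    intro ω ω' a b h
    simp only [Prod.mk.injEq] at h
    obtain ⟨h1, h2, hZ⟩ := h
    have hu : F.u ω = F.u ω' := (Prod.ext_iff.mp h2).1
    have hd : F.d ω = F.d ω' := (Prod.ext_iff.mp h2).2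
    have hx := x1_det F w hu hd h1
    have hSS : S ω = S ω' := hS ω ω' a b (Prod.ext h2 (Prod.ext h1 hZ))
    simp only [Fam.l, Fam.pj, Prod.mk.injEq]
    refine ⟨⟨?_, ?_⟩, ⟨⟨h1, ?_⟩, hSS⟩, hZ⟩
    · rw [hx]
    · rw [hd]
    · rw [hx]
  have h5 : CH F.p (fun ω => F.T ω % 2 ^ (J - w))
      (fun ω => ((F.pj i₀ w S).l ω, (F.pj i₀ w S).Z ω)) =
      CH (F.pj i₀ w S).p (F.pj i₀ w S).T
        (fun ω => ((F.pj i₀ w S).l ω, (F.pj i₀ w S).Z ω)) := rfl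
  rw [← h5]
  have e0 : ((J : ℝ) - w) * Real.log 2 = J * Real.log 2 - w * Real.log 2 := by ring
  rw [e0]
  linarith

/-- The rows of the projected family are rows of the chart coordinate. -/
theorem pj_row (F : Fam m J) (i₀ : Fin m) {w : ℕ} (hw : w ≤ J) {κ : Type} (S : F.Ω → κ)
    (j : ℕ) :
    CH (F.pj i₀ w S).p ((F.pj i₀ w S).X j) (fun ω => ((F.pj i₀ w S).X 0 ω, (F.pj i₀ w S).W ω)) ≤
      CH F.p (fun ω => ⌊(2 : ℝ) ^ (j + w) * F.x ω i₀⌋)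
        (fun ω => (F.T ω, (⌊(2 : ℝ) ^ w * F.x1 w ω i₀⌋, (S ω, F.Z ω)))) := by
  have hp := F.isLaw.nonneg
  have h1 : CH (F.pj i₀ w S).p ((F.pj i₀ w S).X j)
      (fun ω => ((F.pj i₀ w S).X 0 ω, (F.pj i₀ w S).W ω)) ≤
      CH F.p ((F.pj i₀ w S).X j) (F.pj i₀ w S).W := by
    refine CH_mono_cond (p := F.p) hp fun ω ω' _ _ e => ?_
    exact (Prod.ext_iff.mp e).2
  refine h1.trans ?_
  refine (CH_congr (p := F.p) hp ?_ ?_ ?_ ?_).le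
  · intro ω ω' _ _ e
    have e1 : (F.pj i₀ w S).X j ω = (F.pj i₀ w S).X j ω' := (Prod.ext_iff.mp e).1
    have e2 : (F.pj i₀ w S).W ω = (F.pj i₀ w S).W ω' := (Prod.ext_iff.mp e).2
    have e3 : (F.pj i₀ w S).Z ω = (F.pj i₀ w S).Z ω' := (Prod.ext_iff.mp e2).2
    have e4 : ⌊(2 : ℝ) ^ w * F.x1 w ω i₀⌋ = ⌊(2 : ℝ) ^ w * F.x1 w ω' i₀⌋ :=
      (Prod.ext_iff.mp (Prod.ext_iff.mp (Prod.ext_iff.mp e3).1).1).2
    have e5 := congrFun e1 0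
    rw [pj_X F i₀ hw, pj_X F i₀ hw, e4] at e5
    linarith
  · intro ω ω' _ _ e
    have e1 : ⌊(2 : ℝ) ^ (j + w) * F.x ω i₀⌋ = ⌊(2 : ℝ) ^ (j + w) * F.x ω' i₀⌋ :=
      (Prod.ext_iff.mp e).1
    have e4 : ⌊(2 : ℝ) ^ w * F.x1 w ω i₀⌋ = ⌊(2 : ℝ) ^ w * F.x1 w ω' i₀⌋ :=
      (Prod.ext_iff.mp (Prod.ext_iff.mp (Prod.ext_iff.mp e).2).2).1
    funext i
    rw [pj_X F i₀ hw, pj_X F i₀ hw, e4, e1]
  · intro ω ω' _ _ e
    have e0 : F.T ω % 2 ^ (J - w) = F.T ω' % 2 ^ (J - w) := (Prod.ext_iff.mp e).1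
    have e3 : (F.pj i₀ w S).Z ω = (F.pj i₀ w S).Z ω' := (Prod.ext_iff.mp e).2
    have e6 := Prod.ext_iff.mp (Prod.ext_iff.mp e3).1
    have e4 : F.T1 w ω = F.T1 w ω' := (Prod.ext_iff.mp e6.1).1
    have e5 : ⌊(2 : ℝ) ^ w * F.x1 w ω i₀⌋ = ⌊(2 : ℝ) ^ w * F.x1 w ω' i₀⌋ :=
      (Prod.ext_iff.mp e6.1).2
    have e7 : S ω = S ω' := e6.2
    have e8 : F.Z ω = F.Z ω' := (Prod.ext_iff.mp e3).2
    exact Prod.ext (T_det F w e4 e0) (Prod.ext e5 (Prod.ext e7 e8))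
  · intro ω ω' _ _ e
    have e0 : F.T ω = F.T ω' := (Prod.ext_iff.mp e).1
    have e1 := Prod.ext_iff.mp (Prod.ext_iff.mp e).2
    have e2 := Prod.ext_iff.mp e1.2
    have e3 := det_T F w e0
    exact Prod.ext e3.2 (Prod.ext (Prod.ext (Prod.ext e3.1 e1.1) e2.1) e2.2)

end Pj

end Pool.K2S
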