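import Pool.Agent.H35.K2S.FFNum
import Pool.Agent.H64.K2.Plk3
import Pool.Agent.H76.K2.FFS
import Pool.Agent.H41.STK.Q22
import Pool.Agent.H13.K2S.Skel

/-!
# The labels of the windows are visible
-/

set_option autoImplicit false

namespace Pool.K2S

open Finset Real
open Pool.Agent.H49.Ent Pool.Agent.H32.Dense Pool.STK Pool.KA Pool.KA.Win Pool.KA.TRC Rows

variable {m J : ℕ}

namespace FF

theorem cc_nonneg (m : ℕ) : 0 ≤ cc m := by
  unfold cc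
  exact mul_nonneg (by positivity) (Real.log_nonneg (by norm_num))

/-- The label of `rows_thm` is visible if the positions, the time and the side information are. -/
theorem CH_rlab (G : Fam m J) (K i : ℕ) (h : (i + 1) * K ≤ J) {S : Type} (Y : G.Ω → S) :
    CH G.p (rlab G K i) Y ≤
      CH G.p (fun ω => ((G.X (0 + i * K) ω, G.X (0 + (i + 1) * K) ω), (G.T ω, G.Z ω))) Y +
        2 * cc m := by
  have hp := G.isLaw.nonneg
  set V : G.Ω → _ := fun ω => ((G.X (0 + i * K) ω, G.X (0 + (i + 1) * K) ω), (G.T ω, G.Z ω))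
    with hV
  have hiK : i * K ≤ (i + 1) * K := Nat.mul_le_mul_right K (Nat.le_succ i)
  have h1 := CH_le_add hp (rlab G K i) V Y
  have h2 : CH G.p (rlab G K i) (fun ω => (V ω, Y ω)) ≤
      CH G.p (fun ω => (fl (0 + i * K) (G.x1 (0 + i * K) ω),
        fl (0 + (i + 1) * K) (G.x1 (0 + (i + 1) * K) ω))) (fun ω => (V ω, Y ω)) := by
    refine CH_mono_left hp fun ω ω' _ _ e => ?_
    have e1 := Prod.ext_iff.mp e
    have e2 := Prod.ext_iff.mp e1.1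
    have e3 := Prod.ext_iff.mp (Prod.ext_iff.mp e1.2).1
    have e4 := Prod.ext_iff.mp e3.1
    have e5 := Prod.ext_iff.mp e3.2
    have a1 := (det_T G (0 + i * K) e5.1).1
    have a2 := (det_T G (0 + (i + 1) * K) e5.1).1
    exact Prod.ext (Prod.ext (Prod.ext a1 e2.1) e5.2) (Prod.ext (Prod.ext (Prod.ext a2 e2.2) e5.2)
      (Prod.ext e4.2 a2))
  have h3 := CH_subadd hp (fun ω => fl (0 + i * K) (G.x1 (0 + i * K) ω))
    (fun ω => fl (0 + (i + 1) * K) (G.x1 (0 + (i + 1) * K) ω)) (fun ω => (V ω, Y ω))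
  have h4 := CH_x1_X G (w := 0 + i * K) (by omega) (fun ω => (V ω, Y ω))
  have h5 := CH_x1_X G (w := 0 + (i + 1) * K) (by omega) (fun ω => (V ω, Y ω))
  have h6 : CH G.p (G.X (0 + i * K)) (fun ω => (V ω, Y ω)) = 0 :=
    CH_eq_zero hp fun ω ω' _ _ e => (Prod.ext_iff.mp (Prod.ext_iff.mp (Prod.ext_iff.mp e).1).1).1
  have h7 : CH G.p (G.X (0 + (i + 1) * K)) (fun ω => (V ω, Y ω)) = 0 :=
    CH_eq_zero hp fun ω ω' _ _ e => (Prod.ext_iff.mp (Prod.ext_iff.mp (Prod.ext_iff.mp e).1).1).2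
  linarith

/-- The label of the plank family is visible. -/
theorem CH_plk_rlab (F : Fam m J) {w lam K i : ℕ} (h : w + (i + 1) * K + lam ≤ J) {i₀ : Fin m}
    {z : F.Ω → Fin m → ℝ} {b c : ℝ} (hb : 0 ≤ b) (hz : ∀ ω, 0 < F.p ω → ∀ i, |z ω i| ≤ b)
    (hc : CH F.p (F.plab w lam i₀ z) (K2S.Fam.pt F) ≤ c) :
    CH F.p (rlab (F.plk w lam i₀ z) K i) (K2S.Fam.pt F) ≤
      c + 2 * (m * Real.log (2 * b + 5) + m * Real.log 3) + 2 * cc m := by
  have hp := F.isLaw.nonneg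
  have hiK : i * K ≤ (i + 1) * K := Nat.mul_le_mul_right K (Nat.le_succ i)
  set G := F.plk w lam i₀ z with hG
  have h1 : CH F.p (rlab G K i) (K2S.Fam.pt F) ≤ _ :=
    CH_rlab G K i (by omega) (K2S.Fam.pt F)
  set V : F.Ω → _ := fun ω => ((G.X (0 + i * K) ω, G.X (0 + (i + 1) * K) ω), (G.T ω, G.Z ω))
    with hV
  have h2 := CH_le_add hp V (F.plab w lam i₀ z) (K2S.Fam.pt F)
  have hX : ∀ k, w + k + lam ≤ J → CH F.p (G.X k)
      (fun ω => (F.plab w lam i₀ z ω, K2S.Fam.pt F ω)) ≤ m * Real.log (2 * b + 5) + m * Real.log 3 := by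
    intro k hk
    refine le_trans ?_ (Plk.CH_X_pt F (w := w) (K := k) (lam := lam) (r := J) (i0 := i₀)
      (z := z) (b := b) (by omega) (by omega) hb hz)
    refine CH_mono_cond hp fun ω ω' _ _ e => ?_
    have e1 := Prod.ext_iff.mp e
    have e2 := Prod.ext_iff.mp e1.2
    have e3 : F.T ω = F.T ω' := (Prod.ext_iff.mp e2.2).1
    exact Prod.ext e2.1 (Prod.ext e3 e1.1)
  have h3 : CH F.p V (fun ω => (F.plab w lam i₀ z ω, K2S.Fam.pt F ω)) ≤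
      CH F.p (fun ω => (G.X (0 + i * K) ω, G.X (0 + (i + 1) * K) ω))
        (fun ω => (F.plab w lam i₀ z ω, K2S.Fam.pt F ω)) := by
    refine CH_mono_left hp fun ω ω' _ _ e => ?_
    have e1 := Prod.ext_iff.mp e
    have e2 := Prod.ext_iff.mp e1.2
    have e3 : F.T ω = F.T ω' := (Prod.ext_iff.mp (Prod.ext_iff.mp e2.2).2).1
    refine Prod.ext e1.1 (Prod.ext ?_ e2.1)
    change F.T ω % 2 ^ (J - w) = F.T ω' % 2 ^ (J - w)
    rw [e3]
  have h4 := CH_subadd hp (G.X (0 + i * K)) (G.X (0 + (i + 1) * K))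
    (fun ω => (F.plab w lam i₀ z ω, K2S.Fam.pt F ω))
  have h5 := hX (0 + i * K) (by omega)
  have h6 := hX (0 + (i + 1) * K) (by omega)
  have h7 : CH F.p (rlab G K i) (K2S.Fam.pt F) ≤ CH F.p V (K2S.Fam.pt F) + 2 * cc m := h1
  linarith

/-- The label of the projected family is visible. -/
theorem CH_pj_rlab (F : Fam m J) {w lam K i : ℕ} (h : w + (i + 1) * K ≤ J) {i₀ : Fin m}
    {z : F.Ω → Fin m → ℝ} {c : ℝ} (hc : CH F.p (F.plab w lam i₀ z) (K2S.Fam.pt F) ≤ c) :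
    CH F.p (rlab (F.pj i₀ w (F.plab w lam i₀ z)) K i) (K2S.Fam.pt F) ≤ c + 2 * cc 1 := by
  have hp := F.isLaw.nonneg
  have hiK : i * K ≤ (i + 1) * K := Nat.mul_le_mul_right K (Nat.le_succ i)
  set G := F.pj i₀ w (F.plab w lam i₀ z) with hG
  have h1 : CH F.p (rlab G K i) (K2S.Fam.pt F) ≤ _ :=
    CH_rlab G K i (by omega) (K2S.Fam.pt F)
  set V : F.Ω → _ := fun ω => ((G.X (0 + i * K) ω, G.X (0 + (i + 1) * K) ω), (G.T ω, G.Z ω))
    with hV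
  have h2 := CH_le_add hp V (F.plab w lam i₀ z) (K2S.Fam.pt F)
  have h3 : CH F.p V (fun ω => (F.plab w lam i₀ z ω, K2S.Fam.pt F ω)) = 0 := by
    refine CH_eq_zero hp fun ω ω' _ _ e => ?_
    have e1 := Prod.ext_iff.mp e
    have e2 := Prod.ext_iff.mp e1.2
    have eX : F.X J ω = F.X J ω' := e2.1
    have eT : F.T ω = F.T ω' := (Prod.ext_iff.mp e2.2).1
    have eZ : F.Z ω = F.Z ω' := (Prod.ext_iff.mp e2.2).2
    have eL : F.plab w lam i₀ z ω = F.plab w lam i₀ z ω' := e1.1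
    have eC : ⌊(2 : ℝ) ^ w * F.x1 w ω i₀⌋ = ⌊(2 : ℝ) ^ w * F.x1 w ω' i₀⌋ := by
      have a1 : F.pcl w lam i₀ z ω = F.pcl w lam i₀ z ω' :=
        (Prod.ext_iff.mp (Prod.ext_iff.mp (Prod.ext_iff.mp eL).1).2).1
      have a2 := congrFun a1 i₀
      have a3 : ∀ ω'', F.pcl w lam i₀ z ω'' i₀ = ⌊(2 : ℝ) ^ w * F.x1 w ω'' i₀⌋ := by
        intro ω''
        change ⌊(2 : ℝ) ^ w * pco lam i₀ (z ω'') (F.x1 w ω'') i₀⌋ = _
        unfold pco
        rw [if_pos rfl]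
      rw [a3, a3] at a2
      exact a2
    have hX : ∀ k, k + w ≤ J → G.X k ω = G.X k ω' := by
      intro k hk
      funext l
      have b1 : G.X k ω l = ⌊(2 : ℝ) ^ (k + w) * F.x ω i₀⌋ -
        2 ^ k * ⌊(2 : ℝ) ^ w * F.x1 w ω i₀⌋ := Pj.pj_X F i₀ (by omega) _ k ω l
      have b2 : G.X k ω' l = ⌊(2 : ℝ) ^ (k + w) * F.x ω' i₀⌋ -
        2 ^ k * ⌊(2 : ℝ) ^ w * F.x1 w ω' i₀⌋ := Pj.pj_X F i₀ (by omega) _ k ω' l
      rw [b1, b2, eC]
      have a1 : ⌊(2 : ℝ) ^ (k + w) * F.x ω i₀⌋ = ⌊(2 : ℝ) ^ (k + w) * F.x ω' i₀⌋ := by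
        have a2 := Pool.STK.B58.fl_fine (m := m) hk (x := F.x ω) (y := F.x ω') eX
        exact congrFun a2 i₀
      rw [a1]
    refine Prod.ext (Prod.ext (hX _ (by omega)) (hX _ (by omega))) (Prod.ext ?_ ?_)
    · change F.T ω % 2 ^ (J - w) = F.T ω' % 2 ^ (J - w)
      rw [eT]
    · exact Prod.ext (Prod.ext (Prod.ext (det_T F w eT).1 eC) eL) eZ
  have h7 : CH F.p (rlab G K i) (K2S.Fam.pt F) ≤ CH F.p V (K2S.Fam.pt F) + 2 * cc 1 := h1
  linarith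

/-- Many labels at once. -/
theorem CH_labs (F : Fam m J) {w lam K N w₂ K₂ N₂ : ℕ} (h : w + N * K + lam ≤ J)
    (h₂ : w₂ + N₂ * K₂ ≤ J) (h₂' : w₂ + lam ≤ J) {i₀ : Fin m} {z : F.Ω → Fin m → ℝ} {b c : ℝ}
    (hb : 0 ≤ b) (hz : ∀ ω, 0 < F.p ω → ∀ i, |z ω i| ≤ b)
    (hc : ∀ w, w + lam ≤ J → CH F.p (F.plab w lam i₀ z) (K2S.Fam.pt F) ≤ c) :
    CH F.p (fun ω => ((fun i : Fin N => rlab (F.plk w lam i₀ z) K i ω),
      (fun i : Fin N₂ => rlab (F.pj i₀ w₂ (F.plab w₂ lam i₀ z)) K₂ i ω))) (K2S.Fam.pt F) ≤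
      N * (c + 2 * (m * Real.log (2 * b + 5) + m * Real.log 3) + 2 * cc m) +
        N₂ * (c + 2 * cc 1) := by
  have hp := F.isLaw.nonneg
  have h1 := CH_subadd hp (fun ω => (fun i : Fin N => rlab (F.plk w lam i₀ z) K i ω))
    (fun ω => (fun i : Fin N₂ => rlab (F.pj i₀ w₂ (F.plab w₂ lam i₀ z)) K₂ i ω)) (K2S.Fam.pt F)
  have h2 := Pool.STK.Q22.CH_pi hp (K2S.Fam.pt F) N
    (fun ω => (fun i : Fin N => rlab (F.plk w lam i₀ z) K i ω))
  have h3 := Pool.STK.Q22.CH_pi hp (K2S.Fam.pt F) N₂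
    (fun ω => (fun i : Fin N₂ => rlab (F.pj i₀ w₂ (F.plab w₂ lam i₀ z)) K₂ i ω))
  have h4 : ∑ i : Fin N, CH F.p (fun ω => rlab (F.plk w lam i₀ z) K i ω) (K2S.Fam.pt F) ≤
      N * (c + 2 * (m * Real.log (2 * b + 5) + m * Real.log 3) + 2 * cc m) := by
    refine (Finset.sum_le_card_nsmul _ _
      (c + 2 * (m * Real.log (2 * b + 5) + m * Real.log 3) + 2 * cc m) fun i _ => ?_).trans ?_
    · refine CH_plk_rlab F ?_ hb hz (hc w (by omega))
      have : (i.val + 1) * K ≤ N * K := Nat.mul_le_mul_right K i.isLt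
      omega
    · rw [Finset.card_univ, Fintype.card_fin, nsmul_eq_mul]
  have h5 : ∑ i : Fin N₂, CH F.p (fun ω => rlab (F.pj i₀ w₂ (F.plab w₂ lam i₀ z)) K₂ i ω)
      (K2S.Fam.pt F) ≤ N₂ * (c + 2 * cc 1) := by
    refine (Finset.sum_le_card_nsmul _ _ (c + 2 * cc 1) fun i _ => ?_).trans ?_
    · refine CH_pj_rlab F ?_ (hc w₂ h₂')
      have : (i.val + 1) * K₂ ≤ N₂ * K₂ := Nat.mul_le_mul_right K₂ i.isLt
      omega
    · rw [Finset.card_univ, Fintype.card_fin, nsmul_eq_mul]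
  linarith

end FF

end Pool.K2S
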