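import Pool.Agent.H35.K2S.FFRow
import Pool.Agent.H35.K2S.FFLab

/-!
# FF: the cleaned event
-/

set_option autoImplicit false

namespace Pool.K2S

open Finset Real
open Pool.Agent.H49.Ent Pool.Agent.H32.Dense Pool.STK Pool.KA Pool.KSAT Pool.KA.Win Pool.KA.TRC
open Rows

variable {m J : ℕ}

namespace FF

/-- The labels of all the windows. -/
noncomputable def labs (F : Fam m J) (w lam K N w₂ K₂ N₂ : ℕ) (i₀ : Fin m)
    (z : F.Ω → Fin m → ℝ) (ω : F.Ω) :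
    (Fin N → ((ℕ × (Fin m → ℤ)) × (((ℕ × (Fin m → ℝ)) × ((Fin m → ℤ) × (Fin m → ℤ))) × F.ζ)) ×
      (((ℕ × (Fin m → ℤ)) × (((ℕ × (Fin m → ℝ)) × ((Fin m → ℤ) × (Fin m → ℤ))) × F.ζ)) ×
      ((Fin m → ℤ) × ℕ))) ×
    (Fin N₂ → ((ℕ × (Fin 1 → ℤ)) × (((ℕ × ℤ) × (((ℕ × (Fin m → ℝ)) ×
      ((Fin m → ℤ) × (Fin m → ℤ))) × F.ζ)) × F.ζ)) ×
      (((ℕ × (Fin 1 → ℤ)) × (((ℕ × ℤ) × (((ℕ × (Fin m → ℝ)) ×
      ((Fin m → ℤ) × (Fin m → ℤ))) × F.ζ)) × F.ζ)) × ((Fin 1 → ℤ) × ℕ))) :=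
  ((fun i : Fin N => rlab (F.plk w lam i₀ z) K i ω),
    (fun i : Fin N₂ => rlab (F.pj i₀ w₂ (F.plab w₂ lam i₀ z)) K₂ i ω))

/-- The bound for the entropy of the labels. -/
noncomputable def dlt (m : ℕ) (b : ℝ) (c : ℝ) (N N₂ : ℕ) : ℝ :=
  N * (c + 2 * (m * Real.log (2 * b + 5) + m * Real.log 3) + 2 * cc m) + N₂ * (c + 2 * cc 1)

/-- The visibility constant for `q = 2`, `b = 4`. -/
noncomputable def vis (m : ℕ) : ℝ :=
  m * Real.log (4 * (2 : ℕ) + 1) + m * Real.log (4 * (2 : ℕ) + 7) +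
    m * Real.log (4 * (2 : ℕ) + 2 * 4 + 9)

theorem Pe_res {F : Fam m J} {A : F.Ω → Prop} (h : IsLaw (Pool.Agent.H49.Ent.cond F.p A True))
    {ω : F.Ω} (hω : 0 < (F.res A True h).p ω) : A ω := by
  have h1 := (cond_pos_iff F.isLaw.nonneg A True ω).1 hω
  simpa using h1.2

/-- **The cleaned event.** -/
theorem clean (F : Fam 2 J) {i₀ : Fin 2} {w lam K N w₂ K₂ N₂ q hh hb : ℕ}
    (hJ : w + N * K + lam ≤ J) (h₂ : w₂ + N₂ * K₂ ≤ J) (h₂' : w₂ + lam ≤ J)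
    (hq1 : q + 3 ≤ hb) (hq2 : q + 2 ≤ lam) {A : F.Ω → Prop} (hA : 0 < Pe F.p A) {κ δ : ℝ}
    (hδ : dlt 2 4 (vis 2) N N₂ ≤ δ) (hδ0 : 0 < δ) (hκ : 2 * δ + 6 * Real.log 2 ≤ κ)
    (hs₁ : Stb F.p κ A (Ball (1 / 2 ^ q) (K2S.Fam.pt F) F.d))
    (hn₁ : ¬ Ball (1 / 2 ^ q) (K2S.Fam.pt F) F.d A)
    (hs₂ : Stb F.p κ A (LineU i₀ (1 / 2 ^ (lam + hh)) (K2S.Fam.pt F) F.d))
    (hn₂ : ¬ LineU i₀ (1 / 2 ^ (lam + hh)) (K2S.Fam.pt F) F.d A)
    (hLb : Lb F i₀ hb A) (hCn : Cn F i₀ lam w A) :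
    ∃ A' : F.Ω → Prop, Sub A' A ∧ 0 < Pe F.p A' ∧
      Real.exp (-(2 * δ + 4 * Real.log 2)) * Pe F.p A ≤ Pe F.p A' ∧
      ∃ z : F.Ω → Fin 2 → ℝ,
        Det F.p (fun ω => (F.l ω, (F.T1 w ω, F.Z ω))) z ∧
        (∀ ω, A' ω → ∀ j, |z ω j| ≤ 4) ∧
        NonConc (Pool.Agent.H49.Ent.cond F.p A' True) F.d (K2S.Fam.pt F)
          (lnR i₀ (1 / 2 ^ (lam + hh))) (Real.exp (-((κ - (2 * δ + 3 * Real.log 2)) / 2))) ∧
        NonConc (Pool.Agent.H49.Ent.cond F.p A' True) F.d (K2S.Fam.pt F)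
          (blR (1 / 2 ^ q)) (Real.exp (-((κ - (2 * δ + 3 * Real.log 2)) / 2))) ∧
        Det (Pool.Agent.H49.Ent.cond F.p A' True) (K2S.Fam.pt F)
          (labs F w lam K N w₂ K₂ N₂ i₀ z) := by
  classical
  have hp := F.isLaw
  have hl2 : 0 < Real.log 2 := Real.log_pos (by norm_num)
  -- the spread event
  obtain ⟨e₀, n₀, hfr⟩ := hLb
  obtain ⟨e, n, ζ, hon, hcn⟩ := hCn
  obtain ⟨A₁, hA₁⟩ : ∃ A₁ : F.Ω → Prop,
    A₁ = fun ω => A ω ∧ ¬ Thin (1 / 2 ^ q) (K2S.Fam.pt F) F.d A ω := ⟨_, rfl⟩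
  have hsub1 : Sub A₁ A := by rw [hA₁]; exact fun ω h => h.1
  have hP1 : Real.exp (-Real.log 2) * Pe F.p A ≤ Pe F.p A₁ := by
    rw [hA₁]
    refine Pe_diff ?_
    have h1 := hs₁.thin_lt hn₁
    refine h1.le.trans ?_
    have h2 : Real.exp (-κ) ≤ 1 / 2 := by
      have : (1 : ℝ) / 2 = Real.exp (-Real.log 2) := by
        rw [Real.exp_neg, Real.exp_log (by norm_num)]
        norm_num
      rw [this]
      exact Real.exp_le_exp.2 (by linarith)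
    have := mul_le_mul_of_nonneg_right h2 hA.le
    linarith
  have hA1 : 0 < Pe F.p A₁ := lt_of_lt_of_le (mul_pos (Real.exp_pos _) hA) hP1
  have hspr : Spread (1 / 2 ^ q) (K2S.Fam.pt F) F.d A₁ := by
    rw [hA₁]
    exact spread_of_not_thin _ _ _ _
  have hsI := (hfr.sub hsub1).spreadI hspr
  have pq : (0 : ℝ) < 2 ^ q := by positivity
  have hrb : (1 : ℝ) / 2 ^ hb ≤ 1 / 2 ^ q / 8 := by
    rw [div_div]
    refine one_div_le_one_div_of_le (by positivity) ?_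
    calc (2 : ℝ) ^ q * 8 = 2 ^ (q + 3) := by rw [pow_add]; norm_num
      _ ≤ _ := pow_le_pow_right₀ (by norm_num) hq1
  have hrl : (1 : ℝ) / 2 ^ lam ≤ 1 / 2 ^ q / 4 := by
    rw [div_div]
    refine one_div_le_one_div_of_le (by positivity) ?_
    calc (2 : ℝ) ^ q * 4 = 2 ^ (q + 2) := by rw [pow_add]; norm_num
      _ ≤ _ := pow_le_pow_right₀ (by norm_num) hq2
  have hq0 : (0 : ℝ) < 1 / 2 ^ q := by positivity
  have hbd : ∀ ω, A₁ ω → ∀ j, |e (K2S.Fam.pt F ω) j| ≤ 2 := fun ω hω j =>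
    OnL.bound (hfr.sub hsub1) (hon.sub hsub1) hsI (by linarith) (by linarith) ω hω j
  -- the frame
  obtain ⟨z, hz⟩ : ∃ z : F.Ω → Fin 2 → ℝ,
    z = fun ω j => (⌊(2 : ℝ) ^ lam * ζ (slam F w ω) j⌋ : ℝ) / 2 ^ lam := ⟨_, rfl⟩
  have hlam1 : ((2 : ℝ) ^ lam)⁻¹ ≤ 1 := by
    rw [inv_le_one_iff₀]
    right
    exact one_le_pow₀ (by norm_num)
  have hez : ∀ ω, A ω → ∀ j, |e (K2S.Fam.pt F ω) j - z ω j| ≤ ((2 : ℕ) : ℝ) * ((2 : ℝ) ^ lam)⁻¹ := by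
    intro ω hω j
    have h1 := hcn ω hω j
    have h2 := grid_near lam (ζ (slam F w ω) j)
    rw [one_div] at h1
    rw [hz]
    push_cast
    calc |e (K2S.Fam.pt F ω) j - (⌊(2 : ℝ) ^ lam * ζ (slam F w ω) j⌋ : ℝ) / 2 ^ lam|
        = |(e (K2S.Fam.pt F ω) j - ζ (slam F w ω) j) +
          (ζ (slam F w ω) j - (⌊(2 : ℝ) ^ lam * ζ (slam F w ω) j⌋ : ℝ) / 2 ^ lam)| := by
          congr 1
          ring
      _ ≤ _ := (abs_add_le _ _).trans (by linarith)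
  have hz4 : ∀ ω, A₁ ω → ∀ j, |z ω j| ≤ 4 := by
    intro ω hω j
    have h1 := hez ω (hsub1 ω hω) j
    have h2 := hbd ω hω j
    have h3 := abs_sub_abs_le_abs_sub (z ω j) (e (K2S.Fam.pt F ω) j)
    rw [abs_sub_comm] at h3
    push_cast at h1
    linarith
  have hdet : Det F.p (fun ω => (F.l ω, (F.T1 w ω, F.Z ω))) z := by
    intro ω ω' _ _ h
    have e1 := Prod.ext_iff.mp h
    have e2 := Prod.ext_iff.mp e1.2
    have e3 : slam F w ω = slam F w ω' := Prod.ext e1.1 (Prod.ext e2.2 e2.1)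
    rw [hz]
    simp only
    rw [e3]
  -- the labels
  have hlaw1 := isLaw_cond hp hA1
  have hA1r : ∀ ω, 0 < (F.res A₁ True hlaw1).p ω → A₁ ω := fun ω hω => Pe_res hlaw1 hω
  have hvis : ∀ w', w' + lam ≤ J → CH (F.res A₁ True hlaw1).p
      ((F.res A₁ True hlaw1).plab w' lam i₀ z) (K2S.Fam.pt (F.res A₁ True hlaw1)) ≤ vis 2 := by
    intro w' hw'
    refine Plk.plab_pt (F.res A₁ True hlaw1) (w := w') (lam := lam) hw' (i0 := i₀) (z := z)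
      (b := 4) (by norm_num) (fun ω hω j => hz4 ω (hA1r ω hω) j)
      (pt := K2S.Fam.pt (F.res A₁ True hlaw1)) (fun _ _ _ _ h => h) (e := e) (n := n) ?_ (q := 2) ?_ ?_
    · intro ω hω j
      have := hon ω (hsub1 ω (hA1r ω hω)) j
      rw [one_div] at this
      exact this
    · intro ω hω j
      exact hez ω (hsub1 ω (hA1r ω hω)) j
    · intro ω j
      exact ⟨⌊(2 : ℝ) ^ lam * ζ (slam F w ω) j⌋, by rw [hz]⟩
  have hCH := CH_labs (F.res A₁ True hlaw1) hJ h₂ h₂' (i₀ := i₀) (z := z) (b := 4)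
    (c := vis 2) (by norm_num) (fun ω hω j => hz4 ω (hA1r ω hω) j) hvis
  have hCH' : CH (Pool.Agent.H49.Ent.cond F.p A₁ True) (labs F w lam K N w₂ K₂ N₂ i₀ z)
      (K2S.Fam.pt F) ≤ δ := le_trans hCH hδ
  have hne : Nonempty F.Ω := by
    by_contra h
    rw [not_nonempty_iff] at h
    have : Pe F.p A = 0 := by rw [Pe_eq]; exact Finset.sum_of_isEmpty _
    linarith
  have hneL : Nonempty (_ : Type) := ⟨labs F w lam K N w₂ K₂ N₂ i₀ z (Classical.arbitrary F.Ω)⟩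
  obtain ⟨ζ', hζ'⟩ := exists_fns_of_CH (n := 1) (T := fun _ => _)
    (S := fun _ => _) hlaw1 (fun _ => labs F w lam K N w₂ K₂ N₂ i₀ z)
    (fun _ => K2S.Fam.pt F) hδ0 (fun _ => hCH')
  rw [Pe_cond, le_div_iff₀ hA1] at hζ'
  obtain ⟨A₂, hA₂⟩ : ∃ A₂ : F.Ω → Prop, A₂ = fun ω => A₁ ω ∧ ∀ i : Fin 1,
    labs F w lam K N w₂ K₂ N₂ i₀ z ω = ζ' i (K2S.Fam.pt F ω) := ⟨_, rfl⟩
  rw [← hA₂] at hζ'
  have hsub2 : Sub A₂ A₁ := by rw [hA₂]; exact fun ω h => h.1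
  have hP2 : Real.exp (-(2 * δ + 2 * Real.log 2)) * Pe F.p A ≤ Pe F.p A₂ := by
    refine le_trans ?_ hζ'
    have e1 : Real.exp (-(2 * ((1 : ℕ) : ℝ) ^ 2 * δ)) / 2 =
        Real.exp (-(2 * δ + Real.log 2)) := by
      rw [neg_add, Real.exp_add, Real.exp_neg (Real.log 2), Real.exp_log (by norm_num)]
      push_cast
      ring_nf
    rw [e1]
    calc Real.exp (-(2 * δ + 2 * Real.log 2)) * Pe F.p A =
          Real.exp (-(2 * δ + Real.log 2)) * (Real.exp (-Real.log 2) * Pe F.p A) := by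
          rw [← mul_assoc, ← Real.exp_add]
          congr 2
          ring
      _ ≤ _ := mul_le_mul_of_nonneg_left hP1 (Real.exp_pos _).le
  have hA2 : 0 < Pe F.p A₂ := lt_of_lt_of_le (mul_pos (Real.exp_pos _) hA) hP2
  have hsubA : Sub A₂ A := hsub2.trans hsub1
  have hexpκ : Real.exp (-κ) * Pe F.p A ≤ Pe F.p A₂ := by
    refine le_trans ?_ hP2
    exact mul_le_mul_of_nonneg_right (Real.exp_le_exp.2 (by linarith)) hA.le
  -- both properties are stable and false on the smaller event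
  have t1 := hs₁.sub (Ball.hered _ _ _) hsubA hP2
  have u1 : ¬ Ball (1 / 2 ^ q) (K2S.Fam.pt F) F.d A₂ := fun h => hn₁ (hs₁.of_sub hsubA hexpκ h)
  have t2 := hs₂.sub (LineU.hered _ _ _ _) hsubA hP2
  have u2 : ¬ LineU i₀ (1 / 2 ^ (lam + hh)) (K2S.Fam.pt F) F.d A₂ :=
    fun h => hn₂ (hs₂.of_sub hsubA hexpκ h)
  rw [ball_fn'] at t1 u1
  rw [lineU_fn'] at t2 u2
  obtain ⟨G, A', hA', hP3, hA3, nc1, nc2⟩ := clean_two hp
    (κ := κ - (2 * δ + 2 * Real.log 2)) (by linarith) hA2 t2 u2 t1 u1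
  have hsub3 : Sub A' A₂ := fun ω hω => ((hA' ω).1 hω).1
  have eκ : (κ - (2 * δ + 2 * Real.log 2) - Real.log 2) / 2 =
      (κ - (2 * δ + 3 * Real.log 2)) / 2 := by ring
  rw [eκ] at nc1 nc2
  refine ⟨A', hsub3.trans hsubA, hA3, ?_, z, hdet, fun ω hω => hz4 ω (hsub2 ω (hsub3 ω hω)),
    nc1, nc2, ?_⟩
  · refine le_trans ?_ hP3
    have e1 : Real.exp (-(2 * δ + 4 * Real.log 2)) =
        1 / 4 * Real.exp (-(2 * δ + 2 * Real.log 2)) := by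
      have : (1 : ℝ) / 4 = Real.exp (-(2 * Real.log 2)) := by
        rw [Real.exp_neg, two_mul, Real.exp_add, Real.exp_log (by norm_num)]
        norm_num
      rw [this, ← Real.exp_add]
      congr 1
      ring
    rw [e1]
    linarith
  · intro ω ω' hω hω' h
    have b1 : A' ω := by
      have := (cond_pos_iff hp.nonneg A' True ω).1 hω
      simpa using this.2
    have b2 : A' ω' := by
      have := (cond_pos_iff hp.nonneg A' True ω').1 hω'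
      simpa using this.2
    have c1 := hsub3 ω b1
    have c2 := hsub3 ω' b2
    rw [hA₂] at c1 c2
    rw [c1.2 0, c2.2 0, h]

end FF

end Pool.K2S
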