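import Pool.Agent.H35.K2S.FFX2

/-!
# The choice of the constants
-/

set_option autoImplicit false

namespace Pool.K2S

open Finset Real

namespace FF

/-- The length of the windows: `K = J / n₁`, there are at most `2 n₁` of them in `[0, J]`. -/
theorem win_count {J n₁ x : ℕ} (hn : 0 < n₁) (hJ : 2 * n₁ ≤ J) (hx : x ≤ J) :
    (1 : ℕ) ≤ J / n₁ ∧ ((x / (J / n₁) : ℕ) : ℝ) ≤ 2 * n₁ ∧
      ((x : ℝ) - (J / n₁ : ℕ)) ≤ (x / (J / n₁) : ℕ) * (J / n₁ : ℕ) ∧
      (x / (J / n₁)) * (J / n₁) ≤ x ∧ ((J / n₁ : ℕ) : ℝ) ≤ J / n₁ := by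
  have h1 : 2 ≤ J / n₁ := by
    rw [Nat.le_div_iff_mul_le hn]
    exact hJ
  have hK : 0 < J / n₁ := by omega
  have h2 : J < (J / n₁ + 1) * n₁ := by
    have := Nat.lt_div_mul_add (a := J) hn
    nlinarith only [this]
  refine ⟨by omega, ?_, ?_, Nat.div_mul_le_self _ _, Nat.cast_div_le⟩
  · have h3 : x / (J / n₁) ≤ 2 * n₁ := by
      rw [← Nat.lt_succ_iff]
      rw [Nat.div_lt_iff_lt_mul hK]
      have h5 : n₁ ≤ n₁ * (J / n₁) := Nat.le_mul_of_pos_right n₁ hK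
      have h6 : (J / n₁ + 1) * n₁ = n₁ * (J / n₁) + n₁ := by ring
      have h7 : (2 * n₁).succ * (J / n₁) = 2 * (n₁ * (J / n₁)) + J / n₁ := by
        rw [Nat.succ_eq_add_one]
        ring
      omega
    exact_mod_cast h3
  · have h3 := Nat.lt_div_mul_add (a := x) hK
    have h4 : (x : ℝ) < (x / (J / n₁) : ℕ) * (J / n₁ : ℕ) + (J / n₁ : ℕ) := by exact_mod_cast h3
    linarith only [h4]

/-- The contradiction in real numbers. -/
theorem core {L R a X G n C₀ C₁ c c' J K h N N₂ x lam e ρ M : ℝ} (ha : 1 ≤ a) (hR : 0 < R)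
    (hG : G = R / a * X) (hG0 : 0 < G) (hn : 1 < n) (hc0 : 0 ≤ c) (hJr : 0 < J)
    (hL0 : 0 < L) (hL1 : L ≤ 1) (hhr : h ≤ J / (4 * n * n)) (hh0 : 0 ≤ h) (hK0 : 0 ≤ K)
    (u1 : J / n ≤ G / 100 * J) (u2 : K ≤ G / 100 * J)
    (hNr : 0 ≤ N) (hN1 : N ≤ 2 * n) (hN2 : x - K ≤ N * K) (hN3 : N * K ≤ x)
    (hN₂r : 0 ≤ N₂) (hM1 : N₂ ≤ 2 * n) (hM2 : lam - K ≤ N₂ * K) (hM3 : N₂ * K ≤ lam)
    (hx0 : 0 ≤ x) (hxJ : x ≤ J) (hlJ : lam ≤ J) (hXx : X * J ≤ x)
    (a0 : 0 ≤ K - (3 * h + 6))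
    (he' : e ≤ G / (100 * n) * J) (hρ : 0 ≤ ρ) (hρ' : ρ ≤ G / (100 * n))
    (hM : a * M ≤ (2 * L - R) * x + G / (100 * n) * J)
    (r2 : C₀ ≤ c) (r3 : C₁ ≤ c') (r2' : -c ≤ C₀)
    (r5 : 40 * n + 4 * n * c + 10 * c + 10 * c' < G / 4 * J) (hc0' : 0 ≤ c')
    (hmain : N * (2 * ((K - (3 * h + 6)) * L) - 9 * ((K - (3 * h + 6)) * L) * ρ - 4 * e - C₀) -
        3 * (2 * (K * L) + C₀) +
        (N₂ * ((K - (2 * h + 3)) * L - 4 * ((K - (2 * h + 3)) * L) * ρ - 3 * e - C₀) -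
        2 * (K * L + C₀)) ≤ (lam * L + C₁) + M + C₁ + C₀) : False := by
  have ha0 : 0 < a := by linarith only [ha]
  have hnr : 0 < n := by linarith only [hn]
  have u0 : 0 < G * J := by positivity
  have u3 : ∀ P : ℝ, 0 ≤ P → P ≤ 2 * n → P * (3 * h + 6) ≤ 2 * (G / 100 * J) + 12 * n := by
    intro P hP0 hP
    have a1 : P * (3 * h + 6) ≤ 2 * n * (3 * (J / (4 * n * n)) + 6) :=
      mul_le_mul hP (by linarith only [hhr]) (by positivity) (by positivity)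
    have a2 : 2 * n * (3 * (J / (4 * n * n)) + 6) = 3 / 2 * (J / n) + 12 * n := by
      field_simp
      ring
    have a3 : 0 ≤ J / n := by positivity
    rw [a2] at a1
    linarith only [hh0, u1, u2, a0, a1]
  have v1 := u3 N hNr hN1
  have v2 := u3 N₂ hN₂r hM1
  have v3 : N₂ * (2 * h + 3) ≤ 2 * (G / 100 * J) + 12 * n := by
    refine le_trans ?_ v2
    exact mul_le_mul_of_nonneg_left (by linarith only [hh0]) hN₂r
  have w0 : e * n ≤ G / 100 * J := by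
    have h1 : e * n ≤ G / (100 * n) * J * n := mul_le_mul_of_nonneg_right he' hnr.le
    have h2 : G / (100 * n) * J * n = G / 100 * J := by field_simp
    linarith only [h1, h2]
  have hεn : G / (100 * n) ≤ G / 100 :=
    div_le_div_of_nonneg_left hG0.le (by norm_num) (by linarith only [hn])
  have w1 : ρ ≤ G / 100 := hρ'.trans hεn
  -- the first sum
  have s1 : 2 * L * x - 2 * (K + (2 * (G / 100 * J) + 12 * n)) ≤
      N * (2 * ((K - (3 * h + 6)) * L)) := by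
    have a1 : N * (2 * ((K - (3 * h + 6)) * L)) =
        2 * L * (N * K) - 2 * L * (N * (3 * h + 6)) := by ring
    have a2 : 2 * L * (x - K) ≤ 2 * L * (N * K) := mul_le_mul_of_nonneg_left hN2 (by positivity)
    have a3 : 2 * L * (N * (3 * h + 6)) ≤ 2 * L * (2 * (G / 100 * J) + 12 * n) :=
      mul_le_mul_of_nonneg_left v1 (by positivity)
    have a4 : 2 * L * (K + (2 * (G / 100 * J) + 12 * n)) ≤
        2 * (K + (2 * (G / 100 * J) + 12 * n)) :=
      mul_le_mul_of_nonneg_right (by linarith only [hL1]) (by positivity)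
    rw [a1]
    linarith only [a2, a3, a4]
  have a1 : K - (3 * h + 6) ≤ K := by linarith only [hh0]
  have b1 : K - (2 * h + 3) ≤ K := by linarith only [hh0]
  have b0 : 0 ≤ K - (2 * h + 3) := by linarith only [hh0, a0]
  have s2 : N * (9 * ((K - (3 * h + 6)) * L) * ρ) ≤ 9 * (G / 100 * J) := by
    have a2 : (K - (3 * h + 6)) * L ≤ K * 1 := mul_le_mul a1 hL1 hL0.le hK0
    have a3 : N * ((K - (3 * h + 6)) * L) ≤ J := by
      have h1 := mul_le_mul_of_nonneg_left a2 hNr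
      rw [mul_one] at h1
      linarith only [hN3, hxJ, h1]
    calc N * (9 * ((K - (3 * h + 6)) * L) * ρ) = 9 * ((N * ((K - (3 * h + 6)) * L)) * ρ) := by ring
      _ ≤ 9 * (J * (G / 100)) :=
          mul_le_mul_of_nonneg_left (mul_le_mul a3 w1 hρ hJr.le) (by norm_num)
      _ = _ := by ring
  have hen : ∀ P : ℝ, 0 ≤ P → P ≤ 2 * n → P * e ≤ 2 * (G / 100 * J) := by
    intro P hP0 hP
    rcases le_total 0 e with h0 | h0
    · have h1 := mul_le_mul_of_nonneg_right hP h0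
      have h2 : 2 * n * e = 2 * (e * n) := by ring
      linarith only [w0, h1]
    · have h1 : P * e ≤ 0 := mul_nonpos_of_nonneg_of_nonpos hP0 h0
      have h2 : 0 ≤ G / 100 * J := by positivity
      linarith only [hh0, u2, a0, h1]
  have s3 := hen N hNr hN1
  have t3 := hen N₂ hN₂r hM1
  have s4 : N * C₀ ≤ 2 * n * c := by
    calc N * C₀ ≤ N * c := mul_le_mul_of_nonneg_left r2 hNr
      _ ≤ _ := mul_le_mul_of_nonneg_right hN1 hc0
  have s5 : K * L ≤ G / 100 * J := by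
    have h1 : K * L ≤ K * 1 := mul_le_mul_of_nonneg_left hL1 hK0
    linarith only [u2, h1]
  -- the second sum
  have t1 : L * lam - (K + (2 * (G / 100 * J) + 12 * n)) ≤ N₂ * ((K - (2 * h + 3)) * L) := by
    have c1 : N₂ * ((K - (2 * h + 3)) * L) = L * (N₂ * K) - L * (N₂ * (2 * h + 3)) := by ring
    have c2 : L * (lam - K) ≤ L * (N₂ * K) := mul_le_mul_of_nonneg_left hM2 hL0.le
    have c3 : L * (N₂ * (2 * h + 3)) ≤ L * (2 * (G / 100 * J) + 12 * n) :=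
      mul_le_mul_of_nonneg_left v3 hL0.le
    have c4 : L * (K + (2 * (G / 100 * J) + 12 * n)) ≤
        1 * (K + (2 * (G / 100 * J) + 12 * n)) :=
      mul_le_mul_of_nonneg_right hL1 (by positivity)
    rw [c1]
    linarith only [c2, c3, c4]
  have t2 : N₂ * (4 * ((K - (2 * h + 3)) * L) * ρ) ≤ 4 * (G / 100 * J) := by
    have a2 : (K - (2 * h + 3)) * L ≤ K * 1 := mul_le_mul b1 hL1 hL0.le hK0
    have a3 : N₂ * ((K - (2 * h + 3)) * L) ≤ J := by
      have h1 := mul_le_mul_of_nonneg_left a2 hN₂r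
      rw [mul_one] at h1
      linarith only [hM3, hlJ, h1]
    calc N₂ * (4 * ((K - (2 * h + 3)) * L) * ρ) = 4 * ((N₂ * ((K - (2 * h + 3)) * L)) * ρ) := by
          ring
      _ ≤ 4 * (J * (G / 100)) :=
          mul_le_mul_of_nonneg_left (mul_le_mul a3 w1 hρ hJr.le) (by norm_num)
      _ = _ := by ring
  have t4 : N₂ * C₀ ≤ 2 * n * c := by
    calc N₂ * C₀ ≤ N₂ * c := mul_le_mul_of_nonneg_left r2 hN₂r
      _ ≤ _ := mul_le_mul_of_nonneg_right hM1 hc0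
  -- the right-hand side
  have r1 : M ≤ 2 * L * x - G * J + G / 100 * J := by
    have c1 : M ≤ ((2 * L - R) * x + G / (100 * n) * J) / a := by
      rw [le_div_iff₀ ha0]
      linarith only [hM]
    have c2 : ((2 * L - R) * x + G / (100 * n) * J) / a ≤
        2 * L * x - R / a * x + G / 100 * J := by
      rw [add_div, sub_mul, sub_div]
      have b1 : 2 * L * x / a ≤ 2 * L * x := div_le_self (by positivity) ha
      have b2 : R * x / a = R / a * x := by ring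
      have b3 : G / (100 * n) * J / a ≤ G / 100 * J := by
        refine (div_le_self (by positivity) ha).trans ?_
        exact mul_le_mul_of_nonneg_right hεn hJr.le
      rw [b2]
      linarith only [b1, b3]
    have c3 : G * J ≤ R / a * x := by
      have h1 : R / a * (X * J) ≤ R / a * x := mul_le_mul_of_nonneg_left hXx (by positivity)
      calc G * J = R / a * (X * J) := by rw [hG]; ring
        _ ≤ _ := h1
    linarith only [hn, hc0, hh0, u2, a0, r2, r3, r5, hc0', hmain, s1, s2, s3, t3, s4, s5, t1, t2, t4, c1, c2, c3]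
  have f1 : N * (2 * ((K - (3 * h + 6)) * L) - 9 * ((K - (3 * h + 6)) * L) * ρ - 4 * e - C₀) =
      N * (2 * ((K - (3 * h + 6)) * L)) - N * (9 * ((K - (3 * h + 6)) * L) * ρ) - 4 * (N * e) -
        N * C₀ := by ring
  have f2 : N₂ * ((K - (2 * h + 3)) * L - 4 * ((K - (2 * h + 3)) * L) * ρ - 3 * e - C₀) =
      N₂ * ((K - (2 * h + 3)) * L) - N₂ * (4 * ((K - (2 * h + 3)) * L) * ρ) - 3 * (N₂ * e) -
        N₂ * C₀ := by ring
  rw [f1, f2] at hmain
  linarith only [hn, hc0, hh0, u2, a0, r2, r3, r5, hc0', hmain, s1, s2, s3, t3, s4, s5, t1, t2, t4, r1]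

/-- **The numerical contradiction.** -/
theorem num {R a X : ℝ} (ha : 1 ≤ a) (hR : 0 < R) (hX : 0 < X) :
    ∃ n₁ : ℕ, 0 < n₁ ∧ ∃ ε > 0, ∀ n₂ : ℕ, 4 * (n₁ * n₁) ≤ n₂ → ∀ C₀ C₁ : ℝ, ∃ J₁ : ℕ,
      ∀ J ≥ J₁, 2 * n₁ ≤ J ∧ 3 * (J / n₂) + 6 ≤ J / n₁ ∧ 12 ≤ J / n₂ ∧
      ∀ (x lam : ℕ) (e ρ M : ℝ),
      X * J ≤ x → x ≤ J → lam ≤ J → e ≤ ε * J → 0 ≤ ρ → ρ ≤ ε →
      a * M ≤ (2 * Real.log 2 - R) * x + ε * J →
      ((x / (J / n₁) : ℕ) : ℝ) * (2 * (((J / n₁ - (3 * (J / n₂) + 6) : ℕ) : ℝ) *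
          Real.log 2) -
          9 * (((J / n₁ - (3 * (J / n₂) + 6) : ℕ) : ℝ) * Real.log 2) * ρ - 4 * e - C₀) -
        3 * (2 * (((J / n₁ : ℕ) : ℝ) * Real.log 2) + C₀) +
        (((lam / (J / n₁) : ℕ) : ℝ) * (((J / n₁ - (2 * (J / n₂) + 3) : ℕ) : ℝ) *
          Real.log 2 -
          4 * (((J / n₁ - (2 * (J / n₂) + 3) : ℕ) : ℝ) * Real.log 2) * ρ - 3 * e -
            C₀) -
        2 * (((J / n₁ : ℕ) : ℝ) * Real.log 2 + C₀)) ≤ (lam * Real.log 2 + C₁) + M + C₁ + C₀ →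
      False := by
  have ha0 : 0 < a := by linarith only [ha]
  set G : ℝ := R / a * X with hG
  have hG0 : 0 < G := by positivity
  obtain ⟨n₁, hn₁⟩ := exists_nat_gt (max 1 (100 / G))
  have hn1 : (1 : ℝ) < n₁ := (le_max_left _ _).trans_lt hn₁
  have hn0 : 0 < n₁ := by
    have : (0 : ℝ) < n₁ := by linarith
    exact_mod_cast this
  have hnr : (0 : ℝ) < n₁ := by exact_mod_cast hn0
  have hnG : 1 / (n₁ : ℝ) ≤ G / 100 := by
    have h1 : 100 / G < n₁ := (le_max_right _ _).trans_lt hn₁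
    rw [div_lt_iff₀ hG0] at h1
    rw [div_le_div_iff₀ hnr (by norm_num)]
    linarith only [h1]
  refine ⟨n₁, hn0, G / (100 * n₁), by positivity, ?_⟩
  intro n₂ hn₂ C₀ C₁
  have hn₂0 : 0 < n₂ := lt_of_lt_of_le (by positivity) hn₂
  set c : ℝ := |C₀| with hc
  set c' : ℝ := |C₁| with hc'
  have hc0 : 0 ≤ c := abs_nonneg _
  have hc0' : 0 ≤ c' := abs_nonneg _
  obtain ⟨J₂, hJ₂⟩ := exists_nat_gt ((40 * n₁ + 4 * n₁ * c + 10 * c + 10 * c') / (G / 4))
  refine ⟨max J₂ (12 * n₂ + 48 * n₁), ?_⟩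
  intro J hJ
  have hJ2 : J₂ ≤ J := (le_max_left _ _).trans hJ
  have hJ3 : 12 * n₂ + 48 * n₁ ≤ J := (le_max_right _ _).trans hJ
  have hJn : 2 * n₁ ≤ J := by omega
  -- the naturals
  have hh2 : 12 ≤ J / n₂ := by
    rw [Nat.le_div_iff_mul_le hn₂0]
    omega
  have hKh : 3 * (J / n₂) + 6 ≤ J / n₁ := by
    have e1 : J / n₂ ≤ J / (n₁ * 4) := by
      refine Nat.div_le_div_left (le_trans ?_ hn₂) (by positivity)
      have : n₁ ≤ n₁ * n₁ := Nat.le_mul_of_pos_right n₁ hn0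
      omega
    rw [← Nat.div_div_eq_div_mul] at e1
    have e2 : 24 ≤ J / n₁ := by
      rw [Nat.le_div_iff_mul_le hn0]
      omega
    omega
  refine ⟨hJn, hKh, hh2, ?_⟩
  intro x lam e ρ M hXx hxJ hlJ he' hρ hρ' hM hmain
  have hJr : (0 : ℝ) < J := by
    have : 0 < J := by omega
    exact_mod_cast this
  obtain ⟨hK1, hN1, hN2, hN3, hKr⟩ := win_count hn0 hJn hxJ
  obtain ⟨-, hM1, hM2, hM3, -⟩ := win_count hn0 hJn hlJ
  set K := J / n₁ with hK
  set h := J / n₂ with hh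
  set N := x / K with hN
  set N₂ := lam / K with hN₂
  have hL0 : 0 < Real.log 2 := Real.log_pos (by norm_num)
  have hL1 : Real.log 2 ≤ 1 := by
    have := Real.log_two_lt_d9
    linarith only [hL0, this]
  set L := Real.log 2 with hL
  have hhr : (h : ℝ) ≤ J / (4 * n₁ * n₁) := by
    have h1 : ((J / n₂ : ℕ) : ℝ) ≤ (J : ℝ) / n₂ := Nat.cast_div_le
    refine h1.trans (div_le_div_of_nonneg_left hJr.le (by positivity) ?_)
    have h2 : ((4 * (n₁ * n₁) : ℕ) : ℝ) ≤ n₂ := by exact_mod_cast hn₂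
    push_cast at h2
    linarith only [h2]
  have ea : ((K - (3 * h + 6) : ℕ) : ℝ) = K - (3 * h + 6) := by
    rw [Nat.cast_sub hKh]
    push_cast
    ring
  have ea₂ : ((K - (2 * h + 3) : ℕ) : ℝ) = K - (2 * h + 3) := by
    rw [Nat.cast_sub (by omega)]
    push_cast
    ring
  rw [ea, ea₂] at hmain
  have hNr : (0 : ℝ) ≤ N := by positivity
  have hN₂r : (0 : ℝ) ≤ N₂ := by positivity
  have hKr0 : (0 : ℝ) ≤ K := by positivity
  have hhr0 : (0 : ℝ) ≤ h := by positivity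
  have hxJr : (x : ℝ) ≤ J := by exact_mod_cast hxJ
  have hlJr : (lam : ℝ) ≤ J := by exact_mod_cast hlJ
  have hxr : (0 : ℝ) ≤ x := by positivity
  have hNKx : (N : ℝ) * K ≤ x := by exact_mod_cast hN3
  have hNKl : (N₂ : ℝ) * K ≤ lam := by exact_mod_cast hM3
  -- `J / n₁` in units of `G J`
  have u1 : (J : ℝ) / n₁ ≤ G / 100 * J := by
    rw [div_eq_mul_one_div, mul_comm]
    exact mul_le_mul_of_nonneg_right hnG hJr.le
  have u2 : (K : ℝ) ≤ G / 100 * J := hKr.trans u1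
  have a0 : (0 : ℝ) ≤ K - (3 * h + 6) := by
    rw [← ea]
    positivity
  have r5 : 40 * n₁ + 4 * n₁ * c + 10 * c + 10 * c' < G / 4 * J := by
    have e1 : (J₂ : ℝ) ≤ J := by exact_mod_cast hJ2
    have e2 : (40 * n₁ + 4 * n₁ * c + 10 * c + 10 * c') / (G / 4) < J := lt_of_lt_of_le hJ₂ e1
    rw [div_lt_iff₀ (by positivity)] at e2
    linarith only [e2]
  exact core ha hR hG hG0 hn1 hc0 hJr hL0 hL1 hhr hhr0 hKr0 u1 u2 hNr hN1 hN2 hNKx hN₂r hM1 hM2
    hNKl hxr hxJr hlJr hXx a0 he' hρ hρ' hM (le_abs_self _) (le_abs_self _) (neg_abs_le _) r5 hc0'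
    hmain

end FF

end Pool.K2S
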