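import Pool.Agent.H35.K2S.Lev
import Pool.Agent.H35.K2S.LineU
import Pool.Agent.H33.K2.AP3

/-!
# The upper rows in a maximal family; small lemmas
-/

set_option autoImplicit false

namespace Pool.K2S

open Finset Real
open Pool.Agent.H49.Ent Pool.Agent.H32.Dense Pool.STK Pool.KA Pool.KA.TRC

variable {m J : ℕ}

theorem Mx_mono {F : Fam m J} {a R τ τ' : ℝ} (h : τ ≤ τ') (hF : F.Mx a R τ) : F.Mx a R τ' := by
  have hJ : τ * (J : ℝ) ≤ τ' * J := mul_le_mul_of_nonneg_right h (Nat.cast_nonneg J)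
  refine ⟨?_, ?_⟩
  · have := hF.1
    unfold Fam.Tm at this ⊢
    linarith
  · have := hF.2
    nlinarith

/-- **The rows above `x`** in a maximal family. -/
theorem rows_up (hO : AOPStmt) {a R : ℝ} (ha : 1 ≤ a) (hU : UBa m a R) {c : ℝ} (hc : 0 < c)
    {ε : ℝ} (hε : 0 < ε) :
    ∃ τ > 0, ∃ J₁ : ℕ, ∀ J ≥ J₁, ∀ F : Fam m J, F.Mx a R τ → ∀ x : ℕ, x ≤ J → c * J ≤ x →
      a * CH F.p (F.X J) (fun ω => (F.X x ω, F.W ω)) ≤
        (m * Real.log 2 - R) * ((J : ℝ) - x) + ε * J := by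
  obtain ⟨C₃, hC₃, hap3⟩ := ap3_thm hO m
  obtain ⟨C₄, hC₄, htrc⟩ := trc_thm m
  have ha0 : 0 < a := by linarith
  obtain ⟨η, hη⟩ : ∃ η, η = ε / 8 := ⟨_, rfl⟩
  have hη0 : 0 < η := by rw [hη]; positivity
  obtain ⟨θ, hθ, J₂, hU⟩ := hU η hη0
  obtain ⟨τ, hτ⟩ : ∃ τ, τ = min (min η (θ * c)) (ε / (8 * a)) := ⟨_, rfl⟩
  have hτ0 : 0 < τ := by rw [hτ]; positivity
  have hτ1 : τ ≤ η := by rw [hτ]; exact (min_le_left _ _).trans (min_le_left _ _)
  have hτ2 : τ ≤ θ * c := by rw [hτ]; exact (min_le_left _ _).trans (min_le_right _ _)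
  have hτ3 : a * τ ≤ ε / 8 := by
    have : τ ≤ ε / (8 * a) := by rw [hτ]; exact min_le_right _ _
    rw [le_div_iff₀ (by positivity)] at this
    linarith
  obtain ⟨J₁, hJ₁⟩ := exists_nat_gt (J₂ / c + 8 * (a * C₃) / ε)
  refine ⟨τ, hτ0, J₁, ?_⟩
  intro J hJ F hF x hx hcx
  have hJr : (J₁ : ℝ) ≤ J := by exact_mod_cast hJ
  have q1 : 0 ≤ (J₂ : ℝ) / c := by positivity
  have q2 : 0 ≤ 8 * (a * C₃) / ε := by positivity
  have j1 : (J₂ : ℝ) / c < J := by linarith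
  have j2 : 8 * (a * C₃) / ε < J := by linarith
  rw [div_lt_iff₀ hc] at j1
  rw [div_lt_iff₀ hε] at j2
  have hJ0 : (0 : ℝ) ≤ J := Nat.cast_nonneg J
  have hx2 : x ≥ J₂ := by
    have : (J₂ : ℝ) ≤ x := by linarith
    exact_mod_cast this
  have hTm2 := (htrc J F x hx (τ * J) hF.1).1
  have hTm3 : (F.trc x hx).Tm (θ * x) := by
    unfold Fam.Tm at hTm2 ⊢
    refine le_trans ?_ hTm2
    have h1 : τ * J ≤ θ * x := by
      calc τ * J ≤ θ * c * J := mul_le_mul_of_nonneg_right hτ2 hJ0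
        _ = θ * (c * J) := by ring
        _ ≤ _ := mul_le_mul_of_nonneg_left hcx hθ.le
    linarith
  have hub := hU x hx2 (F.trc x hx) hTm3
  have hGa2 : (R - η) * J ≤ F.Ga a := by
    refine le_trans ?_ hF.2
    exact mul_le_mul_of_nonneg_right (by linarith) hJ0
  have h3 := (hap3 J x hx F a R η (τ * J) ha hη0.le hF.1 hGa2 hub).2
  have e1 : a * (τ * J + C₃) = (a * τ) * J + a * C₃ := by ring
  have e2 : (a * τ) * J ≤ ε / 8 * J := mul_le_mul_of_nonneg_right hτ3 hJ0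
  have e3 : 2 * η * J = ε / 4 * J := by rw [hη]; ring
  have e4 : 0 ≤ ε * J := by positivity
  rw [e1, e3] at h3
  linarith

/-- Smaller relations. -/
theorem NonConc.rel {Ω S T S' : Type} [Fintype Ω] {q : Ω → ℝ} (hq : IsLaw q) {c : Ω → S'}
    {g : Ω → T} {r r' : S' → S → Prop} {ρ : ℝ} (h : NonConc q c g r ρ)
    (hr : ∀ x s, r' x s → r x s) : NonConc q c g r' ρ :=
  fun ω hω s => (mas_mono hq fun _ _ _ h' => hr _ _ h').trans (h ω hω s)

/-- The grid point below. -/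
theorem grid_near (lam : ℕ) (x : ℝ) : |x - (⌊(2 : ℝ) ^ lam * x⌋ : ℝ) / 2 ^ lam| ≤ ((2 : ℝ) ^ lam)⁻¹ := by
  have h2 : (0 : ℝ) < 2 ^ lam := by positivity
  have h1 := Int.floor_le ((2 : ℝ) ^ lam * x)
  have h3 := Int.lt_floor_add_one ((2 : ℝ) ^ lam * x)
  have e1 : x - (⌊(2 : ℝ) ^ lam * x⌋ : ℝ) / 2 ^ lam =
      ((2 : ℝ) ^ lam * x - ⌊(2 : ℝ) ^ lam * x⌋) / 2 ^ lam := by
    field_simp
  rw [e1, abs_div, abs_of_pos h2, abs_of_nonneg (by linarith), inv_eq_one_div]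
  exact div_le_div_of_nonneg_right (by linarith) h2.le

end Pool.K2S
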