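import Pool.Agent.H35.K2S.Pj
import Pool.Agent.H64.K2.Plk

/-!
# Rows in planks and rows of positions
-/

set_option autoImplicit false

namespace Pool.K2S

open Finset Real
open Pool.Agent.H49.Ent Pool.Agent.H32.Dense Pool.STK Pool.KA Pool.KA.Win Pool.KA.TRC Rows

variable {m J : ℕ}

namespace FF

/-- **Comparison.** The rows of a plank family and the remaining rows of the chart coordinate are
at most the rows of the positions. -/
theorem compare (F : Fam m J) (i₀ : Fin m) (z : F.Ω → Fin m → ℝ) {w lam K w₂ : ℕ} {C c₁ : ℝ}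
    (hw₂ : w₂ ≤ J) (hK : w + K ≤ w₂)
    (hU : CH F.p (F.X (w + lam)) (fun ω => (F.T ω, F.plab w lam i₀ z ω)) ≤ c₁)
    (hL : CH F.p ((F.plk w lam i₀ z).X K) (fun ω => (F.X J ω, (F.T ω, F.plab w lam i₀ z ω))) ≤
      C) :
    CH (F.plk w lam i₀ z).p ((F.plk w lam i₀ z).X K) (F.plk w lam i₀ z).W +
      CH F.p (fun ω => ⌊(2 : ℝ) ^ J * F.x ω i₀⌋) (fun ω => (F.T ω, F.plab w₂ lam i₀ z ω)) ≤
      c₁ + CH F.p (F.X J) (fun ω => (F.X (w + lam) ω, F.W ω)) + C +
        m * (2 * Real.log 5 + Real.log 3) := by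
  have hp := F.isLaw.nonneg
  have hwJ : w ≤ J := by omega
  set G := F.plk w lam i₀ z with hG
  set B : F.Ω → _ := fun ω => (F.T ω, F.plab w lam i₀ z ω) with hB
  set Y : F.Ω → ℤ := fun ω => ⌊(2 : ℝ) ^ J * F.x ω i₀⌋ with hY
  -- the window label of the plank family
  have e0 : CH G.p (G.X K) G.W = CH F.p (G.X K) B := by
    refine CH_congr (p := F.p) hp ?_ ?_ ?_ ?_
    · intro ω ω' _ _ e
      exact (Prod.ext_iff.mp e).1
    · intro ω ω' _ _ e
      exact (Prod.ext_iff.mp e).1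
    · intro ω ω' _ _ e
      have e1 : F.T ω % 2 ^ (J - w) = F.T ω' % 2 ^ (J - w) := (Prod.ext_iff.mp e).1
      have e2 : F.plab w lam i₀ z ω = F.plab w lam i₀ z ω' := (Prod.ext_iff.mp e).2
      have e3 : F.T1 w ω = F.T1 w ω' :=
        (Prod.ext_iff.mp (Prod.ext_iff.mp (Prod.ext_iff.mp e2).1).1).1
      exact Prod.ext (T_det F w e3 e1) e2
    · intro ω ω' _ _ e
      have e1 : F.T ω = F.T ω' := (Prod.ext_iff.mp e).1
      exact Prod.ext (det_T F w e1).2 (Prod.ext_iff.mp e).2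
  -- chain rule
  have c1 := CH_bayes hp (F.X J) (G.X K) B
  have c2 : CH F.p Y (fun ω => (G.X K ω, B ω)) ≤ CH F.p (F.X J) (fun ω => (G.X K ω, B ω)) := by
    refine CH_mono_left hp fun ω ω' _ _ e => ?_
    have e1 : F.X J ω = F.X J ω' := (Prod.ext_iff.mp e).1
    exact congrFun e1 i₀
  have c3 : CH F.p Y (fun ω => (F.plab w₂ lam i₀ z ω, (G.X K ω, B ω))) ≤
      CH F.p Y (fun ω => (G.X K ω, B ω)) :=
    CH_mono_cond hp fun ω ω' _ _ e => (Prod.ext_iff.mp e).2
  have c4 := CH_bayes hp Y (fun ω => (G.X K ω, F.plab w lam i₀ z ω))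
    (fun ω => (F.T ω, F.plab w₂ lam i₀ z ω))
  have c5 : CH F.p Y (fun ω => (F.plab w₂ lam i₀ z ω, (G.X K ω, B ω))) =
      CH F.p Y (fun ω => ((G.X K ω, F.plab w lam i₀ z ω), (F.T ω, F.plab w₂ lam i₀ z ω))) := by
    refine CH_congr hp ?_ ?_ ?_ ?_
    · intro ω ω' _ _ e
      exact (Prod.ext_iff.mp e).1
    · intro ω ω' _ _ e
      exact (Prod.ext_iff.mp e).1
    · intro ω ω' _ _ e
      have e1 := Prod.ext_iff.mp e
      have e2 := Prod.ext_iff.mp e1.2
      have e3 := Prod.ext_iff.mp e2.2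
      exact Prod.ext (Prod.ext e2.1 e3.2) (Prod.ext e3.1 e1.1)
    · intro ω ω' _ _ e
      have e1 := Prod.ext_iff.mp e
      have e2 := Prod.ext_iff.mp e1.1
      have e3 := Prod.ext_iff.mp e1.2
      exact Prod.ext e3.2 (Prod.ext e2.1 (Prod.ext e3.1 e2.2))
  have c6 := CH_nonneg hp (fun ω => (G.X K ω, F.plab w lam i₀ z ω))
    (fun ω => (Y ω, (F.T ω, F.plab w₂ lam i₀ z ω)))
  -- the labels are nested
  have d1 : CH F.p (fun ω => (G.X K ω, F.plab w lam i₀ z ω))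
      (fun ω => (F.T ω, F.plab w₂ lam i₀ z ω)) ≤ m * (2 * Real.log 5 + Real.log 3) := by
    have a1 := CH_le_add hp (fun ω => (G.X K ω, F.plab w lam i₀ z ω)) (F.plab w lam i₀ z)
      (fun ω => (F.T ω, F.plab w₂ lam i₀ z ω))
    have a2 : CH F.p (F.plab w lam i₀ z) (fun ω => (F.T ω, F.plab w₂ lam i₀ z ω)) ≤
        m * Real.log 5 := by
      obtain ⟨k, hk⟩ := Nat.exists_eq_add_of_le (show w ≤ w₂ by omega)
      have b1 := Plk.CH_plab_nest F (w := w) (K := k) (by omega) lam i₀ z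
      rw [← hk] at b1
      refine le_trans ?_ b1
      exact CH_mono_cond hp fun ω ω' _ _ e => (Prod.ext_iff.mp e).2
    have a3 := CH_le_add hp (fun ω => (G.X K ω, F.plab w lam i₀ z ω)) (F.plab (w + K) lam i₀ z)
      (fun ω => (F.plab w lam i₀ z ω, (F.T ω, F.plab w₂ lam i₀ z ω)))
    have a4 : CH F.p (F.plab (w + K) lam i₀ z)
        (fun ω => (F.plab w lam i₀ z ω, (F.T ω, F.plab w₂ lam i₀ z ω))) ≤ m * Real.log 5 := by
      obtain ⟨k, hk⟩ := Nat.exists_eq_add_of_le hK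
      have b1 := Plk.CH_plab_nest F (w := w + K) (K := k) (by omega) lam i₀ z
      rw [← hk] at b1
      refine le_trans ?_ b1
      exact CH_mono_cond hp fun ω ω' _ _ e => (Prod.ext_iff.mp (Prod.ext_iff.mp e).2).2
    have a5 : CH F.p (fun ω => (G.X K ω, F.plab w lam i₀ z ω))
        (fun ω => (F.plab (w + K) lam i₀ z ω,
          (F.plab w lam i₀ z ω, (F.T ω, F.plab w₂ lam i₀ z ω)))) ≤ m * Real.log 3 := by
      refine le_trans ?_ (Plk.CH_X_le F (w := w) (K := K) (by omega) lam i₀ z)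
      refine le_trans (CH_mono_left hp (X' := G.X K) ?_) (CH_mono_cond hp ?_)
      · intro ω ω' _ _ e
        have e1 := Prod.ext_iff.mp e
        have e2 := Prod.ext_iff.mp e1.2
        exact Prod.ext e1.1 (Prod.ext_iff.mp e2.2).1
      · intro ω ω' _ _ e
        have e1 := Prod.ext_iff.mp e
        exact Prod.ext e1.1 (Prod.ext_iff.mp e1.2).1
    have a6 : (m : ℝ) * (2 * Real.log 5 + Real.log 3) =
        m * Real.log 5 + (m * Real.log 5 + m * Real.log 3) := by ring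
    rw [a6]
    linarith
  -- the upper bound
  have u1 := CH_le_add hp (F.X J) (F.X (w + lam)) B
  have u2 : CH F.p (F.X J) (fun ω => (F.X (w + lam) ω, B ω)) ≤
      CH F.p (F.X J) (fun ω => (F.X (w + lam) ω, F.W ω)) := by
    refine CH_mono_cond hp fun ω ω' _ _ e => ?_
    have e1 := Prod.ext_iff.mp e
    have e2 := Prod.ext_iff.mp e1.2
    have e3 : F.plab w lam i₀ z ω = F.plab w lam i₀ z ω' := e2.2
    have e4 : F.Z ω = F.Z ω' := (Prod.ext_iff.mp e3).2
    exact Prod.ext e1.1 (Prod.ext e2.1 e4)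
  rw [e0]
  linarith

end FF

end Pool.K2S
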