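import Pool.Agent.H35.K2S.FFX1

/-!
# The rows of a plank family together with the remaining rows of the chart coordinate
-/

set_option autoImplicit false

namespace Pool.K2S

open Finset Real
open Pool.Agent.H49.Ent Pool.Agent.H32.Dense Pool.STK Pool.KA Pool.KA.Win Pool.KA.TRC Rows

variable {m J : ℕ}

namespace FF

open Classical in
/-- Given the label `L`, the vectors `d` are not within `4 / 2 ^ h` of any affine `k`-plane,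
outside conditional probability `ρ`. -/
def Spn {Ω S : Type} [Fintype Ω] {n : ℕ} (k h : ℕ) (q : Ω → ℝ) (d : Ω → Fin n → ℝ) (L : Ω → S)
    (ρ : ℝ) : Prop :=
  ∀ ω, 0 < q ω → ∀ (v : Fin n → ℝ) (B : Fin k → Fin n → ℝ),
    (∑ ω', if ∃ c : Fin k → ℝ, ∀ j, |d ω' j - v j - ∑ i, c i * B i j| ≤ 4 / 2 ^ h
      then cond q L (L ω) ω' else 0) ≤ ρ

/-- The label of `rows_thm`. -/
noncomputable def rlab {m J : ℕ} (F : Fam m J) (K i : ℕ) (ω : F.Ω) :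
    ((ℕ × (Fin m → ℤ)) × F.ζ) × (((ℕ × (Fin m → ℤ)) × F.ζ) × ((Fin m → ℤ) × ℕ)) :=
  (F.c (0 + i * K) ω, (F.c (0 + (i + 1) * K) ω, (F.X (0 + (i + 1) * K) ω,
    F.T1 (0 + (i + 1) * K) ω)))

/-- The plank label is a function of the line and of the window. -/
theorem plab_Det (F : Fam m J) {w w₂ lam : ℕ} (h : w ≤ w₂) (h' : w₂ ≤ J) {i₀ : Fin m}
    {z : F.Ω → Fin m → ℝ} (hz : Det F.p (fun ω => (F.l ω, (F.T1 w ω, F.Z ω))) z) :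
    Det F.p (fun ω => (F.l ω, (F.T1 w₂ ω, F.Z ω))) (F.plab w₂ lam i₀ z) := by
  intro ω ω' a b e
  have e1 := Prod.ext_iff.mp e
  have e2 := Prod.ext_iff.mp e1.2
  have e3 : F.T1 w ω = F.T1 w ω' := T1_det F h h' e2.1
  have e4 : z ω = z ω' := hz ω ω' a b (Prod.ext e1.1 (Prod.ext e3 e2.2))
  exact (Plk.plab_det F e1.1 e2.1 e4 e2.2).1

/-- **Sum of the rows.** -/
theorem sum_rows : ∃ C₀ : ℝ, 0 ≤ C₀ ∧ ∀ (J : ℕ) (F : Fam 2 J) (i₀ : Fin 2)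
    (z : F.Ω → Fin 2 → ℝ) (w lam N K a h N₂ K₂ a₂ h₂ : ℕ) (e ρ C c₁ : ℝ),
    w + lam + N * K ≤ J → N₂ * K₂ ≤ lam → F.Tm e →
    Det F.p (fun ω => (F.l ω, (F.T1 w ω, F.Z ω))) z →
    2 ≤ h → a + (h + 3) * 2 + h ≤ K → 2 ≤ h₂ → a₂ + (h₂ + 3) * 1 + h₂ ≤ K₂ →
    CH F.p (F.X (w + lam)) (fun ω => (F.T ω, F.plab w lam i₀ z ω)) ≤ c₁ →
    CH F.p ((F.plk w lam i₀ z).X (N * K)) (fun ω => (F.X J ω, (F.T ω, F.plab w lam i₀ z ω))) ≤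
      C →
    (∀ i < N, Spn 1 h F.p (F.plk w lam i₀ z).d (rlab (F.plk w lam i₀ z) K i) ρ) →
    (∀ i < N₂, Spn 0 h₂ F.p (F.pj i₀ (J - lam) (F.plab (J - lam) lam i₀ z)).d
      (rlab (F.pj i₀ (J - lam) (F.plab (J - lam) lam i₀ z)) K₂ i) ρ) →
    N * (2 * (a * Real.log 2) - 9 * (a * Real.log 2) * ρ - 4 * e - C₀) -
        3 * (2 * (K * Real.log 2) + C₀) +
      (N₂ * (a₂ * Real.log 2 - 4 * (a₂ * Real.log 2) * ρ - 3 * e - C₀) -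
        2 * (K₂ * Real.log 2 + C₀)) ≤
      c₁ + CH F.p (F.X J) (fun ω => (F.X (w + lam) ω, F.W ω)) + C + C₀ := by
  obtain ⟨C₁, hC₁, h1⟩ := rows_thm 1
  obtain ⟨C₂, hC₂, h2⟩ := rows_thm 0
  refine ⟨C₁ + C₂ + (2 : ℕ) * (2 * Real.log 5 + Real.log 3), by positivity, ?_⟩
  intro J F i₀ z w lam N K a h N₂ K₂ a₂ h₂ e ρ C c₁ hJ hN₂ he hz hh haK hh₂ haK₂ hU hL
    hc hc₂
  have hp := F.isLaw.nonneg
  have hw : w ≤ J := by omega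
  have hlam : lam ≤ J := by omega
  have hw₂ : J - lam ≤ J := Nat.sub_le _ _
  set w₂ := J - lam with hw₂'
  set S := F.plab w₂ lam i₀ z with hS
  have hlog5 : (0 : ℝ) ≤ 2 * Real.log 5 + Real.log 3 := by positivity
  have p1 : (F.plk w lam i₀ z).Tm e := Plk.plk_Tm F hw i₀ z
    (fun ω ω' a' b' e1 e2 e3 => hz ω ω' a' b' (Prod.ext e1 (Prod.ext e2 e3))) he
  have p2 : (F.pj i₀ w₂ S).Tm e :=
    Pj.pj_Tm F i₀ hw₂ S (plab_Det F (by omega) hw₂ hz) he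
  have q1 := h1 (J - w) (F.plk w lam i₀ z) K a h N 0 e ρ (by omega) p1 hh haK hc
  have q2 := h2 (J - w₂) (F.pj i₀ w₂ S) K₂ a₂ h₂ N₂ 0 e ρ (by omega) p2 hh₂ haK₂ hc₂
  have r1 : CH (F.plk w lam i₀ z).p ((F.plk w lam i₀ z).X (0 + N * K))
      (fun ω => ((F.plk w lam i₀ z).X 0 ω, (F.plk w lam i₀ z).W ω)) ≤
      CH (F.plk w lam i₀ z).p ((F.plk w lam i₀ z).X (N * K)) (F.plk w lam i₀ z).W := by
    rw [Nat.zero_add]
    refine CH_mono_cond (p := F.p) hp fun ω ω' _ _ e' => ?_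
    exact (Prod.ext_iff.mp e').2
  have r2 : CH (F.pj i₀ w₂ S).p ((F.pj i₀ w₂ S).X (0 + N₂ * K₂))
      (fun ω => ((F.pj i₀ w₂ S).X 0 ω, (F.pj i₀ w₂ S).W ω)) ≤
      CH F.p (fun ω => ⌊(2 : ℝ) ^ J * F.x ω i₀⌋) (fun ω => (F.T ω, S ω)) := by
    rw [Nat.zero_add]
    refine (Pj.pj_row F i₀ hw₂ S (N₂ * K₂)).trans ?_
    refine le_trans (CH_mono_left hp (X' := fun ω => ⌊(2 : ℝ) ^ J * F.x ω i₀⌋) ?_)
      (CH_mono_cond hp ?_)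
    · intro ω ω' _ _ e'
      have e1 : ⌊(2 : ℝ) ^ J * F.x ω i₀⌋ = ⌊(2 : ℝ) ^ J * F.x ω' i₀⌋ := (Prod.ext_iff.mp e').1
      obtain ⟨k, hk⟩ := Nat.exists_eq_add_of_le (show N₂ * K₂ + w₂ ≤ J by omega)
      have e2 : (2 : ℝ) ^ J = 2 ^ (N₂ * K₂ + w₂ + k) := by rw [← hk]
      rw [e2] at e1
      exact Pool.STK.B58.floor_fine (N₂ * K₂ + w₂) k e1
    · intro ω ω' _ _ e'
      have e1 := Prod.ext_iff.mp e'
      have e2 := Prod.ext_iff.mp e1.2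
      exact Prod.ext e1.1 (Prod.ext_iff.mp e2.2).1
  have r3 := compare F i₀ z (w₂ := w₂) hw₂ (show w + N * K ≤ w₂ by omega) hU hL
  push_cast at q1 q2 r3 ⊢
  have k1 : (0 : ℝ) ≤ N := by positivity
  have k2 : (0 : ℝ) ≤ N₂ := by positivity
  have k3 : (N : ℝ) * (C₁ + C₂ + 2 * (2 * Real.log 5 + Real.log 3)) ≥ N * C₁ := by
    have : 0 ≤ (N : ℝ) * (C₂ + 2 * (2 * Real.log 5 + Real.log 3)) := by positivity
    nlinarith
  have k4 : (N₂ : ℝ) * (C₁ + C₂ + 2 * (2 * Real.log 5 + Real.log 3)) ≥ N₂ * C₂ := by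
    have : 0 ≤ (N₂ : ℝ) * (C₁ + 2 * (2 * Real.log 5 + Real.log 3)) := by positivity
    nlinarith
  nlinarith [q1, q2, r1, r2, r3, k3, k4]

end FF

end Pool.K2S
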