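import Pool.Agent.H35.K2S.FFCl

/-!
# FF: nonconcentration in the windows, and the numbers
-/

set_option autoImplicit false

namespace Pool.K2S

open Finset Real
open Pool.Agent.H49.Ent Pool.Agent.H32.Dense Pool.STK Pool.KA Pool.KSAT Pool.KA.Win Pool.KA.TRC
open Rows

variable {m J : ℕ}

namespace FF

theorem vis_nonneg (m : ℕ) : 0 ≤ vis m := by
  unfold vis
  have h1 : 0 ≤ Real.log (4 * ((2 : ℕ) : ℝ) + 1) := Real.log_nonneg (by norm_num)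
  have h2 : 0 ≤ Real.log (4 * ((2 : ℕ) : ℝ) + 7) := Real.log_nonneg (by norm_num)
  have h3 : 0 ≤ Real.log (4 * ((2 : ℕ) : ℝ) + 2 * 4 + 9) := Real.log_nonneg (by norm_num)
  positivity

theorem dlt_mono {m : ℕ} {c : ℝ} (hc : 0 ≤ c) {N N' N₂ N₂' : ℕ} (h : N ≤ N') (h₂ : N₂ ≤ N₂') :
    dlt m 4 c N N₂ ≤ dlt m 4 c N' N₂' := by
  have h1 := cc_nonneg m
  have h2 := cc_nonneg 1
  have h3 : 0 ≤ Real.log (2 * (4 : ℝ) + 5) := Real.log_nonneg (by norm_num)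
  have h4 : 0 ≤ Real.log (3 : ℝ) := Real.log_nonneg (by norm_num)
  have e1 : (N : ℝ) ≤ N' := by exact_mod_cast h
  have e2 : (N₂ : ℝ) ≤ N₂' := by exact_mod_cast h₂
  unfold dlt
  exact add_le_add (mul_le_mul_of_nonneg_right e1 (by positivity))
    (mul_le_mul_of_nonneg_right e2 (by positivity))

theorem dlt_nonneg {m : ℕ} {c : ℝ} (hc : 0 ≤ c) (N N₂ : ℕ) : 0 ≤ dlt m 4 c N N₂ := by
  have h := dlt_mono (m := m) hc (Nat.zero_le N) (Nat.zero_le N₂)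
  have e : dlt m 4 c 0 0 = 0 := by unfold dlt; simp
  rw [e] at h
  exact h

/-- The plank windows are nonconcentrated. -/
theorem spn_plk (F : Fam 2 J) {w lam hh x1 h K N w₂ K₂ N₂ i : ℕ} (hc : hh + x1 + 4 ≤ h)
    {i₀ : Fin 2} {z : F.Ω → Fin 2 → ℝ} {ρ : ℝ}
    (h1 : NonConc F.p F.d (K2S.Fam.pt F) (lnR i₀ (1 / 2 ^ (lam + hh))) ρ)
    (h2 : NonConc F.p (fun ω => F.d ω i₀) (K2S.Fam.pt F)
      (fun D (v : ℝ) => |D - v| ≤ ((2 : ℝ) ^ x1)⁻¹) ρ)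
    (hE : Det F.p (K2S.Fam.pt F) (labs F w lam K N w₂ K₂ N₂ i₀ z)) (hi : i < N) :
    Spn 1 h F.p (F.plk w lam i₀ z).d (rlab (F.plk w lam i₀ z) K i) ρ := by
  intro ω hω v B
  refine Plk.strip_conc F (w := w) hc (L := rlab (F.plk w lam i₀ z) K i) ?_ h2 ?_ ?_ ω hω v B
  · refine h1.rel F.isLaw fun D s hs j => ?_
    have := hs j
    rw [one_div]
    exact this
  · intro ω ω' a b e
    have e1 := (Prod.ext_iff.mp (hE ω ω' a b e)).1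
    exact congrFun e1 ⟨i, hi⟩
  · intro ω ω' a b e
    have e1 := (Prod.ext_iff.mp e).1
    have e2 : F.plab w lam i₀ z ω = F.plab w lam i₀ z ω' := (Prod.ext_iff.mp e1).2
    have e3 := Prod.ext_iff.mp (Prod.ext_iff.mp e2).1
    exact Prod.ext (Prod.ext_iff.mp e3.1).2 (Prod.ext_iff.mp e3.2).2

/-- The projected windows are nonconcentrated. -/
theorem spn_pj (F : Fam 2 J) {w lam x1 h K N w₂ K₂ N₂ i : ℕ} (hc : x1 + 2 ≤ h)
    {i₀ : Fin 2} {z : F.Ω → Fin 2 → ℝ} {ρ : ℝ}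
    (h2 : NonConc F.p (fun ω => F.d ω i₀) (K2S.Fam.pt F)
      (fun D (v : ℝ) => |D - v| ≤ ((2 : ℝ) ^ x1)⁻¹) ρ)
    (hE : Det F.p (K2S.Fam.pt F) (labs F w lam K N w₂ K₂ N₂ i₀ z)) (hi : i < N₂) :
    Spn 0 h F.p (F.pj i₀ w₂ (F.plab w₂ lam i₀ z)).d
      (rlab (F.pj i₀ w₂ (F.plab w₂ lam i₀ z)) K₂ i) ρ := by
  intro ω hω v B
  have hdet : Det F.p (K2S.Fam.pt F) (rlab (F.pj i₀ w₂ (F.plab w₂ lam i₀ z)) K₂ i) := by
    intro ω ω' a b e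
    have e1 := (Prod.ext_iff.mp (hE ω ω' a b e)).2
    exact congrFun e1 ⟨i, hi⟩
  refine le_trans (le_of_eq ?_) (Plk.interval_conc F (w := w₂) hc (Sd := F.plab w₂ lam i₀ z)
    (L := rlab (F.pj i₀ w₂ (F.plab w₂ lam i₀ z)) K₂ i) h2 hdet ω hω v B)
  refine Finset.sum_congr rfl fun ω' _ => ?_
  by_cases h : ∃ c : Fin 0 → ℝ, ∀ j, |(F.pj i₀ w₂ (F.plab w₂ lam i₀ z)).d ω' j - v j -
      ∑ i, c i * B i j| ≤ 4 / 2 ^ h
  · rw [if_pos h, if_pos h]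
  · rw [if_neg h, if_neg h]

/-- The numbers of the proof, with a real parameter `h₁`. -/
theorem room {J N n₂ p j : ℕ} {h₁ X : ℝ} (hn₂ : 0 < n₂) (hN : 1 ≤ N)
    (hn : 2 / h₁ ≤ n₂) (hh₁ : 0 < h₁) (hjp : j ≤ p) (hpN : p ≤ N) (hXp : X * N ≤ (N : ℝ) - p)
    (hhj : h₁ * N ≤ j) (hJ12 : 12 ≤ J / n₂) (hJN : 2 * N ≤ J) (hJh : 24 / h₁ < J) :
    j * (J / N) + (p - j) * (J / N) = p * (J / N) ∧ p * (J / N) ≤ J ∧
      X * J ≤ ((J - p * (J / N) : ℕ) : ℝ) ∧ h₁ / 2 * J ≤ (j * (J / N) : ℕ) ∧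
      (J / n₂) / 4 - 1 + 3 ≤ ⌊h₁ * J⌋₊ ∧ (J / n₂) / 4 - 1 + 2 ≤ j * (J / N) ∧
      1 / (16 * (n₂ : ℝ)) * J ≤ ((J / n₂) / 4 - 1 : ℕ) ∧
      1 / (8 * (n₂ : ℝ)) * J ≤ ((J / n₂) / 4 : ℕ) ∧ (J / n₂) / 4 - 1 ≤ J := by
  have hn₂r : (0 : ℝ) < n₂ := by exact_mod_cast hn₂
  have hNr : (0 : ℝ) < N := by
    have : 0 < N := by omega
    exact_mod_cast this
  have hJ0 : (0 : ℝ) ≤ J := Nat.cast_nonneg J
  have u1 : N * (J / N) ≤ J := Nat.mul_div_le J N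
  have u2 : p * (J / N) ≤ J := (Nat.mul_le_mul_right _ hpN).trans u1
  have u3 : J < N * (J / N + 1) := Nat.lt_mul_div_succ J (by omega)
  have u3r : (J : ℝ) < N * ((J / N : ℕ) + 1) := by exact_mod_cast u3
  have hJNr : 2 * (N : ℝ) ≤ J := by exact_mod_cast hJN
  have u1r : (N : ℝ) * (J / N : ℕ) ≤ J := by exact_mod_cast u1
  have v1 : n₂ * (J / n₂) ≤ J := Nat.mul_div_le J n₂
  have v2 : J < n₂ * (J / n₂ + 1) := Nat.lt_mul_div_succ J hn₂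
  have v1r : (n₂ : ℝ) * (J / n₂ : ℕ) ≤ J := by exact_mod_cast v1
  have v2r : (J : ℝ) < n₂ * ((J / n₂ : ℕ) + 1) := by exact_mod_cast v2
  have hHr : (12 : ℝ) ≤ (J / n₂ : ℕ) := by exact_mod_cast hJ12
  obtain ⟨H, hH⟩ : ∃ H, H = J / n₂ := ⟨_, rfl⟩
  rw [← hH] at v1r v2r hHr hJ12 ⊢
  have w1 : 4 * (H / 4) ≤ H := Nat.mul_div_le H 4
  have w2 : H < 4 * (H / 4 + 1) := Nat.lt_mul_div_succ H (by norm_num)
  have w1r : 4 * ((H / 4 : ℕ) : ℝ) ≤ H := by exact_mod_cast w1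
  have w2r : (H : ℝ) ≤ 4 * ((H / 4 : ℕ) : ℝ) + 3 := by
    have : H ≤ 4 * (H / 4) + 3 := by omega
    exact_mod_cast this
  have hq : ((H / 4 - 1 : ℕ) : ℝ) = (H / 4 : ℕ) - 1 := by
    rw [Nat.cast_sub (by omega)]
    push_cast
    ring
  have hHle : (H : ℝ) ≤ h₁ / 2 * J := by
    have h1 : (H : ℝ) ≤ J / n₂ := by
      rw [le_div_iff₀ hn₂r]
      linarith only [v1r]
    refine h1.trans ?_
    rw [div_le_iff₀ hn₂r]
    rw [div_le_iff₀ hh₁] at hn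
    nlinarith only [hn]
  have hJh' : 24 < h₁ * J := by
    rw [div_lt_iff₀ hh₁] at hJh
    linarith only [hJh]
  have hlam : h₁ / 2 * J ≤ ((j * (J / N) : ℕ) : ℝ) := by
    push_cast
    have h1 : h₁ * N * (J / N : ℕ) ≤ j * (J / N : ℕ) :=
      mul_le_mul_of_nonneg_right hhj (Nat.cast_nonneg _)
    have h2 : (J : ℝ) / 2 ≤ N * (J / N : ℕ) := by nlinarith only [u3r, hJNr]
    have h3 : h₁ * (J / 2) ≤ h₁ * (N * (J / N : ℕ)) := mul_le_mul_of_nonneg_left h2 hh₁.le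
    linarith only [h1, h3]
  refine ⟨?_, u2, ?_, hlam, ?_, ?_, ?_, ?_, ?_⟩
  · rw [← Nat.add_mul]
    congr 1
    omega
  · rw [Nat.cast_sub u2]
    push_cast
    have h1 : ((J / N : ℕ) : ℝ) ≤ J / N := Nat.cast_div_le
    have h2 : (p : ℝ) * (J / N : ℕ) ≤ p * ((J : ℝ) / N) :=
      mul_le_mul_of_nonneg_left h1 (Nat.cast_nonneg _)
    have h3 : (p : ℝ) * ((J : ℝ) / N) ≤ (N - X * N) * (J / N) :=
      mul_le_mul_of_nonneg_right (by linarith only [hXp]) (by positivity)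
    have h4 : ((N : ℝ) - X * N) * (J / N) = J - X * J := by field_simp
    linarith only [h2, h3, h4]
  · have : ((H / 4 - 1 + 3 : ℕ) : ℝ) ≤ h₁ * J := by
      push_cast
      rw [hq]
      linarith only [w1r, hHle, hJh']
    exact Nat.le_floor this
  · have : ((H / 4 - 1 + 2 : ℕ) : ℝ) ≤ ((j * (J / N) : ℕ) : ℝ) := by
      refine le_trans ?_ hlam
      push_cast
      rw [hq]
      linarith only [w1r, hHle, hJh']
    exact_mod_cast this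
  · rw [hq, div_mul_eq_mul_div, one_mul, div_le_iff₀ (by positivity)]
    nlinarith only [hn₂r, v2r, hHr, w2r]
  · rw [div_mul_eq_mul_div, one_mul, div_le_iff₀ (by positivity)]
    nlinarith only [hn₂r, v2r, hHr, w2r]
  · have : H ≤ J := by rw [hH]; exact Nat.div_le_self _ _
    omega

end FF

end Pool.K2S
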