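import Pool.Agent.H35.K2S.Prod

/-!
# Fans at exact points, frames and turning thresholds

`pt ω` is the point of the sample (for instance the exact time and position), `d ω` its direction,
`wn ω` its window (for instance the line with the first digits of the time).
-/

set_option autoImplicit false

namespace Pool.K2S

open Finset Real
open Pool.Agent.H49.Ent Pool.Agent.H32.Dense Pool.STK Pool.KA

variable {Ω U V V' : Type} [Fintype Ω] {m : ℕ}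

/-- (2.2.3) Cleaning. -/
theorem Pe_diff {p : Ω → ℝ} {A N : Ω → Prop}
    (hN : Pe p (fun ω => A ω ∧ N ω) ≤ Pe p A / 2) :
    Real.exp (-Real.log 2) * Pe p A ≤ Pe p (fun ω => A ω ∧ ¬ N ω) := by
  classical
  have h : Pe p A = Pe p (fun ω => A ω ∧ N ω) + Pe p (fun ω => A ω ∧ ¬ N ω) := by
    simp_rw [Pe_eq]
    rw [← Finset.sum_add_distrib]
    refine Finset.sum_congr rfl fun ω _ => ?_
    by_cases h1 : A ω <;> by_cases h2 : N ω <;> simp [h1, h2]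
  rw [Real.exp_neg, Real.exp_log (by norm_num)]
  linarith

theorem Stb.diff {p : Ω → ℝ} {κ : ℝ} {A N : Ω → Prop} {Q : (Ω → Prop) → Prop} (hQ : Hered Q)
    (hs : Stb p κ A Q) (hN : Pe p (fun ω => A ω ∧ N ω) ≤ Pe p A / 2) :
    Stb p (κ - Real.log 2) (fun ω => A ω ∧ ¬ N ω) Q :=
  hs.sub hQ (fun _ h => h.1) (Pe_diff hN)

/-! ### Spread of the fans -/

/-- At each point the directions lie in one ball of radius `r`. -/
def Ball (r : ℝ) (pt : Ω → U) (d : Ω → Fin m → ℝ) : (Ω → Prop) → Prop :=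
  Fn d pt (fun D (v : Fin m → ℝ) => ∀ j, |D j - v j| ≤ r)

omit [Fintype Ω] in
theorem Ball.hered (r : ℝ) (pt : Ω → U) (d : Ω → Fin m → ℝ) : Hered (Ball r pt d) :=
  Fn.hered _ _ _

/-- The fan of the point has diameter at most `r`. -/
def Thin (r : ℝ) (pt : Ω → U) (d : Ω → Fin m → ℝ) (A : Ω → Prop) (ω : Ω) : Prop :=
  ∀ ω' ω'', A ω' → A ω'' → pt ω' = pt ω → pt ω'' = pt ω → ∀ j, |d ω' j - d ω'' j| ≤ r

/-- All fans have diameter more than `r`. -/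
def Spread (r : ℝ) (pt : Ω → U) (d : Ω → Fin m → ℝ) (A : Ω → Prop) : Prop :=
  ∀ ω, A ω → ∃ ω' ω'', A ω' ∧ A ω'' ∧ pt ω' = pt ω ∧ pt ω'' = pt ω ∧ ∃ j, r < |d ω' j - d ω'' j|

omit [Fintype Ω] in
theorem ball_thin (r : ℝ) (pt : Ω → U) (d : Ω → Fin m → ℝ) (A : Ω → Prop) :
    Ball r pt d (fun ω => A ω ∧ Thin r pt d A ω) := by
  classical
  by_cases h : ∃ ω, A ω ∧ Thin r pt d A ω
  · have hex : ∀ u : U, ∃ v : Fin m → ℝ, ∀ ω, A ω → Thin r pt d A ω → pt ω = u →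
        ∀ j, |d ω j - v j| ≤ r := by
      intro u
      by_cases hu : ∃ ω, A ω ∧ pt ω = u
      · obtain ⟨ω₀, h1, h2⟩ := hu
        exact ⟨d ω₀, fun ω hω ht hpt => ht ω ω₀ hω h1 rfl (h2.trans hpt.symm)⟩
      · exact ⟨0, fun ω hω _ hpt => absurd ⟨ω, hω, hpt⟩ hu⟩
    choose v hv using hex
    exact ⟨v, fun ω hω => hv _ ω hω.1 hω.2 rfl⟩
  · push Not at h
    exact ⟨fun _ => 0, fun ω hω => absurd hω.2 (h ω hω.1)⟩

omit [Fintype Ω] in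
theorem spread_of_not_thin (r : ℝ) (pt : Ω → U) (d : Ω → Fin m → ℝ) (A : Ω → Prop) :
    Spread r pt d (fun ω => A ω ∧ ¬ Thin r pt d A ω) := by
  rintro ω ⟨hω, ht⟩
  have ht' := ht
  unfold Thin at ht
  push Not at ht
  obtain ⟨ω', ω'', h1, h2, h3, h4, h5⟩ := ht
  have key : ∀ ω₁, pt ω₁ = pt ω → ¬ Thin r pt d A ω₁ := by
    intro ω₁ h6 h7
    exact ht' fun a b ha hb h8 h9 => h7 a b ha hb (h8.trans h6.symm) (h9.trans h6.symm)
  exact ⟨ω', ω'', ⟨h1, key _ h3⟩, ⟨h2, key _ h4⟩, h3, h4, h5⟩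

/-- (2.5.1) Points with a thin fan are rare. -/
theorem Stb.thin_lt {p : Ω → ℝ} {κ : ℝ} {A : Ω → Prop} {r : ℝ} {pt : Ω → U}
    {d : Ω → Fin m → ℝ} (hs : Stb p κ A (Ball r pt d)) (hn : ¬ Ball r pt d A) :
    Pe p (fun ω => A ω ∧ Thin r pt d A ω) < Real.exp (-κ) * Pe p A := by
  by_contra h
  push Not at h
  rcases hs with hs | hs
  · exact hn hs
  · exact hs _ (fun ω hω => hω.1) h (ball_thin r pt d A)

/-! ### Frames -/

/-- At each point the directions lie within `r` of a line with slopes `e` and offsets `n`, in the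
chart given by the coordinate `i₀`. -/
structure IsFrame (i₀ : Fin m) (r : ℝ) (pt : Ω → U) (d : Ω → Fin m → ℝ) (A : Ω → Prop)
    (e n : U → Fin m → ℝ) : Prop where
  bound : ∀ ω, A ω → ∀ j, |e (pt ω) j| ≤ 1
  line : ∀ ω, A ω → ∀ j, |d ω j - e (pt ω) j * d ω i₀ - n (pt ω) j| ≤ r

/-- The directions at each point lie near a line. -/
def LineAt (i₀ : Fin m) (r : ℝ) (pt : Ω → U) (d : Ω → Fin m → ℝ) (A : Ω → Prop) : Prop :=
  ∃ e n : U → Fin m → ℝ, IsFrame i₀ r pt d A e n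

omit [Fintype Ω] in
theorem IsFrame.sub {i₀ : Fin m} {r : ℝ} {pt : Ω → U} {d : Ω → Fin m → ℝ} {A B : Ω → Prop}
    {e n : U → Fin m → ℝ} (h : IsFrame i₀ r pt d A e n) (hB : Sub B A) :
    IsFrame i₀ r pt d B e n :=
  ⟨fun ω hω => h.bound ω (hB ω hω), fun ω hω => h.line ω (hB ω hω)⟩

omit [Fintype Ω] in
theorem LineAt.hered (i₀ : Fin m) (r : ℝ) (pt : Ω → U) (d : Ω → Fin m → ℝ) :
    Hered (LineAt i₀ r pt d) := fun _ _ h ⟨e, n, hen⟩ => ⟨e, n, hen.sub h⟩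

omit [Fintype Ω] in
/-- `LineAt` is a property of the form `Fn`. -/
theorem lineAt_iff (i₀ : Fin m) (r : ℝ) (pt : Ω → U) (d : Ω → Fin m → ℝ) (A : Ω → Prop) :
    LineAt i₀ r pt d A ↔ Fn d pt (fun D (s : (Fin m → ℝ) × (Fin m → ℝ)) =>
      (∀ j, |s.1 j| ≤ 1) ∧ ∀ j, |D j - s.1 j * D i₀ - s.2 j| ≤ r) A := by
  constructor
  · rintro ⟨e, n, h⟩
    exact ⟨fun u => (e u, n u), fun ω hω => ⟨h.bound ω hω, h.line ω hω⟩⟩
  · rintro ⟨ζ, hζ⟩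
    exact ⟨fun u => (ζ u).1, fun u => (ζ u).2, fun ω hω => (hζ ω hω).1, fun ω hω => (hζ ω hω).2⟩

omit [Fintype Ω] in
/-- (2.5.2) The slopes are unique. -/
theorem IsFrame.unique {i₀ : Fin m} {r r' r₁ : ℝ} {pt : Ω → U} {d : Ω → Fin m → ℝ}
    {A : Ω → Prop} {e n e' n' : U → Fin m → ℝ} (h : IsFrame i₀ r pt d A e n)
    (h' : IsFrame i₀ r' pt d A e' n') (hs : Spread r₁ pt d A) (hr : 2 * r < r₁) (ω : Ω)
    (hω : A ω) (j : Fin m) : |e (pt ω) j - e' (pt ω) j| ≤ (2 * r + 2 * r') / (r₁ - 2 * r) := by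
  obtain ⟨ω₁, ω₂, h1, h2, h3, h4, j₀, h5⟩ := hs ω hω
  set Δ := d ω₁ i₀ - d ω₂ i₀ with hΔ
  have l1 := fun j => h.line ω₁ h1 j
  have l2 := fun j => h.line ω₂ h2 j
  have l1' := fun j => h'.line ω₁ h1 j
  have l2' := fun j => h'.line ω₂ h2 j
  rw [h3] at l1 l1'
  rw [h4] at l2 l2'
  have hb := h.bound ω hω
  -- the difference in the chart coordinate
  have k1 : ∀ j, |(d ω₁ j - d ω₂ j) - e (pt ω) j * Δ| ≤ 2 * r := by
    intro j
    have a1 := abs_le.1 (l1 j)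
    have a2 := abs_le.1 (l2 j)
    rw [abs_le, hΔ]
    constructor <;> nlinarith [a1.1, a1.2, a2.1, a2.2]
  have k2 : ∀ j, |(d ω₁ j - d ω₂ j) - e' (pt ω) j * Δ| ≤ 2 * r' := by
    intro j
    have a1 := abs_le.1 (l1' j)
    have a2 := abs_le.1 (l2' j)
    rw [abs_le, hΔ]
    constructor <;> nlinarith [a1.1, a1.2, a2.1, a2.2]
  have k3 : r₁ - 2 * r ≤ |Δ| := by
    have a1 := k1 j₀
    have a2 : |d ω₁ j₀ - d ω₂ j₀| ≤ |e (pt ω) j₀ * Δ| + 2 * r := by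
      have := abs_sub_abs_le_abs_sub (d ω₁ j₀ - d ω₂ j₀) (e (pt ω) j₀ * Δ)
      linarith
    rw [abs_mul] at a2
    have a3 : |e (pt ω) j₀| * |Δ| ≤ |Δ| := by
      nlinarith [hb j₀, abs_nonneg Δ, abs_nonneg (e (pt ω) j₀)]
    linarith
  have hpos : 0 < r₁ - 2 * r := by linarith
  rw [le_div_iff₀ hpos]
  calc |e (pt ω) j - e' (pt ω) j| * (r₁ - 2 * r) ≤ |e (pt ω) j - e' (pt ω) j| * |Δ| :=
        mul_le_mul_of_nonneg_left k3 (abs_nonneg _)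
    _ = |((d ω₁ j - d ω₂ j) - e' (pt ω) j * Δ) - ((d ω₁ j - d ω₂ j) - e (pt ω) j * Δ)| := by
        rw [← abs_mul]; congr 1; ring
    _ ≤ _ := by
        have := abs_sub ((d ω₁ j - d ω₂ j) - e' (pt ω) j * Δ)
          ((d ω₁ j - d ω₂ j) - e (pt ω) j * Δ)
        linarith [k1 j, k2 j]

/-! ### Turning thresholds -/

/-- The slopes are known from the window up to `ρ`. -/
def Rot (i₀ : Fin m) (r ρ : ℝ) (pt : Ω → U) (wn : Ω → V) (d : Ω → Fin m → ℝ) (A : Ω → Prop) :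
    Prop :=
  ∃ (e n : U → Fin m → ℝ) (ζ : V → Fin m → ℝ), IsFrame i₀ r pt d A e n ∧
    ∀ ω, A ω → ∀ j, |e (pt ω) j - ζ (wn ω) j| ≤ ρ

omit [Fintype Ω] in
theorem Rot.hered (i₀ : Fin m) (r ρ : ℝ) (pt : Ω → U) (wn : Ω → V) (d : Ω → Fin m → ℝ) :
    Hered (Rot i₀ r ρ pt wn d) :=
  fun _ _ h ⟨e, n, ζ, h1, h2⟩ => ⟨e, n, ζ, h1.sub h, fun ω hω => h2 ω (h ω hω)⟩

omit [Fintype Ω] in
theorem Rot.mono {i₀ : Fin m} {r ρ ρ' : ℝ} {pt : Ω → U} {wn : Ω → V} {d : Ω → Fin m → ℝ}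
    {A : Ω → Prop} (h : ρ ≤ ρ') (hR : Rot i₀ r ρ pt wn d A) : Rot i₀ r ρ' pt wn d A := by
  obtain ⟨e, n, ζ, h1, h2⟩ := hR
  exact ⟨e, n, ζ, h1, fun ω hω j => (h2 ω hω j).trans h⟩

omit [Fintype Ω] in
/-- Smaller windows. -/
theorem Rot.window {i₀ : Fin m} {r ρ : ℝ} {pt : Ω → U} {wn : Ω → V} {wn' : Ω → V'} {φ : V' → V}
    (hφ : ∀ ω, wn ω = φ (wn' ω)) {d : Ω → Fin m → ℝ} {A : Ω → Prop}
    (hR : Rot i₀ r ρ pt wn d A) : Rot i₀ r ρ pt wn' d A := by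
  obtain ⟨e, n, ζ, h1, h2⟩ := hR
  exact ⟨e, n, fun v => ζ (φ v), h1, fun ω hω j => by
    have := h2 ω hω j
    rwa [hφ] at this⟩

omit [Fintype Ω] in
/-- (2.6.1) (a): below the threshold the frames of all times of a window agree. -/
theorem Rot.pairs {i₀ : Fin m} {r ρ r₁ : ℝ} {pt : Ω → U} {wn : Ω → V} {d : Ω → Fin m → ℝ}
    {A : Ω → Prop} {e n : U → Fin m → ℝ} (hR : Rot i₀ r ρ pt wn d A)
    (h : IsFrame i₀ r pt d A e n) (hs : Spread r₁ pt d A) (hr : 2 * r < r₁) {ω ω' : Ω}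
    (hω : A ω) (hω' : A ω') (hw : wn ω = wn ω') (j : Fin m) :
    |e (pt ω) j - e (pt ω') j| ≤ 2 * ρ + 8 * r / (r₁ - 2 * r) := by
  obtain ⟨e', n', ζ, h1, h2⟩ := hR
  have a1 := h.unique h1 hs hr ω hω j
  have a2 := h.unique h1 hs hr ω' hω' j
  have a3 := h2 ω hω j
  have a4 := h2 ω' hω' j
  rw [← hw] at a4
  have e1 : (2 * r + 2 * r) / (r₁ - 2 * r) = 4 * (r / (r₁ - 2 * r)) := by ring
  have e2 : 8 * r / (r₁ - 2 * r) = 8 * (r / (r₁ - 2 * r)) := by ring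
  rw [e1] at a1 a2
  rw [e2]
  rw [abs_le] at *
  constructor <;> linarith [a1.1, a1.2, a2.1, a2.2, a3.1, a3.2, a4.1, a4.2]

/-- (2.6.1) (b): above the threshold the frames of two times of a window (or of a longer window)
agree with exponentially small probability only. -/
theorem Stb.rot_cpy_lt {p : Ω → ℝ} (hp : IsLaw p) {κ : ℝ} {A : Ω → Prop} (hA : 0 < Pe p A)
    {i₀ : Fin m} {r ρ : ℝ} {pt : Ω → U} {wn : Ω → V} {d : Ω → Fin m → ℝ} {e n : U → Fin m → ℝ}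
    (hs : Stb p κ A (Rot i₀ r ρ pt wn d)) (hn : ¬ Rot i₀ r ρ pt wn d A)
    (h : IsFrame i₀ r pt d A e n) {wn' : Ω → V'} {φ : V → V'} (hφ : ∀ ω, wn' ω = φ (wn ω)) :
    Pe (cpy (Pool.Agent.H49.Ent.cond p A True) wn')
      (fun w => ∀ j, |e (pt w.1) j - e (pt w.2) j| ≤ ρ) < Real.exp (-κ) := by
  by_contra hcon
  push Not at hcon
  obtain ⟨ζ, hζ⟩ := exists_fn_of_cpy (isLaw_cond hp hA) (fun ω => e (pt ω)) wn'
    (fun a b : Fin m → ℝ => ∀ j, |a j - b j| ≤ ρ) hcon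
  rw [Pe_cond, le_div_iff₀ hA] at hζ
  rcases hs with hs | hs
  · exact hn hs
  · refine hs _ (fun ω hω => hω.1) hζ ⟨e, n, fun v => ζ (φ v), h.sub fun ω hω => hω.1, ?_⟩
    intro ω hω j
    have := hω.2 j
    rwa [hφ] at this

end Pool.K2S
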