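import Pool.Agent.H35.K2S.WSA
import Pool.Agent.H35.K2S.FFAll

/-!
# (NFZ) as typed in the Fam layer
-/

set_option autoImplicit false

namespace Pool.K2S

open Finset Real
open Pool.Agent.H49.Ent Pool.Agent.H32.Dense Pool.STK Pool.KA Pool.KSAT

/-- **(NFZ)** The first digits of the base velocity are not frozen. -/
theorem nfz_thm : NFZStmt := by
  intro a R ha hR hU
  exact ⟨0, fun h₁ γ hh₁ hγ i₀ => not_frz0_cl ap6r_all ha.le hR hU hγ hh₁ i₀⟩

end Pool.K2S
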