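import Pool.Agent.H35.K2S.Pj

/-!
# The one-dimensional family of the chart coordinate in a window and in a cell of velocities

`F.pq i₀ w q S`: the coordinates `i₀` of the lines of `F` in the windows of length `2 ^ (-w)`,
relative to the cells of length `2 ^ (-q)` of the velocities `d i₀`; `S` is additional side
information, a function of the line and of the window.
-/

set_option autoImplicit false

namespace Pool.KA

open Finset Real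
open Pool.Agent.H49.Ent Pool.Agent.H32.Dense Pool.STK

variable {m J : ℕ}

/-- The coordinate `i₀` in the windows of length `2 ^ (-w)`, relative to the cells of length
`2 ^ (-q)` of the velocities. -/
noncomputable def Fam.pq (F : Fam m J) (i₀ : Fin m) (w q : ℕ) {κ : Type} (S : F.Ω → κ) :
    Fam 1 (J - w) where
  Ω := F.Ω
  ζ := (((ℕ × ℤ) × ℤ) × κ) × F.ζ
  fin := F.fin
  p := F.p
  u := fun ω _ => Int.fract (2 ^ (q + w) * F.x1 w ω i₀)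
  d := fun ω _ => Int.fract (2 ^ q * F.d ω i₀)
  T := fun ω => F.T ω % 2 ^ (J - w)
  Z := fun ω => ((((F.T1 w ω, ⌊(2 : ℝ) ^ (q + w) * F.x1 w ω i₀⌋), ⌊(2 : ℝ) ^ q * F.d ω i₀⌋),
    S ω), F.Z ω)
  isLaw := F.isLaw
  dir := fun ω _ => by
    rw [abs_of_nonneg (Int.fract_nonneg _)]
    exact (Int.fract_lt_one _).le
  tim := fun _ => Nat.mod_lt _ (by positivity)

end Pool.KA

namespace Pool.K2S

open Finset Real
open Pool.Agent.H49.Ent Pool.Agent.H32.Dense Pool.STK Pool.KA Pool.KA.Win Pool.KA.TRC Rows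

variable {m J : ℕ}

namespace Pq

/-- The positions of the zoomed family. -/
theorem pq_x (F : Fam m J) (i₀ : Fin m) {w : ℕ} (hw : w ≤ J) (q : ℕ) {κ : Type} (S : F.Ω → κ)
    (j : ℕ) (ω : F.Ω) (i : Fin 1) :
    (2 : ℝ) ^ j * (F.pq i₀ w q S).x ω i = (2 : ℝ) ^ (j + (q + w)) * F.x ω i₀ -
      2 ^ j * (⌊(2 : ℝ) ^ (q + w) * F.x1 w ω i₀⌋ +
        ((F.T ω % 2 ^ (J - w) : ℕ) : ℝ) / 2 ^ (J - w) * ⌊(2 : ℝ) ^ q * F.d ω i₀⌋) := by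
  have h0 : F.x ω i₀ = F.x1 w ω i₀ +
      ((F.T ω % 2 ^ (J - w) : ℕ) : ℝ) / 2 ^ (J - w) * (2 ^ w)⁻¹ * F.d ω i₀ := by
    change F.u ω i₀ + F.t ω * F.d ω i₀ = _
    have h1 := time_split J w (F.T ω) hw
    have h2 : F.t ω = (F.T ω : ℝ) / 2 ^ J := rfl
    rw [h2, h1]
    unfold Fam.x1 Fam.T1
    ring
  change (2 : ℝ) ^ j * (Int.fract (2 ^ (q + w) * F.x1 w ω i₀) +
    ((F.T ω % 2 ^ (J - w) : ℕ) : ℝ) / 2 ^ (J - w) * Int.fract (2 ^ q * F.d ω i₀)) = _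
  rw [h0, Int.fract, Int.fract, pow_add, pow_add]
  have b : (2 : ℝ) ^ w ≠ 0 := by positivity
  field_simp
  ring

/-- The window of the line determines the line and the side information of the zoomed family. -/
theorem pq_det (F : Fam m J) (i₀ : Fin m) {w : ℕ} (q : ℕ) {κ : Type} (S : F.Ω → κ)
    (hS : Det F.p (fun ω => (F.l ω, (F.T1 w ω, F.Z ω))) S) :
    Det F.p (fun ω => (F.T1 w ω, (F.l ω, F.Z ω)))
      (fun ω => ((F.pq i₀ w q S).l ω, (F.pq i₀ w q S).Z ω)) := by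
  intro ω ω' a b h
  simp only [Prod.mk.injEq] at h
  obtain ⟨h1, h2, hZ⟩ := h
  have hu : F.u ω = F.u ω' := (Prod.ext_iff.mp h2).1
  have hd : F.d ω = F.d ω' := (Prod.ext_iff.mp h2).2
  have hx := x1_det F w hu hd h1
  have hSS : S ω = S ω' := hS ω ω' a b (Prod.ext h2 (Prod.ext h1 hZ))
  simp only [Fam.l, Fam.pq, Prod.mk.injEq]
  refine ⟨⟨?_, ?_⟩, ⟨⟨⟨h1, ?_⟩, ?_⟩, hSS⟩, hZ⟩
  · rw [hx]
  · rw [hd]
  · rw [hx]
  · rw [hd]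

/-- The time of the zoomed family. -/
theorem pq_Tm (F : Fam m J) (i₀ : Fin m) {w : ℕ} (hw : w ≤ J) (q : ℕ) {κ : Type} (S : F.Ω → κ)
    (hS : Det F.p (fun ω => (F.l ω, (F.T1 w ω, F.Z ω))) S) {e : ℝ} (he : F.Tm e) :
    (F.pq i₀ w q S).Tm e := by
  have hp := F.isLaw.nonneg
  have c2 : ((J - w : ℕ) : ℝ) = (J : ℝ) - w := by rw [Nat.cast_sub hw]
  unfold Fam.Tm at he ⊢
  rw [c2]
  have h1 : CH F.p (F.T1 w) (fun ω => (F.l ω, F.Z ω)) ≤ w * Real.log 2 :=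
    CH_lt F.isLaw (F.T1 w) _ w fun ω => T1_lt F w hw ω
  have h2 := CH_le_add hp F.T (F.T1 w) (fun ω => (F.l ω, F.Z ω))
  have h3 : CH F.p F.T (fun ω => (F.T1 w ω, (F.l ω, F.Z ω))) ≤
      CH F.p (fun ω => F.T ω % 2 ^ (J - w)) (fun ω => (F.T1 w ω, (F.l ω, F.Z ω))) := by
    refine CH_mono_left hp ?_
    intro ω ω' _ _ h
    simp only [Prod.mk.injEq] at h
    exact T_det F w h.2.1 h.1
  have h4 : CH F.p (fun ω => F.T ω % 2 ^ (J - w)) (fun ω => (F.T1 w ω, (F.l ω, F.Z ω))) ≤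
      CH F.p (fun ω => F.T ω % 2 ^ (J - w))
        (fun ω => ((F.pq i₀ w q S).l ω, (F.pq i₀ w q S).Z ω)) :=
    CH_mono_cond hp (pq_det F i₀ q S hS)
  have h5 : CH F.p (fun ω => F.T ω % 2 ^ (J - w))
      (fun ω => ((F.pq i₀ w q S).l ω, (F.pq i₀ w q S).Z ω)) =
      CH (F.pq i₀ w q S).p (F.pq i₀ w q S).T
        (fun ω => ((F.pq i₀ w q S).l ω, (F.pq i₀ w q S).Z ω)) := rfl
  rw [← h5]
  have e0 : ((J : ℝ) - w) * Real.log 2 = J * Real.log 2 - w * Real.log 2 := by ring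
  rw [e0]
  linarith

/-- Positions of the zoomed family, rounded: from the positions of the family. -/
theorem pq_close (F : Fam m J) (i₀ : Fin m) {w : ℕ} (hw : w ≤ J) (q : ℕ) {κ : Type} (S : F.Ω → κ)
    (j : ℕ) {ω ω' : F.Ω} (hT : F.T ω = F.T ω')
    (ha : ⌊(2 : ℝ) ^ (q + w) * F.x1 w ω i₀⌋ = ⌊(2 : ℝ) ^ (q + w) * F.x1 w ω' i₀⌋)
    (hb : ⌊(2 : ℝ) ^ q * F.d ω i₀⌋ = ⌊(2 : ℝ) ^ q * F.d ω' i₀⌋)
    (hx : ⌊(2 : ℝ) ^ (j + (q + w)) * F.x ω i₀⌋ = ⌊(2 : ℝ) ^ (j + (q + w)) * F.x ω' i₀⌋)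
    (i : Fin 1) :
    |(((F.pq i₀ w q S).X j ω i - (F.pq i₀ w q S).X j ω' i : ℤ) : ℝ)| ≤ 49 := by
  have e1 := pq_x F i₀ hw q S j ω i
  have e2 := pq_x F i₀ hw q S j ω' i
  rw [hT, ha, hb] at e1
  obtain ⟨c, hc⟩ : ∃ c : ℝ, c = 2 ^ j * (⌊(2 : ℝ) ^ (q + w) * F.x1 w ω' i₀⌋ +
        ((F.T ω' % 2 ^ (J - w) : ℕ) : ℝ) / 2 ^ (J - w) * ⌊(2 : ℝ) ^ q * F.d ω' i₀⌋) := ⟨_, rfl⟩
  rw [← hc] at e1 e2
  change |((⌊(2 : ℝ) ^ j * (F.pq i₀ w q S).x ω i⌋ -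
    ⌊(2 : ℝ) ^ j * (F.pq i₀ w q S).x ω' i⌋ : ℤ) : ℝ)| ≤ 49
  rw [e1, e2]
  obtain ⟨A, hA⟩ : ∃ A, A = (2 : ℝ) ^ (j + (q + w)) * F.x ω i₀ := ⟨_, rfl⟩
  obtain ⟨B, hB⟩ : ∃ B, B = (2 : ℝ) ^ (j + (q + w)) * F.x ω' i₀ := ⟨_, rfl⟩
  rw [← hA, ← hB] at hx ⊢
  have h1 := Int.floor_le A
  have h2 := Int.lt_floor_add_one A
  have h3 := Int.floor_le B
  have h4 := Int.lt_floor_add_one B
  have h5 := Int.floor_le (A - c)
  have h6 := Int.lt_floor_add_one (A - c)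
  have h7 := Int.floor_le (B - c)
  have h8 := Int.lt_floor_add_one (B - c)
  rw [hx] at h1 h2
  push_cast
  rw [abs_le]
  constructor <;> linarith

/-- The rows of the zoomed family are rows of the chart coordinate. -/
theorem pq_row (F : Fam m J) (i₀ : Fin m) {w : ℕ} (hw : w ≤ J) (q : ℕ) {κ : Type} (S : F.Ω → κ)
    (j : ℕ) :
    CH (F.pq i₀ w q S).p ((F.pq i₀ w q S).X j)
      (fun ω => ((F.pq i₀ w q S).X 0 ω, (F.pq i₀ w q S).W ω)) ≤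
      CH F.p (fun ω => ⌊(2 : ℝ) ^ (j + (q + w)) * F.x ω i₀⌋)
        (fun ω => (F.T ω, ((⌊(2 : ℝ) ^ (q + w) * F.x1 w ω i₀⌋, ⌊(2 : ℝ) ^ q * F.d ω i₀⌋),
          (S ω, F.Z ω)))) + cc 1 := by
  have hp := F.isLaw.nonneg
  set Y : F.Ω → _ := fun ω => (F.T ω, ((⌊(2 : ℝ) ^ (q + w) * F.x1 w ω i₀⌋,
    ⌊(2 : ℝ) ^ q * F.d ω i₀⌋), (S ω, F.Z ω))) with hY
  have h1 : CH (F.pq i₀ w q S).p ((F.pq i₀ w q S).X j)
      (fun ω => ((F.pq i₀ w q S).X 0 ω, (F.pq i₀ w q S).W ω)) ≤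
      CH F.p ((F.pq i₀ w q S).X j) Y := by
    refine CH_mono_cond (p := F.p) hp fun ω ω' _ _ e => ?_
    have e2 : (F.pq i₀ w q S).W ω = (F.pq i₀ w q S).W ω' := (Prod.ext_iff.mp e).2
    have e0 : F.T ω % 2 ^ (J - w) = F.T ω' % 2 ^ (J - w) := (Prod.ext_iff.mp e2).1
    have e3 : (F.pq i₀ w q S).Z ω = (F.pq i₀ w q S).Z ω' := (Prod.ext_iff.mp e2).2
    have e4 := Prod.ext_iff.mp e3
    have e5 := Prod.ext_iff.mp e4.1
    have e6 := Prod.ext_iff.mp e5.1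
    have e7 := Prod.ext_iff.mp e6.1
    have e8 : F.T1 w ω = F.T1 w ω' := e7.1
    exact Prod.ext (T_det F w e8 e0) (Prod.ext (Prod.ext e7.2 e6.2) (Prod.ext e5.2 e4.2))
  refine h1.trans ?_
  have h2 := CH_le_round F.isLaw ((F.pq i₀ w q S).X j)
    (fun ω (_ : Fin 1) => ⌊(2 : ℝ) ^ (j + (q + w)) * F.x ω i₀⌋) Y (by
      intro ω ω' _ _ e1 e2 k
      have e3 := Prod.ext_iff.mp e1
      have e4 := Prod.ext_iff.mp (Prod.ext_iff.mp e3.2).1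
      exact pq_close F i₀ hw q S j e3.1 e4.1 e4.2 (congrFun e2 0) k)
  refine h2.trans (add_le_add_left ?_ _)
  exact CH_mono_left hp fun ω ω' _ _ e => funext fun _ => (Prod.ext_iff.mp e).1

end Pq

end Pool.K2S
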