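import Pool.Agent.H35.K2S.WSA

/-!
# (WS) as typed in the Fam layer
-/

set_option autoImplicit false

namespace Pool.K2S

open Finset Real
open Pool.Agent.H49.Ent Pool.Agent.H32.Dense Pool.STK Pool.KA Pool.KSAT

/-- **(WS)** The rows of the base position are full in the contexts `(w, q)` with `q` active. -/
theorem ws_thm : WSStmt := by
  intro a R ha hR _
  refine ⟨1, fun h₁ η _ hη => ?_⟩
  obtain ⟨γ, hγ, h⟩ := ws_bits ha.le hη
  have hγ4 : 0 < min γ (1 / 4) := lt_min hγ (by norm_num)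
  refine ⟨min γ (1 / 4), hγ4, min_le_right _ _, fun N hN i₀ w q l hqwl _ => ?_⟩
  exact Cl.mono (J₂ := 0) (fun J _ F A h1 _ h2 => h1 h2)
    (h R N hN (fun J => ⌊min γ (1 / 4) * J⌋₊) (fun J =>
      (Nat.floor_le (by positivity)).trans
        (mul_le_mul_of_nonneg_right (min_le_left _ _) (Nat.cast_nonneg _))) i₀ w q l hqwl)

end Pool.K2S
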